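import Pool.Agent.FAN.Defs

/-!
# Module Inja (size 3): two lemmas on dichotomies

`dich_small` (cut-off). Let `μ (k + 1) = A (μ k) + e k`, `‖μ k‖ ≤ R₁` for all `k`, `D ≥ 1` and `e k = 0` for
`m - D ≤ k < m + D`. Put `φ k = max 0 (1 - |k - m| / D)`, `ν k = φ k • μ k`. Then
`ν (k + 1) - A (ν k) = (φ (k + 1) - φ k) • A (μ k) + φ (k + 1) • e k`, where the last term is `0` (`φ (k + 1) ≠ 0` implies
`|k + 1 - m| < D`), and `|φ (k + 1) - φ k| ≤ 1 / D`, so the norm is `≤ ‖A‖ R₁ / D`. By the existence and uniqueness in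
`Dich` (`Dich.exists_sol`, Pool/Agent/OmSt/Dich.lean, gives a solution of norm `≤ K ‖A‖ R₁ / D`, its difference to `ν`
is a bounded solution of the homogeneous equation; `ν` is bounded) `‖μ m‖ = ‖ν m‖ ≤ K * (‖A‖ * R₁ / D)`.

`dich_period`: `A^p u = u`, `p ≥ 1` implies `u = 0`: the sequence `i ↦ A^(i mod p) u` is a bounded solution of the
homogeneous equation (or `i ↦ (A ^ i) u` with the powers in the group `E' ≃L[ℝ] E'`).
-/

set_option autoImplicit false

open Set Filter Topology Metric OmSt PRH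

namespace FAN

variable {E' : Type*} [NormedAddCommGroup E'] [NormedSpace ℝ E']

theorem dich_small {A : E' →L[ℝ] E'} {K : ℝ} (hD : Dich (fun _ : ℤ => A) K) (hK : 0 ≤ K)
    {μ e : ℤ → E'} {R₁ : ℝ} (hμ : ∀ k, ‖μ k‖ ≤ R₁) (he : ∀ k, μ (k + 1) = A (μ k) + e k) {m : ℤ}
    {D : ℕ} (hD1 : 1 ≤ D) (h0 : ∀ k, m - D ≤ k → k < m + D → e k = 0) :
    ‖μ m‖ ≤ K * (‖A‖ * R₁ / D) := by
  have hR0 : 0 ≤ R₁ := (norm_nonneg _).trans (hμ 0)
  have hDpos : (0 : ℝ) < D := by
    have : (1 : ℝ) ≤ D := by exact_mod_cast hD1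
    linarith
  set φ : ℤ → ℝ := fun k => max 0 (1 - |(k : ℝ) - m| / D) with hφ
  have hφ0 : ∀ k, 0 ≤ φ k := fun k => le_max_left _ _
  have hφ1 : ∀ k, φ k ≤ 1 := by
    intro k
    refine max_le zero_le_one ?_
    have : 0 ≤ |(k : ℝ) - m| / D := by positivity
    linarith
  have hφm : φ m = 1 := by simp [hφ]
  have hφd : ∀ k, |φ (k + 1) - φ k| ≤ 1 / D := by
    intro k
    have h1 : |φ (k + 1) - φ k| ≤
        |(1 - |((k + 1 : ℤ) : ℝ) - m| / D) - (1 - |(k : ℝ) - m| / D)| := by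
      have h2 := abs_max_sub_max_le_abs (1 - |((k + 1 : ℤ) : ℝ) - m| / D)
        (1 - |(k : ℝ) - m| / D) 0
      simpa only [hφ, max_comm] using h2
    refine h1.trans ?_
    have h3 : (1 - |((k + 1 : ℤ) : ℝ) - m| / D) - (1 - |(k : ℝ) - m| / D) =
        (|(k : ℝ) - m| - |((k + 1 : ℤ) : ℝ) - m|) / D := by ring
    rw [h3, abs_div, abs_of_pos hDpos]
    refine div_le_div_of_nonneg_right ?_ hDpos.le
    refine (abs_abs_sub_abs_le _ _).trans ?_
    have h4 : ((k : ℝ) - m) - (((k + 1 : ℤ) : ℝ) - m) = -1 := by push_cast; ring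
    rw [h4]
    simp
  set ν : ℤ → E' := fun k => φ k • μ k with hν
  have hνb : ∀ k, ‖ν k‖ ≤ R₁ := by
    intro k
    simp only [hν, norm_smul, Real.norm_eq_abs, abs_of_nonneg (hφ0 k)]
    calc φ k * ‖μ k‖ ≤ 1 * R₁ := mul_le_mul (hφ1 k) (hμ k) (norm_nonneg _) zero_le_one
      _ = R₁ := one_mul _
  set w : ℤ → E' := fun k => (φ (k + 1) - φ k) • A (μ k) with hw
  have hwb : ∀ k, ‖w k‖ ≤ ‖A‖ * R₁ / D := by
    intro k
    simp only [hw, norm_smul, Real.norm_eq_abs]
    calc |φ (k + 1) - φ k| * ‖A (μ k)‖ ≤ (1 / D) * (‖A‖ * R₁) :=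
          mul_le_mul (hφd k) ((A.le_opNorm _).trans (by gcongr; exact hμ k)) (norm_nonneg _)
            (by positivity)
      _ = ‖A‖ * R₁ / D := by ring
  have hνe : ∀ k, ν (k + 1) = A (ν k) + w k := by
    intro k
    have h5 : φ (k + 1) • e k = 0 := by
      by_cases hz : φ (k + 1) = 0
      · rw [hz, zero_smul]
      · have h6 : 0 < 1 - |((k + 1 : ℤ) : ℝ) - m| / D := by
          by_contra hcon
          exact hz (max_eq_left (not_lt.1 hcon))
        have h7 : |((k + 1 : ℤ) : ℝ) - m| < D := by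
          have h8 : |((k + 1 : ℤ) : ℝ) - m| / D < 1 := by linarith
          rwa [div_lt_one hDpos] at h8
        have h9 : |k + 1 - m| < (D : ℤ) := by
          have : ((|k + 1 - m| : ℤ) : ℝ) < ((D : ℤ) : ℝ) := by
            push_cast
            push_cast at h7
            exact h7
          exact_mod_cast this
        rw [abs_lt] at h9
        rw [h0 k (by omega) (by omega), smul_zero]
    simp only [hν, hw, he k, smul_add, h5, add_zero, map_smul]
    rw [sub_smul]
    abel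
  obtain ⟨v, hv1, hv2⟩ := hD.exists_sol w (‖A‖ * R₁ / D) hwb
  have h10 := hD.unique (fun k => v k - ν k) (K * (‖A‖ * R₁ / D) + R₁)
    (fun k => (norm_sub_le _ _).trans (add_le_add (hv1 k) (hνb k)))
    (fun k => by
      simp only [hv2 k, hνe k, map_sub]
      abel) m
  have h11 : μ m = v m := by
    have h12 : v m = ν m := sub_eq_zero.1 h10
    rw [h12]
    simp only [hν, hφm, one_smul]
  rw [h11]
  exact hv1 m

theorem dich_period {A : E' ≃L[ℝ] E'} {K : ℝ} (hD : Dich (fun _ : ℤ => (A : E' →L[ℝ] E')) K)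
    {u : E'} {p : ℕ} (hp : 1 ≤ p) (hu : ((A : E' →L[ℝ] E') ^ p) u = u) : u = 0 := by
  have hpz : (0 : ℤ) < p := by exact_mod_cast hp
  set s : ℕ → E' := fun j => ((A : E' →L[ℝ] E') ^ j) u with hs
  have hs1 : ∀ j, s (j + 1) = A (s j) := by
    intro j
    simp only [hs, pow_succ']
    rfl
  set v : ℤ → E' := fun i => s (i % (p : ℤ)).toNat with hv
  have hb : ∀ i, ‖v i‖ ≤ ∑ j ∈ Finset.range p, ‖s j‖ := by
    intro i
    have h1 : (i % (p : ℤ)).toNat ∈ Finset.range p := by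
      rw [Finset.mem_range]
      have h2 := Int.emod_lt_of_pos i hpz
      have h3 := Int.emod_nonneg i hpz.ne'
      omega
    exact Finset.single_le_sum (f := fun j => ‖s j‖) (fun j _ => norm_nonneg _) h1
  have hr : ∀ i, v (i + 1) = (A : E' →L[ℝ] E') (v i) := by
    intro i
    have h2 := Int.emod_lt_of_pos i hpz
    have h3 := Int.emod_nonneg i hpz.ne'
    rcases eq_or_ne (i % (p : ℤ)) (p - 1) with h | h
    · have h4 : (i + 1) % (p : ℤ) = 0 := by
        rw [Int.add_emod, h]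
        rcases eq_or_ne p 1 with h5 | h5
        · subst h5
          simp
        · have h6 : (1 : ℤ) % (p : ℤ) = 1 := Int.emod_eq_of_lt (by norm_num) (by omega)
          rw [h6, sub_add_cancel, Int.emod_self]
      have h7 : (i % (p : ℤ)).toNat + 1 = p := by omega
      change s ((i + 1) % (p : ℤ)).toNat = A (s (i % (p : ℤ)).toNat)
      rw [← hs1, h7, h4]
      simp only [Int.toNat_zero, hs, pow_zero]
      exact hu.symm
    · have h4 : (i + 1) % (p : ℤ) = i % (p : ℤ) + 1 := by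
        have h5 : (i + 1) % (p : ℤ) = (i % (p : ℤ) + 1) % (p : ℤ) := by
          rw [Int.emod_add_emod]
        rw [h5]
        exact Int.emod_eq_of_lt (by omega) (by omega)
      have h7 : ((i + 1) % (p : ℤ)).toNat = (i % (p : ℤ)).toNat + 1 := by omega
      change s ((i + 1) % (p : ℤ)).toNat = A (s (i % (p : ℤ)).toNat)
      rw [h7, hs1]
  have h8 := hD.unique v _ hb hr 0
  simpa [hv, hs] using h8

end FAN
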