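import Pool.Agent.FAN.Sol
import Pool.Agent.FAN.Inja

/-!
# Module Inj (size 4): sparse codes are determined by the point of the fibre

`dich_small`, `dich_period`: Module Inja.

`code_inj`. Step 1: `π (w i) = π (w' i)` for all `i`. Put `y i = π (w i)`; `y (i + 1) = aa (x i, y i)` (`FData.eq` with the
lift `b i`, and `v ∈ Λ`, `FData.fib`); the same for `y'`. Forward: clear; backward: `FData.inj`.
Step 2: `μ i = w i - w' i ∈ Λ`, bounded by `R₁ = 4 * K * (3 * R)` (`FData.sol_bound`, `norm_cd_le`), and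
`μ (i + 1) = A (μ i) + e i`, `e i = (if ω i then v else 0) - (if ω' i then v else 0)`, because
`θ (x i, π (w i)) = θ (x i, π (w' i))`.
Step 3: choose `D ≥ 1` with `K * (‖A‖ * R₁ / D) < ρ`; by `dich_small` and `FData.disc`: (Z) if `e k = 0` for
`m - D ≤ k < m + D` then `μ m = 0`. Let `L = 4 * D + 4` (this is the `L₁` of the statement).
Step 4: suppose `ω ≠ ω'`. CLAIM: there is `i` with `ω i ≠ ω' i` and `ω j = ω' j = false` for `i - 2 D ≤ j < i`. Take `k₀` with
`ω k₀ ≠ ω' k₀`, say (symmetry) `ω k₀ = true`, `ω' k₀ = false`. If `ω' j = false` for all `k₀ - 2D ≤ j < k₀`, take `i = k₀`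
(`ω` is sparse). Otherwise there is such a `j` with `ω' j = true`; `ω j = false` (sparse); take `i = j`: for
`j - 2D ≤ j' < j`: `ω' j' = false` (sparse), `ω j' = false` because `k₀ - j' ≤ 4 D < L`.
Step 5: by symmetry `ω i = true`, `ω' i = false`, so `e i = v`. (Z) at `m = i - D`: `μ (i - D) = 0`, so `μ i = 0`
(`e = 0` in between), `μ (i + 1) = v`. `ω j = false` for `i < j < i + L`.
Case A: `ω' j = false` for `i < j ≤ i + 2D`: `e = 0` there, (Z) at `m = i + 1 + D`: `A^D v = 0`, `v = 0`, contradiction.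
Case B: `ω' j = true` for some `i < j ≤ i + 2D`: by sparsity no other such place in `(i, j + L)`; `μ j = A^(j-i-1) v`,
`μ (j + 1) = A^(j - i) v - v`, `e = 0` on `(j, j + 2D]`, (Z) at `m = j + 1 + D`: `A^D (A^(j-i) v - v) = 0`, so `A^(j-i) v = v`,
`v = 0` by `dich_period`, contradiction.
-/

set_option autoImplicit false

open Set Filter Topology Metric OmSt PRH

namespace FAN

variable {E' : Type*} [NormedAddCommGroup E'] [NormedSpace ℝ E'] [CompleteSpace E'] {M N : Type*} [TopologicalSpace M] [TopologicalSpace N]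
  {A : E' ≃L[ℝ] E'} {π : E' → N} {Λ : AddSubgroup E'} {β : M → N} {θ : M × N → E'}
  {aa : M × N → N} {K κ R ρ : ℝ} {v : E'}

private theorem inj_pow {A : E' ≃L[ℝ] E'} {μ e : ℤ → E'} (he : ∀ k, μ (k + 1) = (A : E' →L[ℝ] E') (μ k) + e k)
    (m : ℤ) : ∀ p : ℕ, (∀ k, m ≤ k → k < m + p → e k = 0) →
      μ (m + p) = ((A : E' →L[ℝ] E') ^ p) (μ m) := by
  intro p
  induction p with
  | zero => intro _; simp
  | succ p ih =>
    intro h
    have h1 := ih (fun k hk1 hk2 => h k hk1 (by push_cast; omega))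
    have h2 := he (m + p)
    rw [h (m + p) (by omega) (by push_cast; omega), add_zero, h1] at h2
    rw [show m + ((p + 1 : ℕ) : ℤ) = m + p + 1 by push_cast; ring, h2, pow_succ']
    rfl

private theorem inj_zero {A : E' ≃L[ℝ] E'} : ∀ (p : ℕ) (u : E'), ((A : E' →L[ℝ] E') ^ p) u = 0 → u = 0 := by
  intro p
  induction p with
  | zero => intro u hu; simpa using hu
  | succ p ih =>
    intro u hu
    rw [pow_succ'] at hu
    have h1 : A (((A : E' →L[ℝ] E') ^ p) u) = 0 := hu
    exact ih u (by simpa using h1)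

private theorem inj_core {A : E' ≃L[ℝ] E'} {Λ : AddSubgroup E'} {K R₁ ρ : ℝ} {v : E'}
    (hD : Dich (fun _ : ℤ => (A : E' →L[ℝ] E')) K) (hK : 0 ≤ K)
    (disc : ∀ l ∈ Λ, ‖l‖ < ρ → l = 0) (v0 : v ≠ 0) {D : ℕ} (hD1 : 1 ≤ D)
    (hDρ : K * (‖(A : E' →L[ℝ] E')‖ * R₁ / D) < ρ) {μ : ℤ → E'} (hμΛ : ∀ i, μ i ∈ Λ)
    (hμ : ∀ i, ‖μ i‖ ≤ R₁) {ω ω' : ℤ → Bool} (hω : ω ∈ YL (4 * D + 4)) (hω' : ω' ∈ YL (4 * D + 4))
    (he : ∀ k, μ (k + 1) = (A : E' →L[ℝ] E') (μ k) +
      ((if ω k = true then v else 0) - (if ω' k = true then v else 0)))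
    {i : ℤ} (hi : ω i = true) (hi' : ω' i = false)
    (h1 : ∀ j, i - 2 * D ≤ j → j < i → ω j = false) (h2 : ∀ j, i - 2 * D ≤ j → j < i → ω' j = false) :
    False := by
  set e : ℤ → E' := fun k => (if ω k = true then v else 0) - (if ω' k = true then v else 0) with hedef
  have he' : ∀ k, μ (k + 1) = (A : E' →L[ℝ] E') (μ k) + e k := he
  have e0 : ∀ k, ω k = false → ω' k = false → e k = 0 := by
    intro k hk hk'
    simp [hedef, hk, hk']
  have Z : ∀ m : ℤ, (∀ k, m - D ≤ k → k < m + D → e k = 0) → μ m = 0 := by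
    intro m hm
    exact disc _ (hμΛ m) (lt_of_le_of_lt (dich_small hD hK hμ he' hD1 hm) hDρ)
  have sp : ∀ j k : ℤ, ω j = true → j < k → k < j + (4 * D + 4) → ω k = false := by
    intro j k hj hjk hk
    by_contra hc
    have hc' : ω k = true := by simpa using hc
    have := hω j k hj hc' hjk
    push_cast at this
    omega
  have sp' : ∀ j k : ℤ, ω' j = true → j < k → k < j + (4 * D + 4) → ω' k = false := by
    intro j k hj hjk hk
    by_contra hc
    have hc' : ω' k = true := by simpa using hc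
    have := hω' j k hj hc' hjk
    push_cast at this
    omega
  have sp2 : ∀ j k : ℤ, ω' j = true → k < j → j < k + (4 * D + 4) → ω' k = false := by
    intro j k hj hjk hk
    by_contra hc
    have hc' : ω' k = true := by simpa using hc
    have := hω' k j hc' hj hjk
    push_cast at this
    omega
  have hm1 : μ (i - D) = 0 := by
    refine Z _ fun k hk1 hk2 => e0 k (h1 k (by omega) (by omega)) (h2 k (by omega) (by omega))
  have hm2 : μ i = 0 := by
    have := inj_pow he' (i - D) D (fun k hk1 hk2 => e0 k (h1 k (by omega) (by omega)) (h2 k (by omega) (by omega)))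
    rw [show i - (D : ℤ) + D = i by ring, hm1, map_zero] at this
    exact this
  have hm3 : μ (i + 1) = v := by
    rw [he' i, hm2, map_zero, zero_add, hedef]
    simp [hi, hi']
  by_cases hA : ∀ j, i < j → j ≤ i + 2 * D → ω' j = false
  · have hz : ∀ k, i + 1 ≤ k → k ≤ i + 2 * D → e k = 0 := fun k hk1 hk2 =>
      e0 k (sp i k hi (by omega) (by omega)) (hA k (by omega) hk2)
    have h3 : μ (i + 1 + D) = 0 := Z _ fun k hk1 hk2 => hz k (by omega) (by omega)
    have h4 := inj_pow he' (i + 1) D (fun k hk1 hk2 => hz k hk1 (by omega))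
    rw [h3, hm3] at h4
    exact v0 (inj_zero D v h4.symm)
  · push Not at hA
    obtain ⟨j, hj1, hj2, hj3⟩ := hA
    have hj3' : ω' j = true := by simpa using hj3
    have hz1 : ∀ k, i + 1 ≤ k → k < j → e k = 0 := fun k hk1 hk2 =>
      e0 k (sp i k hi (by omega) (by omega)) (sp2 j k hj3' hk2 (by omega))
    have hz2 : ∀ k, j + 1 ≤ k → k ≤ j + 2 * D → e k = 0 := fun k hk1 hk2 =>
      e0 k (sp i k hi (by omega) (by omega)) (sp' j k hj3' (by omega) (by omega))
    obtain ⟨p, hp⟩ : ∃ p : ℕ, j = i + 1 + p := ⟨(j - (i + 1)).toNat, by omega⟩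
    have h5 := inj_pow he' (i + 1) p (fun k hk1 hk2 => hz1 k hk1 (by omega))
    rw [← hp, hm3] at h5
    have hωj : ω j = false := sp i j hi hj1 (by omega)
    have h6 : μ (j + 1) = ((A : E' →L[ℝ] E') ^ (p + 1)) v - v := by
      rw [he' j, h5, pow_succ', hedef]
      simp [hωj, hj3', sub_eq_add_neg]
    have h7 : μ (j + 1 + D) = 0 := Z _ fun k hk1 hk2 => hz2 k (by omega) (by omega)
    have h8 := inj_pow he' (j + 1) D (fun k hk1 hk2 => hz2 k hk1 (by omega))
    rw [h7, h6] at h8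
    have h9 := inj_zero D _ h8.symm
    exact v0 (dich_period hD (p := p + 1) (by omega) (sub_eq_zero.1 h9))

private theorem inj_find {ω ω' : ℤ → Bool} {D : ℕ} (hω : ω ∈ YL (4 * D + 4)) (hω' : ω' ∈ YL (4 * D + 4))
    {k : ℤ} (hk : ω k = true) (hk' : ω' k = false) :
    ∃ i, ω i ≠ ω' i ∧ (∀ j, i - 2 * D ≤ j → j < i → ω j = false) ∧
      (∀ j, i - 2 * D ≤ j → j < i → ω' j = false) := by
  have sp2 : ∀ {η : ℤ → Bool}, η ∈ YL (4 * D + 4) → ∀ j k : ℤ, η j = true → k < j →
      j < k + (4 * D + 4) → η k = false := by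
    intro η hη j k hj hjk hk
    by_contra hc
    have hc' : η k = true := by simpa using hc
    have := hη k j hc' hj hjk
    push_cast at this
    omega
  by_cases hA : ∀ j, k - 2 * D ≤ j → j < k → ω' j = false
  · exact ⟨k, by simp [hk, hk'], fun j h1 h2 => sp2 hω k j hk h2 (by omega), hA⟩
  · push Not at hA
    obtain ⟨j, hj1, hj2, hj3⟩ := hA
    have hj3' : ω' j = true := by simpa using hj3
    refine ⟨j, ?_, fun l h1 h2 => sp2 hω k l hk (by omega) (by omega),
      fun l h1 h2 => sp2 hω' j l hj3' h2 (by omega)⟩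
    rw [hj3', sp2 hω k j hk hj2 (by omega)]
    simp

theorem FData.code_inj (h : FData A π Λ β θ aa K κ R ρ v) : ∃ L₁ : ℕ, ∀ (x : ℤ → M) (b : ℤ → E'),
    (∀ i, π (b i) = β (x i)) → (∀ i, ‖b i‖ ≤ R) → ∀ ω ∈ YL L₁, ∀ ω' ∈ YL L₁, ∀ w w' : ℤ → E',
      IsSol A π θ x (cd b ω v) w → IsSol A π θ x (cd b ω' v) w' → π (w 0) = π (w' 0) → ω = ω' := by
  set R₁ : ℝ := 2 * K * (R + R + R) + 2 * K * (R + R + R) with hR₁
  obtain ⟨D₀, hD₀⟩ := exists_nat_gt (K * (‖(A : E' →L[ℝ] E')‖ * R₁) / ρ)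
  set D : ℕ := D₀ + 1 with hDdef
  have hD1 : 1 ≤ D := by omega
  have hDpos : (0 : ℝ) < D := by exact_mod_cast hD1
  have hDρ : K * (‖(A : E' →L[ℝ] E')‖ * R₁ / D) < ρ := by
    rw [← mul_div_assoc, div_lt_iff₀ hDpos]
    have h1 : K * (‖(A : E' →L[ℝ] E')‖ * R₁) < D₀ * ρ := by
      rwa [div_lt_iff₀ h.ρ0] at hD₀
    have h2 : ((D : ℕ) : ℝ) = D₀ + 1 := by rw [hDdef]; push_cast; ring
    rw [h2]
    nlinarith [h.ρ0]
  refine ⟨4 * D + 4, fun x b hb1 hb2 ω hω ω' hω' w w' hw hw' h0 => ?_⟩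
  have hcd : ∀ (η : ℤ → Bool) (i : ℤ), π (cd b η v i) = β (x i) := by
    intro η i
    rw [← hb1 i, h.fib]
    unfold cd
    split_ifs
    · simpa using h.vΛ
    · simp
  have step : ∀ (η : ℤ → Bool) (u : ℤ → E'), IsSol A π θ x (cd b η v) u →
      ∀ i, π (u (i + 1)) = aa (x i, π (u i)) := by
    intro η u hu i
    rw [h.eq (x i) (u i) (cd b η v i) (hcd η i), hu.2 i]
  have hπ : ∀ i : ℤ, π (w i) = π (w' i) := by
    intro i
    induction i using Int.induction_on with
    | zero => exact h0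
    | succ n ih =>
      rw [step ω w hw, step ω' w' hw', ih]
    | pred n ih =>
      have h1 := step ω w hw (-(n : ℤ) - 1)
      have h2 := step ω' w' hw' (-(n : ℤ) - 1)
      rw [sub_add_cancel] at h1 h2
      rw [h1, h2] at ih
      exact h.inj _ _ _ ih
  have hbd : ∀ (η : ℤ → Bool) (u : ℤ → E'), IsSol A π θ x (cd b η v) u →
      ∀ i, ‖u i‖ ≤ 2 * K * (R + R + R) := fun η u hu =>
    h.sol_bound (norm_cd_le hb2 h.vR η) hu
  have hμΛ : ∀ i, w i - w' i ∈ Λ := fun i => (h.fib _ _).1 (hπ i)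
  have hμ : ∀ i, ‖w i - w' i‖ ≤ R₁ := fun i =>
    (norm_sub_le _ _).trans (add_le_add (hbd ω w hw i) (hbd ω' w' hw' i))
  have heq : ∀ k, w (k + 1) - w' (k + 1) = (A : E' →L[ℝ] E') (w k - w' k) +
      ((if ω k = true then v else 0) - (if ω' k = true then v else 0)) := by
    intro k
    rw [hw.2 k, hw'.2 k, hπ k, map_sub]
    unfold cd
    simp only [ContinuousLinearEquiv.coe_coe]
    abel
  have heq' : ∀ k, w' (k + 1) - w (k + 1) = (A : E' →L[ℝ] E') (w' k - w k) +
      ((if ω' k = true then v else 0) - (if ω k = true then v else 0)) := by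
    intro k
    have := congrArg (fun z => -z) (heq k)
    simp only [neg_sub, neg_add_rev, ← map_neg] at this
    rw [this, add_comm]
  have hμΛ' : ∀ i, w' i - w i ∈ Λ := fun i => by
    have := Λ.neg_mem (hμΛ i)
    rwa [neg_sub] at this
  have hμ' : ∀ i, ‖w' i - w i‖ ≤ R₁ := fun i => by
    rw [norm_sub_rev]; exact hμ i
  by_contra hne
  obtain ⟨k, hk⟩ : ∃ k, ω k ≠ ω' k := by
    by_contra hc
    push Not at hc
    exact hne (funext hc)
  obtain ⟨i, hi, h1, h2⟩ : ∃ i, ω i ≠ ω' i ∧ (∀ j, i - 2 * D ≤ j → j < i → ω j = false) ∧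
      (∀ j, i - 2 * D ≤ j → j < i → ω' j = false) := by
    cases hωk : ω k
    · have hωk' : ω' k = true := by
        cases hc : ω' k
        · exact absurd (hωk.trans hc.symm) hk
        · rfl
      obtain ⟨i, h1, h2, h3⟩ := inj_find hω' hω hωk' hωk
      exact ⟨i, h1.symm, h3, h2⟩
    · have hωk' : ω' k = false := by
        cases hc : ω' k
        · rfl
        · exact absurd (hωk.trans hc.symm) hk
      exact inj_find hω hω' hωk hωk'
  cases hωi : ω i
  · have hωi' : ω' i = true := by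
      cases hc : ω' i
      · exact absurd (hωi.trans hc.symm) hi
      · rfl
    exact inj_core (μ := fun i => w' i - w i) h.dich h.K0 h.disc h.v0 hD1 hDρ hμΛ' hμ' hω' hω heq' hωi' hωi h2 h1
  · have hωi' : ω' i = false := by
      cases hc : ω' i
      · rfl
      · exact absurd (hωi.trans hc.symm) hi
    exact inj_core (μ := fun i => w i - w' i) h.dich h.K0 h.disc h.v0 hD1 hDρ hμΛ hμ hω hω' heq hωi hωi' h1 h2

end FAN
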