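import Pool.Agent.FAN.Cont
import Pool.Agent.FAN.Inj
import Pool.Agent.PRH.SymK

/-!
# Module Cmp (size 4): the compact sets of the fibre over an orbit of the base

PROOF. Let `C₀ = 2 * K * (2 * R + R)`: all bounded solutions for translations `cd b ω v`, `‖b i‖ ≤ R`, have norms `≤ C₀`
(`FData.sol_bound`, `norm_cd_le`, `FData.vR`).
1. Lebesgue number: the open sets `π ⁻¹' interior (Uo q)`, `q : N`, cover the compact ball `closedBall (0 : E') C₀`
(`hUo`, `mem_interior_iff_mem_nhds`); `lebesgue_number_lemma_of_metric` gives `r₀ > 0` such that for `‖w‖ ≤ C₀` there is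
`q` with `ball w r₀ ⊆ π ⁻¹' interior (Uo q)`.
2. `FData.sol_cont` with `R' = 2 * R`, `ε = r₀` gives `W₀`. `FData.code_inj` gives `L₁`. Let
`L = max (max L₁ (W₀ + 1)) (max J 1)`; `YL L ⊆ YL L₁` (`SymK_mono`).
3. Let `x`, `b` be given. For every `ω` there is a bounded solution with the translations `cd b ω v`
(`FData.exists_sol`); let `wf ω` be its value at `0` (`choose`). `wf : (ℤ → Bool) → E'` is continuous: given `ω` and
`ε`, `FData.sol_cont` gives `W`, and for all `ω'` in the neighbourhood `{ω' | ∀ i, |i| ≤ W → ω' i = ω i}` of `ω`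
(finitely many conditions; `set_pi_mem_nhds` or `Filter.eventually_all_finite`) the translations agree for `|i| ≤ W`.
`Ch a = wf '' {ω ∈ YL L | ω 0 = true ∧ ω (-(L + a)) = true}`, `Dh = wf '' {ω ∈ YL L | ¬ (..)}`: images of closed subsets
of the compact space `ℤ → Bool` (see the proof of `IsHorseshoe.schedule`, Pool/Agent/PRH/Schedule.lean, for the
closedness). By uniqueness (`FData.sol_unique`) `w 0 = wf ω` for every bounded solution `w`.
4. `q`: the point of step 1 for `wf dl`. If `ω ∈ YL L`, `ω 0 = true`, then `ω i = dl i` for `|i| ≤ W₀ < L` (sparse), so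
`‖wf ω - wf dl‖ < r₀` and `π (wf ω) ∈ Uo q`.
5. Disjointness: if `π (wf ω) = π (wf ω')` with `ω, ω' ∈ YL L`, then `ω = ω'` by `FData.code_inj`. For `a ≠ b`,
`ω (-(L+a)) = ω (-(L+b)) = true` would give `L ≤ |a - b| < J ≤ L` (as in `IsHorseshoe.schedule`).
-/

set_option autoImplicit false

open Set Filter Topology Metric OmSt PRH

namespace FAN

variable {E' : Type*} [NormedAddCommGroup E'] [NormedSpace ℝ E'] [FiniteDimensional ℝ E']
  {M N : Type*} [MetricSpace M] [CompactSpace M] [TopologicalSpace N]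
  {A : E' ≃L[ℝ] E'} {π : E' → N} {Λ : AddSubgroup E'} {β : M → N} {θ : M × N → E'}
  {aa : M × N → N} {K κ R ρ : ℝ} {v : E'}

private theorem cmp_dl {L : ℕ} {ω : ℤ → Bool} (hω : ω ∈ YL L) (h0 : ω 0 = true) {i : ℤ}
    (hi : |i| < L) : ω i = dl i := by
  by_cases h1 : i = 0
  · subst h1
    rw [h0]
    simp [dl]
  · have h2 : ω i ≠ true := by
      intro h2
      have hi' := abs_lt.1 hi
      rcases lt_or_gt_of_ne h1 with h3 | h3
      · have := hω i 0 h2 h0 h3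
        omega
      · have := hω 0 i h0 h2 h3
        omega
    have h3 : ω i = false := by simpa using h2
    rw [h3]
    simp [dl, h1]

theorem FData.exists_sets (h : FData A π Λ β θ aa K κ R ρ v) {Uo : N → Set N}
    (hUo : ∀ q, Uo q ∈ 𝓝 q) (J : ℕ) : ∃ L : ℕ, J ≤ L ∧ 1 ≤ L ∧ ∀ (x : ℤ → M) (b : ℤ → E'),
      (∀ i, π (b i) = β (x i) ∧ ‖b i‖ ≤ R) → ∃ (q : N) (Ch : Fin J → Set E') (Dh : Set E'),
        (∀ a, IsCompact (Ch a)) ∧ IsCompact Dh ∧ (∀ a, π '' Ch a ⊆ Uo q) ∧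
        (∀ a b, a ≠ b → Disjoint (π '' Ch a) (π '' Ch b)) ∧
        (∀ a, Disjoint (π '' Ch a) (π '' Dh)) ∧
        (∀ ω ∈ YL L, ∀ w, IsSol A π θ x (cd b ω v) w → ω 0 = true →
          ∀ a : Fin J, ω (-((L : ℤ) + (a : ℕ))) = true → w 0 ∈ Ch a) ∧
        (∀ ω ∈ YL L, ∀ w, IsSol A π θ x (cd b ω v) w →
          ¬ (ω 0 = true ∧ ∃ a : Fin J, ω (-((L : ℤ) + (a : ℕ))) = true) → w 0 ∈ Dh) := by
  classical
  have hcs : CompleteSpace E' := FiniteDimensional.complete ℝ E'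
  have hps : ProperSpace E' := FiniteDimensional.proper ℝ E'
  obtain ⟨r₀, hr₀, hleb⟩ := lebesgue_number_lemma_of_metric
    (s := closedBall (0 : E') (2 * K * (2 * R + R)))
    (c := fun q : N => π ⁻¹' interior (Uo q)) (isCompact_closedBall _ _)
    (fun q => isOpen_interior.preimage h.contπ)
    (fun w _ => mem_iUnion.2 ⟨π w, mem_interior_iff_mem_nhds.2 (hUo (π w))⟩)
  obtain ⟨W₀, δ₀, hδ₀, hcont⟩ := h.sol_cont (2 * R) hr₀
  obtain ⟨L₁, hinj⟩ := h.code_inj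
  obtain ⟨L, hLL, hLW, hLJ, hL1⟩ : ∃ L : ℕ, L₁ ≤ L ∧ W₀ + 1 ≤ L ∧ J ≤ L ∧ 1 ≤ L :=
    ⟨L₁ + W₀ + 1 + J, by omega, by omega, by omega, by omega⟩
  refine ⟨L, hLJ, hL1, fun x b hb => ?_⟩
  have hbR : ∀ (ω : ℤ → Bool) (i : ℤ), ‖cd b ω v i‖ ≤ 2 * R := fun ω i => by
    have := norm_cd_le (fun i => (hb i).2) h.vR ω i
    linarith
  have hex : ∀ ω : ℤ → Bool, ∃ w, IsSol A π θ x (cd b ω v) w := fun ω => by
    obtain ⟨w, h1, h2⟩ := h.exists_sol x (hbR ω)
    exact ⟨w, ⟨_, h1⟩, h2⟩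
  choose wf hwf using hex
  have huniq : ∀ ω w, IsSol A π θ x (cd b ω v) w → w 0 = wf ω 0 := fun ω w hw => by
    rw [h.sol_unique hw (hwf ω)]
  have hbd : ∀ ω, ‖wf ω 0‖ ≤ 2 * K * (2 * R + R) := fun ω => h.sol_bound (hbR ω) (hwf ω) 0
  have hcw : Continuous fun ω : ℤ → Bool => wf ω 0 := by
    rw [Metric.continuous_iff']
    intro ω ε hε
    obtain ⟨W, δ, hδ, hc⟩ := h.sol_cont (2 * R) hε
    have hev : ∀ᶠ ω' in 𝓝 ω, ∀ i ∈ Finset.Icc (-(W : ℤ)) W, ω' i = ω i := by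
      rw [Filter.eventually_all_finset]
      intro i _
      exact (continuous_apply i).continuousAt.preimage_mem_nhds
        ((isOpen_discrete ({ω i} : Set Bool)).mem_nhds rfl)
    filter_upwards [hev] with ω' hω'
    rw [dist_eq_norm]
    refine hc x x (cd b ω' v) (cd b ω v) (wf ω') (wf ω) (hbR ω') (hbR ω) (hwf ω') (hwf ω) ?_
    intro i hi
    have e : ω' i = ω i := hω' i (by rw [Finset.mem_Icc]; exact abs_le.1 hi)
    refine ⟨by rw [dist_self]; exact hδ, ?_⟩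
    have e2 : cd b ω' v i = cd b ω v i := by unfold cd; rw [e]
    rw [e2, sub_self, norm_zero]; exact hδ
  have hk : ∀ k : ℤ, Continuous (fun ω : ℤ → Bool => ω k) := fun k => continuous_apply k
  have ho : ∀ k : ℤ, IsOpen {ω : ℤ → Bool | ω k = true} := fun k =>
    (isOpen_discrete ({true} : Set Bool)).preimage (hk k)
  have hc : ∀ k : ℤ, IsClosed {ω : ℤ → Bool | ω k = true} := fun k =>
    (isClosed_discrete ({true} : Set Bool)).preimage (hk k)
  obtain ⟨q, hq⟩ := hleb (wf dl 0) (by rw [mem_closedBall_zero_iff]; exact hbd dl)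
  have hcode : ∀ ω ∈ YL L, ∀ ω' ∈ YL L, π (wf ω 0) = π (wf ω' 0) → ω = ω' := by
    intro ω hω ω' hω' he
    exact hinj x b (fun i => (hb i).1) (fun i => (hb i).2) ω (SymK_mono hLL hω) ω'
      (SymK_mono hLL hω') (wf ω) (wf ω') (hwf ω) (hwf ω') he
  refine ⟨q, fun a => (fun ω => wf ω 0) ''
      {ω | ω ∈ YL L ∧ (ω 0 = true ∧ ω (-((L : ℤ) + (a : ℕ))) = true)},
    (fun ω => wf ω 0) ''
      {ω | ω ∈ YL L ∧ ¬ (ω 0 = true ∧ ∃ b : Fin J, ω (-((L : ℤ) + (b : ℕ))) = true)},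
    ?_, ?_, ?_, ?_, ?_, ?_, ?_⟩
  · intro a
    apply IsCompact.image _ hcw
    apply IsClosed.isCompact
    exact (isClosed_YL L).inter ((hc 0).inter (hc _))
  · apply IsCompact.image _ hcw
    apply IsClosed.isCompact
    have : {ω : ℤ → Bool | ω ∈ YL L ∧
        ¬ (ω 0 = true ∧ ∃ b : Fin J, ω (-((L : ℤ) + (b : ℕ))) = true)} =
        YL L ∩ ({ω : ℤ → Bool | ω 0 = true} ∩
          ⋃ b : Fin J, {ω : ℤ → Bool | ω (-((L : ℤ) + (b : ℕ))) = true})ᶜ := by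
      ext ω
      simp
    rw [this]
    exact (isClosed_YL L).inter ((ho 0).inter (isOpen_iUnion fun b => ho _)).isClosed_compl
  · rintro a _ ⟨_, ⟨ω, ⟨hω, h0, _⟩, rfl⟩, rfl⟩
    have h1 : ‖wf ω 0 - wf dl 0‖ < r₀ := by
      refine hcont x x (cd b ω v) (cd b dl v) (wf ω) (wf dl) (hbR ω) (hbR dl) (hwf ω) (hwf dl) ?_
      intro i hi
      have e : ω i = dl i := cmp_dl hω h0 (by omega)
      refine ⟨by rw [dist_self]; exact hδ₀, ?_⟩
      have e2 : cd b ω v i = cd b dl v i := by unfold cd; rw [e]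
      rw [e2, sub_self, norm_zero]; exact hδ₀
    exact interior_subset (hq (by rw [mem_ball, dist_eq_norm]; exact h1))
  · intro a b' hab
    rw [Set.disjoint_left]
    rintro _ ⟨_, ⟨ω, ⟨hω, h0, h1⟩, rfl⟩, rfl⟩ ⟨_, ⟨ω', ⟨hω', h0', h1'⟩, rfl⟩, he⟩
    have he := hcode ω' hω' ω hω he
    subst he
    have hab' : (a : ℕ) ≠ b' := fun hh => hab (Fin.ext hh)
    have haJ := a.2
    have hbJ := b'.2
    rcases lt_or_gt_of_ne hab' with hlt | hlt
    · have := hω _ _ h1' h1 (by omega)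
      omega
    · have := hω _ _ h1 h1' (by omega)
      omega
  · intro a
    rw [Set.disjoint_left]
    rintro _ ⟨_, ⟨ω, ⟨hω, h0, h1⟩, rfl⟩, rfl⟩ ⟨_, ⟨ω', ⟨hω', hn⟩, rfl⟩, he⟩
    have he := hcode ω' hω' ω hω he
    subst he
    exact hn ⟨h0, a, h1⟩
  · intro ω hω w hw h0 a ha
    exact ⟨ω, ⟨hω, h0, ha⟩, (huniq ω w hw).symm⟩
  · intro ω hω w hw hn
    exact ⟨ω, ⟨hω, hn⟩, (huniq ω w hw).symm⟩

end FAN
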