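import Pool.Agent.FAN.Sol

/-!
# Module Cont (size 3): the bounded solution depends continuously on the data, uniformly

PROOF. Suppose not. Then for every `k : ℕ` (with `W = k`, `δ = 1 / (k + 1)`) there are `x k, x' k, b k, b' k,
w k, w' k` with `‖w k 0 - w' k 0‖ ≥ ε`. By `FData.sol_bound` all `w k`, `w' k` have values in the compact ball
`closedBall 0 C`, `C = 2 * K * (R' + R)` (`E'` is proper), and `b k`, `b' k` in `closedBall 0 R'`. The space
`(ℤ → M) × (ℤ → E') × (ℤ → E') × (ℤ → E')` (for `x k, b k, w k, w' k`) is first countable (`ℤ` countable) and the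
set of all the tuples with values in these compact sets is compact (`isCompact_univ_pi`, `IsCompact.prod`), so
(`IsCompact.tendsto_subseq`) along a subsequence `φ` : `x k i → x∞ i`, `b k i → b∞ i`, `w k i → w∞ i`, `w' k i → w'∞ i`
for every `i`. As `dist (x k i) (x' k i) < 1 / (k+1)` for `k ≥ |i|`, also `x' k i → x∞ i`, `b' k i → b∞ i`. The
equations pass to the limit (`π`, `θ`, `A` are continuous): `w∞`, `w'∞` are bounded solutions for the same data
`x∞, b∞`; so they are equal (`FData.sol_unique`), while `‖w∞ 0 - w'∞ 0‖ ≥ ε`. Contradiction.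
-/

set_option autoImplicit false

open Set Filter Topology Metric OmSt PRH

namespace FAN

variable {E' : Type*} [NormedAddCommGroup E'] [NormedSpace ℝ E'] [FiniteDimensional ℝ E']
  {M N : Type*} [MetricSpace M] [CompactSpace M] [TopologicalSpace N]
  {A : E' ≃L[ℝ] E'} {π : E' → N} {Λ : AddSubgroup E'} {β : M → N} {θ : M × N → E'}
  {aa : M × N → N} {K κ R ρ : ℝ} {v : E'}

theorem FData.sol_cont (h : FData A π Λ β θ aa K κ R ρ v) (R' : ℝ) {ε : ℝ} (hε : 0 < ε) :
    ∃ W : ℕ, ∃ δ > 0, ∀ (x x' : ℤ → M) (b b' w w' : ℤ → E'), (∀ i, ‖b i‖ ≤ R') →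
      (∀ i, ‖b' i‖ ≤ R') → IsSol A π θ x b w → IsSol A π θ x' b' w' →
      (∀ i : ℤ, |i| ≤ W → dist (x i) (x' i) < δ ∧ ‖b i - b' i‖ < δ) → ‖w 0 - w' 0‖ < ε := by
  classical
  have : CompleteSpace E' := FiniteDimensional.complete ℝ E'
  have : ProperSpace E' := FiniteDimensional.proper ℝ E'
  by_contra hcon
  push Not at hcon
  have hcon2 := fun k : ℕ => hcon k (1 / ((k : ℝ) + 1)) (by positivity)
  choose x x' b b' w w' hb hb' hw hw' hd hge using hcon2
  set C : ℝ := 2 * K * (R' + R) with hC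
  have hwC : ∀ k i, ‖w k i‖ ≤ C := fun k => h.sol_bound (hb k) (hw k)
  have hwC' : ∀ k i, ‖w' k i‖ ≤ C := fun k => h.sol_bound (hb' k) (hw' k)
  -- the compact set
  have hcomp : IsCompact (Set.pi univ (fun _ : ℤ => (univ : Set M) ×ˢ (closedBall (0 : E') R' ×ˢ
      (closedBall (0 : E') C ×ˢ closedBall (0 : E') C)))) :=
    isCompact_univ_pi fun _ => isCompact_univ.prod ((isCompact_closedBall _ _).prod
      ((isCompact_closedBall _ _).prod (isCompact_closedBall _ _)))
  obtain ⟨a, -, φ, hφ, ha⟩ := hcomp.tendsto_subseq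
    (x := fun (k : ℕ) (i : ℤ) => (x k i, b k i, w k i, w' k i)) (fun k i _ => by
      refine ⟨mem_univ _, ?_, ?_, ?_⟩
      · simpa using hb k i
      · simpa using hwC k i
      · simpa using hwC' k i)
  rw [tendsto_pi_nhds] at ha
  have hx : ∀ i, Tendsto (fun k => x (φ k) i) atTop (𝓝 (a i).1) := fun i =>
    (continuous_fst.tendsto (a i)).comp (ha i)
  have hbt : ∀ i, Tendsto (fun k => b (φ k) i) atTop (𝓝 (a i).2.1) := fun i =>
    ((continuous_fst.comp continuous_snd).tendsto (a i)).comp (ha i)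
  have hwt : ∀ i, Tendsto (fun k => w (φ k) i) atTop (𝓝 (a i).2.2.1) := fun i =>
    ((continuous_fst.comp (continuous_snd.comp continuous_snd)).tendsto (a i)).comp (ha i)
  have hwt' : ∀ i, Tendsto (fun k => w' (φ k) i) atTop (𝓝 (a i).2.2.2) := fun i =>
    ((continuous_snd.comp (continuous_snd.comp continuous_snd)).tendsto (a i)).comp (ha i)
  have h0 : Tendsto (fun k => 1 / (((φ k : ℕ) : ℝ) + 1)) atTop (𝓝 0) :=
    tendsto_one_div_add_atTop_nhds_zero_nat.comp hφ.tendsto_atTop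
  have hev : ∀ i : ℤ, ∀ᶠ k in atTop, |i| ≤ ((φ k : ℕ) : ℤ) := by
    intro i
    filter_upwards [hφ.tendsto_atTop.eventually_ge_atTop i.natAbs] with k hk
    rw [Int.abs_eq_natAbs]
    exact_mod_cast hk
  have hx' : ∀ i, Tendsto (fun k => x' (φ k) i) atTop (𝓝 (a i).1) := by
    intro i
    have h1 : Tendsto (fun k => dist (x (φ k) i) (x' (φ k) i)) atTop (𝓝 0) := by
      refine squeeze_zero' (Eventually.of_forall fun k => dist_nonneg) ?_ h0
      filter_upwards [hev i] with k hk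
      exact (hd (φ k) i hk).1.le
    exact (tendsto_iff_of_dist h1).1 (hx i)
  have hbt' : ∀ i, Tendsto (fun k => b' (φ k) i) atTop (𝓝 (a i).2.1) := by
    intro i
    have h1 : Tendsto (fun k => dist (b (φ k) i) (b' (φ k) i)) atTop (𝓝 0) := by
      refine squeeze_zero' (Eventually.of_forall fun k => dist_nonneg) ?_ h0
      filter_upwards [hev i] with k hk
      rw [dist_eq_norm]
      exact (hd (φ k) i hk).2.le
    exact (tendsto_iff_of_dist h1).1 (hbt i)
  have key : ∀ {x₁ : ℕ → ℤ → M} {b₁ w₁ : ℕ → ℤ → E'} {z : ℤ → E'},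
      (∀ k, IsSol A π θ (x₁ k) (b₁ k) (w₁ k)) → (∀ k i, ‖w₁ k i‖ ≤ C) →
      (∀ i, Tendsto (fun k => x₁ (φ k) i) atTop (𝓝 (a i).1)) →
      (∀ i, Tendsto (fun k => b₁ (φ k) i) atTop (𝓝 (a i).2.1)) →
      (∀ i, Tendsto (fun k => w₁ (φ k) i) atTop (𝓝 (z i))) →
      IsSol A π θ (fun i => (a i).1) (fun i => (a i).2.1) z := by
    intro x₁ b₁ w₁ z hs hc hx₁ hb₁ hw₁
    refine ⟨⟨C, fun i => le_of_tendsto (hw₁ i).norm (Eventually.of_forall fun k => hc _ i)⟩,
      fun i => ?_⟩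
    have e1 : Tendsto (fun k => b₁ (φ k) i + A (w₁ (φ k) i) +
        θ (x₁ (φ k) i, π (w₁ (φ k) i))) atTop
        (𝓝 ((a i).2.1 + A (z i) + θ ((a i).1, π (z i)))) := by
      refine ((hb₁ i).add ((A.continuous.tendsto _).comp (hw₁ i))).add ?_
      exact (h.contθ.tendsto _).comp
        ((hx₁ i).prodMk_nhds ((h.contπ.tendsto _).comp (hw₁ i)))
    refine tendsto_nhds_unique (hw₁ (i + 1)) (e1.congr fun k => ?_)
    exact ((hs (φ k)).2 i).symm
  have s1 := key hw hwC hx hbt hwt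
  have s2 := key hw' hwC' hx' hbt' hwt'
  have e := congrFun (h.sol_unique s1 s2) 0
  have h5 : Tendsto (fun k => ‖w (φ k) 0 - w' (φ k) 0‖) atTop (𝓝 ‖(a 0).2.2.1 - (a 0).2.2.2‖) :=
    ((hwt 0).sub (hwt' 0)).norm
  have h6 : ε ≤ ‖(a 0).2.2.1 - (a 0).2.2.2‖ :=
    ge_of_tendsto h5 (Eventually.of_forall fun k => hge _)
  change (a 0).2.2.1 = (a 0).2.2.2 at e
  rw [e, sub_self, norm_zero] at h6
  linarith

end FAN
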