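import Pool.Agent.FAN.Defs

/-!
# Module Lft (size 2): lifts of `β` near finitely many points

PROOF. For every `o ∈ O`: `π` is open and `β` is continuous, `π (B o) = β o`, so the set
`π '' (ball (B o) δ ∩ ball 0 R)` is an open neighbourhood of `β o` and there is `r > 0` such that for `dist x o < r` the point
`β x` has a lift in `ball (B o) δ ∩ ball 0 R`. Let `ρ'` be the minimum of these `r` and of half the distances of
different points of `O` (finite set; e.g. induction on `O`, or `Finset.exists_min_image`, or `Filter`: all the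
conditions hold for all small `ρ'`, `Finset.eventually_all`). `B' x` is such a lift if `dist x o < ρ'` for some `o ∈ O`
(then `o` is unique), and `B' x = B x` otherwise.
-/

set_option autoImplicit false

open Set Filter Topology Metric OmSt PRH

namespace FAN

variable {E' : Type*} [NormedAddCommGroup E'] [NormedSpace ℝ E']
  {M N : Type*} [MetricSpace M] [TopologicalSpace N]
  {A : E' ≃L[ℝ] E'} {π : E' → N} {Λ : AddSubgroup E'} {β : M → N} {θ : M × N → E'}
  {aa : M × N → N} {K κ R ρ : ℝ} {v : E'}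

private theorem lft_local (h : FData A π Λ β θ aa K κ R ρ v) {B : M → E'}
    (hB : ∀ x, π (B x) = β x ∧ ‖B x‖ < R) {δ : ℝ} (hδ : 0 < δ) (o : M) :
    ∃ r > 0, ∀ x, dist x o < r → ∃ b, π b = β x ∧ ‖b‖ < R ∧ ‖b - B o‖ < δ := by
  have ho : IsOpen (π '' (ball (B o) δ ∩ ball 0 R)) := h.openπ _ (isOpen_ball.inter isOpen_ball)
  have hm : β o ∈ π '' (ball (B o) δ ∩ ball 0 R) :=
    ⟨B o, ⟨mem_ball_self hδ, by simpa using (hB o).2⟩, (hB o).1⟩
  have h1 : ∀ᶠ x in 𝓝 o, β x ∈ π '' (ball (B o) δ ∩ ball 0 R) :=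
    h.contβ.continuousAt.eventually (ho.mem_nhds hm)
  obtain ⟨r, hr, h2⟩ := Metric.eventually_nhds_iff.1 h1
  refine ⟨r, hr, fun x hx => ?_⟩
  obtain ⟨b, ⟨hb1, hb2⟩, hb3⟩ := h2 hx
  exact ⟨b, hb3, by simpa using hb2, by simpa [dist_eq_norm] using hb1⟩

private theorem lft_sep (O : Finset M) : ∃ r > 0, ∀ o ∈ O, ∀ o' ∈ O, ∀ x, dist x o < r →
    dist x o' < r → o = o' := by
  classical
  induction O using Finset.induction_on with
  | empty => exact ⟨1, one_pos, fun o ho => absurd ho (Finset.notMem_empty o)⟩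
  | insert a s ha ih =>
    obtain ⟨r, hr, h1⟩ := ih
    have h2 : ∃ r' > 0, ∀ o ∈ s, 2 * r' ≤ dist a o := by
      clear h1 hr
      induction s using Finset.induction_on with
      | empty => exact ⟨1, one_pos, fun o ho => absurd ho (Finset.notMem_empty o)⟩
      | insert b s hb ih' =>
        have ha' : a ∉ s := fun h => ha (Finset.mem_insert_of_mem h)
        obtain ⟨r', hr', h3⟩ := ih' ha'
        have hab : 0 < dist a b := dist_pos.2 fun h => ha (h ▸ Finset.mem_insert_self _ _)
        refine ⟨min r' (dist a b / 2), lt_min hr' (by linarith), fun o ho => ?_⟩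
        rcases Finset.mem_insert.1 ho with rfl | ho
        · have := min_le_right r' (dist a o / 2)
          linarith
        · have := min_le_left r' (dist a b / 2)
          have := h3 o ho
          linarith
    obtain ⟨r', hr', h3⟩ := h2
    refine ⟨min r r', lt_min hr hr', ?_⟩
    intro o ho o' ho' x hx hx'
    have hr1 := min_le_left r r'
    have hr2 := min_le_right r r'
    rcases Finset.mem_insert.1 ho with hoa | hos
    · rcases Finset.mem_insert.1 ho' with hoa' | hos'
      · rw [hoa, hoa']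
      · have := h3 o' hos'
        have h4 := dist_triangle_left o o' x
        rw [hoa] at h4 hx
        linarith
    · rcases Finset.mem_insert.1 ho' with hoa' | hos'
      · have := h3 o hos
        have h4 := dist_triangle_left o' o x
        rw [hoa'] at h4 hx'
        linarith
      · exact h1 o hos o' hos' x (by linarith) (by linarith)

theorem FData.exists_lift_near (h : FData A π Λ β θ aa K κ R ρ v) {B : M → E'}
    (hB : ∀ x, π (B x) = β x ∧ ‖B x‖ < R) (O : Finset M) {δ : ℝ} (hδ : 0 < δ) :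
    ∃ ρ' > 0, ∃ B' : M → E', (∀ x, π (B' x) = β x ∧ ‖B' x‖ < R) ∧
      ∀ o ∈ O, ∀ x, dist x o < ρ' → ‖B' x - B o‖ < δ := by
  classical
  choose r hr h1 using fun o => lft_local h hB hδ o
  obtain ⟨r₀, hr₀, h2⟩ := lft_sep O
  obtain ⟨ρ', hρ', h3, h4⟩ : ∃ ρ' > 0, ρ' ≤ r₀ ∧ ∀ o ∈ O, ρ' ≤ r o := by
    clear h2
    induction O using Finset.induction_on with
    | empty => exact ⟨r₀, hr₀, le_rfl, fun o ho => absurd ho (Finset.notMem_empty o)⟩
    | insert a s ha ih =>
      obtain ⟨ρ', hρ', h3, h4⟩ := ih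
      refine ⟨min ρ' (r a), lt_min hρ' (hr a), (min_le_left _ _).trans h3, fun o ho => ?_⟩
      rcases Finset.mem_insert.1 ho with rfl | ho
      · exact min_le_right _ _
      · exact (min_le_left _ _).trans (h4 o ho)
  have h5 : ∀ x : M, ∃ b : E', (π b = β x ∧ ‖b‖ < R) ∧
      ∀ o ∈ O, dist x o < ρ' → ‖b - B o‖ < δ := by
    intro x
    by_cases hx : ∃ o ∈ O, dist x o < ρ'
    · obtain ⟨o, ho, hxo⟩ := hx
      obtain ⟨b, hb1, hb2, hb3⟩ := h1 o x (hxo.trans_le (h4 o ho))
      refine ⟨b, ⟨hb1, hb2⟩, fun o' ho' hxo' => ?_⟩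
      have := h2 o ho o' ho' x (hxo.trans_le h3) (hxo'.trans_le h3)
      rw [← this]
      exact hb3
    · exact ⟨B x, hB x, fun o ho hxo => absurd ⟨o, ho, hxo⟩ hx⟩
  choose B' hB' h6 using h5
  exact ⟨ρ', hρ', B', hB', fun o ho x hx => h6 x o ho hx⟩

end FAN
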