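import Pool.Agent.FAN.Cmp
import Pool.Agent.FAN.Lft
import Pool.Agent.PRH.SymSeq

/-!
# Module Ctl (size 4): control of the fibre coordinate along pseudo-orbits of the base

PROOF. `B : M → E'` with `π (B x) = β x`, `‖B x‖ < R` (`FData.lift`, `choose`). `FData.exists_sets` gives `L`; `L₀ = 2 L + 2 J + 1`.
For a point `z : M` let `x^z i = zi g.toEquiv i z`, `b^z i = B (x^z i)` (`‖b^z i‖ < R`, so `≤ R`); `FData.exists_sets` for `x^z, b^z` gives
`q z, Ch z a, Dh z` (`choose` them as functions of `z`). Put `q s = q (c s)`, `C a s = π '' Ch (c s) a`,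
`D s = π '' Dh (c s)` (if `c s = c s'` these are the same sets).
Now let `t, W, WD` be given. For the compact set `Ch (c (t a)) a` and the open set `π ⁻¹' W a` containing it there is
`ε > 0` such that `‖w - ŵ‖ < ε`, `ŵ ∈ Ch (c (t a)) a` implies `π w ∈ W a` (`IsCompact.exists_thickening_subset_open`);
the same for `Dh (c s)` and `π ⁻¹' WD s`; let `ε₁ > 0` be the minimum over `a : Fin J` and `s : Fin 2` (finite).
`FData.sol_cont` with `R' = 2 * R`, `ε₁`: `W₁, δ`. `FData.exists_lift_near` with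
`O = {zi g.toEquiv j (c s) : |j| ≤ W₁, s : Fin 2}` (a finset image) and `δ`: `ρ₁, B'`. `exists_track`
(Pool/Agent/OmSt2/Shad.lean) with `G = W₁`, `ε = min (δ / 2) (ρ₁ / 2)`, and `exists_pos_of_eventually`: `ρ' > 0`:
(T) if `dist (g (x n)) (x (n + 1)) ≤ ρ'` for all `n` and `dist (x j) z ≤ ρ'`, then
`dist (x (j + i)) (zi g.toEquiv i z) ≤ ε` for `|i| ≤ W₁`.
Let `x, a, n, k` be given. `exists_word_seq` (Pool/Agent/PRH/SymSeq.lean) gives the code `ω ∈ YL L`, periodic, with the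
places of the triggers. `b i = B' (x i)`, `‖b i‖ ≤ R`, periodic. Let `w` be the bounded solution for `cd b ω v`
(`FData.exists_sol`), `y i = π (w i)`. `y (i + 1) = aa (x i, y i)` by `FData.eq` (lift `b i`) and `FData.fib`, `vΛ`.
Periodicity: `FData.sol_periodic`.
Let `j : ℤ`, `s : Fin 2`, `dist (x j) (c s) < ρ'`. The shifted sequences `x (· + j)`, `b (· + j)`, `w (· + j)`,
`ω (· + j)` (`IsSol.shift`; `cd` commutes with the shift) and the solution `w'` for `x^{c s}, b^{c s}` with the code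
`ω (· + j)` (`exists_sol`) satisfy the hypotheses of `sol_cont` (by (T) and `exists_lift_near`:
`dist (x (j+i)) (x^{c s} i) < ρ₁` and `x^{c s} i ∈ O`), so `‖w j - w' 0‖ < ε₁`. If `j = TT n l` (`l < k`) and `s = t (a l)`:
`ω j = true`, `ω (j - (L + a l)) = true`, so `w' 0 ∈ Ch (c s) (a l)` and `y j = π (w j) ∈ W (a l)`. If
`TT n l < j < TT n (l + 1)`: not (`ω j = true` and `ω (j - (L + b)) = true` for some `b`), so `w' 0 ∈ Dh (c s)`,
`y j ∈ WD s`.
-/

set_option autoImplicit false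

open Set Filter Topology Metric OmSt PRH

namespace FAN

variable {E' : Type*} [NormedAddCommGroup E'] [NormedSpace ℝ E'] [FiniteDimensional ℝ E']
  {M N : Type*} [MetricSpace M] [CompactSpace M] [TopologicalSpace N]
  {A : E' ≃L[ℝ] E'} {π : E' → N} {Λ : AddSubgroup E'} {β : M → N} {θ : M × N → E'}
  {aa : M × N → N} {K κ R ρ : ℝ} {v : E'}

/-- The control statement for the compact sets `C`, `D`, the centres `c` and the homeomorphism `g`. -/
def Control (g : M → M) (aa : M × N → N) {J : ℕ} (L₀ : ℕ) (c : Fin 2 → M) (C : Fin J → Fin 2 → Set N)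
    (D : Fin 2 → Set N) : Prop :=
  ∀ (t : Fin J → Fin 2) (W : Fin J → Set N) (WD : Fin 2 → Set N), (∀ a, IsOpen (W a)) →
    (∀ s, IsOpen (WD s)) → (∀ a, C a (t a) ⊆ W a) → (∀ s, D s ⊆ WD s) →
    ∃ ρ' > 0, ∀ (x : ℤ → M) (a : ℕ → Fin J) (n : ℕ → ℕ) (k : ℕ), 0 < k → (∀ i, L₀ ≤ n i) →
      (∀ i, x (i + TT n k) = x i) → (∀ i, dist (g (x i)) (x (i + 1)) < ρ') →
      ∃ y : ℤ → N, (∀ i, y (i + 1) = aa (x i, y i)) ∧ (∀ i, y (i + TT n k) = y i) ∧
        ∀ l < k, (dist (x (TT n l)) (c (t (a l))) < ρ' → y (TT n l) ∈ W (a l)) ∧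
          ∀ j : ℤ, TT n l < j → j < TT n (l + 1) → ∀ s, dist (x j) (c s) < ρ' → y j ∈ WD s

private theorem exists_le_all {ι : Type*} [Finite ι] (f : ι → ℝ) (hf : ∀ i, 0 < f i) :
    ∃ ε > 0, ∀ i, ε ≤ f i := by
  have h : ∀ᶠ ε in 𝓝[>] (0 : ℝ), ∀ i, ε ≤ f i :=
    Filter.eventually_all.2 fun i => eventually_le_pos (hf i)
  exact exists_pos_of_eventually h

omit [NormedSpace ℝ E'] [FiniteDimensional ℝ E'] in
private theorem thick {P : Set E'} {O : Set N} (hπ : Continuous π) (hP : IsCompact P)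
    (hO : IsOpen O) (hsub : π '' P ⊆ O) :
    ∃ ε > 0, ∀ w, ∀ w' ∈ P, ‖w - w'‖ < ε → π w ∈ O := by
  obtain ⟨ε, hε, h1⟩ := hP.exists_thickening_subset_open (hO.preimage hπ) (image_subset_iff.1 hsub)
  refine ⟨ε, hε, fun w w' hw' hd => ?_⟩
  exact h1 (mem_thickening_iff.2 ⟨w', hw', by rwa [dist_eq_norm]⟩)

private theorem YL_shift {L : ℕ} {ω : ℤ → Bool} (hω : ω ∈ YL L) (j : ℤ) :
    (fun i => ω (i + j)) ∈ YL L := by
  intro i i' h1 h2 h3
  have := hω (i + j) (i' + j) h1 h2 (by omega)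
  omega

theorem FData.exists_ctrl (h : FData A π Λ β θ aa K κ R ρ v) (g : M ≃ₜ M) {Uo : N → Set N}
    (hUo : ∀ q, Uo q ∈ 𝓝 q) (J : ℕ) : ∃ L₀ : ℕ, 0 < L₀ ∧ ∀ c : Fin 2 → M,
      ∃ (q : Fin 2 → N) (C : Fin J → Fin 2 → Set N) (D : Fin 2 → Set N),
        (∀ a s, IsCompact (C a s)) ∧ (∀ s, IsCompact (D s)) ∧ (∀ a s, C a s ⊆ Uo (q s)) ∧
        (∀ a b s s', a ≠ b → c s = c s' → Disjoint (C a s) (C b s')) ∧
        (∀ a s, Disjoint (C a s) (D s)) ∧ Control g aa L₀ c C D := by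
  classical
  have : CompleteSpace E' := FiniteDimensional.complete ℝ E'
  obtain ⟨L, hJL, hL1, hL⟩ := h.exists_sets hUo J
  choose B hB using fun x : M => h.lift (β x)
  have hBs : ∀ z : M, ∀ i : ℤ, π (B (zi g.toEquiv i z)) = β (zi g.toEquiv i z) ∧
      ‖B (zi g.toEquiv i z)‖ ≤ R := fun z i => ⟨(hB _).1, (hB _).2.le⟩
  choose q Ch Dh hCh hDh hU hdisj hdisjD hC hD using fun z : M =>
    hL (fun i => zi g.toEquiv i z) (fun i => B (zi g.toEquiv i z)) (hBs z)
  refine ⟨2 * L + 2 * J + 1, by omega, fun c => ⟨fun s => q (c s), fun a s => π '' Ch (c s) a,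
    fun s => π '' Dh (c s), fun a s => (hCh (c s) a).image h.contπ,
    fun s => (hDh (c s)).image h.contπ, fun a s => hU (c s) a, ?_, fun a s => hdisjD (c s) a, ?_⟩⟩
  · intro a b s s' hab hcc
    simp only
    rw [← hcc]
    exact hdisj (c s) a b hab
  intro t W WD hW hWD hCW hDWD
  choose εa hεa hεa' using fun a : Fin J => thick h.contπ (hCh (c (t a)) a) (hW a) (hCW a)
  choose εs hεs hεs' using fun s : Fin 2 => thick h.contπ (hDh (c s)) (hWD s) (hDWD s)
  obtain ⟨e1, he1, he1'⟩ := exists_le_all εa hεa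
  obtain ⟨e2, he2, he2'⟩ := exists_le_all εs hεs
  obtain ⟨W₁, δ, hδ, hsc⟩ := h.sol_cont (R + R) (lt_min he1 he2)
  obtain ⟨ρ₁, hρ₁, B', hB', hB'near⟩ := h.exists_lift_near hB
    ((Finset.Icc (-(W₁ : ℤ)) W₁ ×ˢ (Finset.univ : Finset (Fin 2))).image
      (fun p => zi g.toEquiv p.1 (c p.2))) hδ
  obtain ⟨ρ', hρ', htr⟩ := exists_pos_of_eventually
    (exists_track g W₁ (lt_min (half_pos hδ) (half_pos hρ₁)))
  refine ⟨ρ', hρ', fun x a n k hk hn hper hps => ?_⟩
  obtain ⟨ω, hω, hωper, hωw⟩ := exists_word_seq hJL a n hk (fun i => by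
    have := hn i
    omega)
  have hb : ∀ i, π (B' (x i)) = β (x i) := fun i => (hB' (x i)).1
  have hbR : ∀ i : ℤ, ‖B' (x i)‖ ≤ R := fun i => (hB' (x i)).2.le
  obtain ⟨w, hw1, hw2⟩ := h.exists_sol x (b := cd (fun i => B' (x i)) ω v) (R' := R + R)
    (norm_cd_le hbR h.vR ω)
  have hsol : IsSol A π θ x (cd (fun i => B' (x i)) ω v) w := ⟨⟨_, hw1⟩, hw2⟩
  have key : ∀ (j : ℤ) (s : Fin 2), dist (x j) (c s) < ρ' → ∃ w' : ℤ → E',
      IsSol A π θ (fun i => zi g.toEquiv i (c s))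
        (cd (fun i => B (zi g.toEquiv i (c s))) (fun i => ω (i + j)) v) w' ∧
      ‖w j - w' 0‖ < min e1 e2 := by
    intro j s hj
    have hbc : ∀ i : ℤ, ‖B (zi g.toEquiv i (c s))‖ ≤ R := fun i => (hB _).2.le
    obtain ⟨w', hw'1, hw'2⟩ := h.exists_sol (fun i => zi g.toEquiv i (c s))
      (b := cd (fun i => B (zi g.toEquiv i (c s))) (fun i => ω (i + j)) v) (R' := R + R)
      (norm_cd_le hbc h.vR _)
    refine ⟨w', ⟨⟨_, hw'1⟩, hw'2⟩, ?_⟩
    have h1 := hsc (fun i => x (i + j)) (fun i => zi g.toEquiv i (c s))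
      (fun i => cd (fun i => B' (x i)) ω v (i + j))
      (cd (fun i => B (zi g.toEquiv i (c s))) (fun i => ω (i + j)) v)
      (fun i => w (i + j)) w' (fun i => norm_cd_le hbR h.vR ω (i + j)) (norm_cd_le hbc h.vR _)
      (hsol.shift j) ⟨⟨_, hw'1⟩, hw'2⟩ (fun i hi => ?_)
    · simpa using h1
    · have h2 := htr x j (c s) (fun m _ _ => (hps m).le) hj.le i hi
      rw [add_comm j i] at h2
      have h3 : dist (x (i + j)) (zi g.toEquiv i (c s)) ≤ δ / 2 := h2.trans (min_le_left _ _)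
      have h4 : dist (x (i + j)) (zi g.toEquiv i (c s)) ≤ ρ₁ / 2 := h2.trans (min_le_right _ _)
      refine ⟨by linarith, ?_⟩
      have h5 : cd (fun i => B' (x i)) ω v (i + j) -
          cd (fun i => B (zi g.toEquiv i (c s))) (fun i => ω (i + j)) v i =
          B' (x (i + j)) - B (zi g.toEquiv i (c s)) := by
        unfold cd
        abel
      rw [h5]
      refine hB'near _ (Finset.mem_image.2 ⟨(i, s), ?_, rfl⟩) _ (by linarith)
      rw [Finset.mem_product]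
      refine ⟨Finset.mem_Icc.2 ?_, Finset.mem_univ _⟩
      exact abs_le.1 hi
  refine ⟨fun i => π (w i), fun i => ?_, fun i => ?_, fun l hl => ⟨fun hd => ?_, ?_⟩⟩
  · simp only
    rw [h.eq (x i) (w i) (B' (x i)) (hb i), hw2 i, h.fib]
    have h5 : cd (fun i => B' (x i)) ω v i + A (w i) + θ (x i, π (w i)) -
        (B' (x i) + A (w i) + θ (x i, π (w i))) = if ω i = true then v else 0 := by
      unfold cd
      abel
    rw [h5]
    split_ifs
    · exact h.vΛ
    · exact Λ.zero_mem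
  · simp only
    have h1 := h.sol_periodic (n := ((TT n k : ℕ) : ℤ)) hper (fun i => by
      unfold cd
      simp only
      rw [hper i, hωper i]) hsol i
    rw [h1]
  · obtain ⟨w', hw', hd'⟩ := key (TT n l) (t (a l)) hd
    obtain ⟨h1, h2, h3⟩ := hωw l hl
    have h4 := hC (c (t (a l))) _ (YL_shift hω (TT n l)) w' hw' (by simpa using h1) (a l) (by
      rw [← h2]
      congr 1
      ring)
    exact hεa' (a l) _ _ h4 (hd'.trans_le ((min_le_left _ _).trans (he1' _)))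
  · intro j hj1 hj2 s hd
    obtain ⟨w', hw', hd'⟩ := key j s hd
    obtain ⟨h1, h2, h3⟩ := hωw l hl
    have h4 := hD (c s) _ (YL_shift hω j) w' hw' (by
      intro h5
      refine h3 j hj1 hj2 ⟨by simpa using h5.1, ?_⟩
      obtain ⟨b, hb⟩ := h5.2
      refine ⟨b, ?_⟩
      rw [← hb]
      congr 1
      ring)
    exact hεs' s _ _ h4 (hd'.trans_le ((min_le_right _ _).trans (he2' _)))

end FAN
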