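import Pool.Agent.FAN.Loc3
import Pool.Agent.PRH.FamJ

/-!
# Module FamB (size 4): families with several triggers, localised in the base

PROOF (compare `exists_famJ`, `FamJ_comp`, Pool/Agent/PRH/FamJ.lean). `e a = chartAt E (c (t a))`, with centre `e a (c (t a))`.
For `a : Fin J` apply `exists_localFam3` with `K₁ = C a` and the closed set
`K₂ = D (t a) ∪ ⋃ b ≠ a with c (t b) = c (t a), C b` (disjoint from `C a`): `W₁ a ⊇ C a`, `W₂ a ⊇ K₂`.
`W a = W₁ a ∩ ⋂ b ≠ a with c (t b) = c (t a), W₂ b`, `WD s = ⋂ a with t a = s, W₂ a`.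
Let `ρ₁ > 0`. Choose `r > 0`, `r ≤ ρ₁`, such that `2 r ≤ dist (c 0) (c 1)` if `c 0 ≠ c 1` (so that the balls
`O a = ball (c (t a)) r` and `O b` are disjoint whenever `c (t a) ≠ c (t b)`). `exists_localFam3` with `O a`: `Ψ a, ρ a`.
As in `FamJ_comp`, by induction on a finset `S` of `Fin J` there is `Φ_S : Fam F X (Fin J → E × (E →L[ℝ] E))` (compose
the reparametrised families) such that
(1) `Φ_S v (Θ.symm (p, q)) = Θ.symm (p, q)` if for all `a ∈ S`: `p ∉ O a ∨ q ∈ W₂ a`;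
(2) for `b ∈ S`, if `(Ψ b) (v b) (Θ.symm (p, q)) = Θ.symm (p', q)` and for all `a ∈ S`, `a ≠ b`:
`(p ∉ O a ∧ p' ∉ O a) ∨ q ∈ W₂ a`, then `Φ_S v (Θ.symm (p, q)) = Θ.symm (p', q)`.
(General lemma: replace the hypothesis of `FamJ_comp` by `∀ a v p q, p ∉ O a ∨ q ∈ W₂ a → ...`.)
Take `S = univ`. First conclusion: if `dist p (c s) < ρ₁ → q ∈ WD s` for all `s`, then for every `a`: `p ∉ O a` or
`dist p (c (t a)) < r ≤ ρ₁`, so `q ∈ WD (t a) ⊆ W₂ a`. Second: for `q ∈ W a`, `p = e.symm y ∈ O a`,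
`p' = e.symm (y + ..) ∈ O a`, and `b ≠ a`: if `c (t b) = c (t a)` then `q ∈ W₂ b`; otherwise `O a ∩ O b = ∅`, so
`p, p' ∉ O b`. `ρ` is the minimum of the `ρ a` (and `1`). `IsManifold.chart_mem_maximalAtlas`,
`(chartAt E _).left_inv` for `e.symm (e c) = c`.
-/

set_option autoImplicit false

open Set Filter Topology Manifold ContDiff Metric OmSt PRH
open scoped NNReal

namespace FAN

variable {E : Type*} [NormedAddCommGroup E] [NormedSpace ℝ E] [FiniteDimensional ℝ E]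
  {E' : Type*} [NormedAddCommGroup E'] [NormedSpace ℝ E'] [FiniteDimensional ℝ E']
  {F : Type*} [NormedAddCommGroup F] [NormedSpace ℝ F]
  {M : Type*} [MetricSpace M] [ChartedSpace E M] [IsManifold 𝓘(ℝ, E) ∞ M]
  {N : Type*} [TopologicalSpace N] [T2Space N] [ChartedSpace E' N] [IsManifold 𝓘(ℝ, E') ∞ N]
  {X : Type*} [TopologicalSpace X] [T2Space X] [ChartedSpace F X] [IsManifold 𝓘(ℝ, F) ∞ X]

omit [FiniteDimensional ℝ E] [FiniteDimensional ℝ E'] [IsManifold 𝓘(ℝ, E) ∞ M] [T2Space N]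
  [IsManifold 𝓘(ℝ, E') ∞ N] [T2Space X] [IsManifold 𝓘(ℝ, F) ∞ X] in
private theorem FamB_comp (Θ : Diffeomorph 𝓘(ℝ, F) (𝓘(ℝ, E).prod 𝓘(ℝ, E')) X (M × N) ∞) {J : ℕ}
    (Ψ : Fin J → Fam F X (E × (E →L[ℝ] E))) (O : Fin J → Set M) (W₂ : Fin J → Set N)
    (hfix : ∀ a v, ∀ p : M, ∀ q : N, p ∉ O a ∨ q ∈ W₂ a →
      (Ψ a).toFun v (Θ.symm (p, q)) = Θ.symm (p, q)) (s : Finset (Fin J)) :
    ∃ Φ : Fam F X (Fin J → E × (E →L[ℝ] E)),
      (∀ v, ∀ p : M, ∀ q : N, (∀ a ∈ s, p ∉ O a ∨ q ∈ W₂ a) →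
        Φ.toFun v (Θ.symm (p, q)) = Θ.symm (p, q)) ∧
      (∀ b ∈ s, ∀ v, ∀ p p' : M, ∀ q : N,
        (∀ a ∈ s, a ≠ b → (p ∉ O a ∧ p' ∉ O a) ∨ q ∈ W₂ a) →
        (Ψ b).toFun (v b) (Θ.symm (p, q)) = Θ.symm (p', q) →
        Φ.toFun v (Θ.symm (p, q)) = Θ.symm (p', q)) := by
  classical
  induction s using Finset.induction_on with
  | empty =>
    refine ⟨⟨fun _ => Diffeomorph.refl 𝓘(ℝ, F) X ∞, fun x => rfl, ?_⟩, ?_, ?_⟩
    · exact Eventually.of_forall fun v x => contMDiffAt_snd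
    · intro v p q _
      rfl
    · intro b hb
      exact absurd hb (Finset.notMem_empty b)
  | insert a s ha ih =>
    obtain ⟨Φ, h1, h2⟩ := ih
    let L : (Fin J → E × (E →L[ℝ] E)) →L[ℝ] E × (E →L[ℝ] E) :=
      ContinuousLinearMap.proj (R := ℝ) (φ := fun _ : Fin J => E × (E →L[ℝ] E)) a
    refine ⟨((Ψ a).reparam L).comp Φ, ?_, ?_⟩
    · intro v p q hq
      rw [Fam.comp_apply, h1 v p q (fun c hc => hq c (Finset.mem_insert_of_mem hc)),
        Fam.reparam_apply]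
      exact hfix a _ p q (hq a (Finset.mem_insert_self a s))
    · intro b hb v p p' q hq hpp
      rw [Fam.comp_apply, Fam.reparam_apply]
      rcases Finset.mem_insert.1 hb with rfl | hbs
      · rw [h1 v p q (fun c hc => by
          rcases hq c (Finset.mem_insert_of_mem hc) (by
            rintro rfl
            exact ha hc) with h3 | h3
          · exact Or.inl h3.1
          · exact Or.inr h3)]
        exact hpp
      · rw [h2 b hbs v p p' q (fun c hc hcb => hq c (Finset.mem_insert_of_mem hc) hcb) hpp]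
        rcases hq a (Finset.mem_insert_self a s) (by
          rintro rfl
          exact ha hbs) with h3 | h3
        · exact hfix a _ p' q (Or.inl h3.2)
        · exact hfix a _ p' q (Or.inr h3)

private theorem exists_rad {M : Type*} [MetricSpace M] (c : Fin 2 → M) {ρ₁ : ℝ} (hρ₁ : 0 < ρ₁) :
    ∃ r > 0, r ≤ ρ₁ ∧ ∀ s s' : Fin 2, c s ≠ c s' → ∀ p, dist p (c s) < r → ¬ dist p (c s') < r := by
  by_cases h01 : c 0 = c 1
  · refine ⟨ρ₁, hρ₁, le_rfl, fun s s' hss => ?_⟩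
    exfalso
    apply hss
    fin_cases s <;> fin_cases s' <;> first | rfl | exact h01 | exact h01.symm
  · have hd : 0 < dist (c 0) (c 1) := dist_pos.2 h01
    refine ⟨min ρ₁ (dist (c 0) (c 1) / 2), lt_min hρ₁ (by positivity), min_le_left _ _,
      fun s s' hss p h1 h2 => ?_⟩
    have h3 : dist (c s) (c s') < dist (c 0) (c 1) := by
      have h4 := dist_triangle_left (c s) (c s') p
      have h5 := h1.trans_le (min_le_right _ _)
      have h6 := h2.trans_le (min_le_right _ _)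
      linarith
    have h7 : dist (c s) (c s') = dist (c 0) (c 1) := by
      fin_cases s <;> fin_cases s'
      · exact absurd rfl hss
      · rfl
      · exact dist_comm _ _
      · exact absurd rfl hss
    exact absurd h7 h3.ne

theorem exists_famB (Θ : Diffeomorph 𝓘(ℝ, F) (𝓘(ℝ, E).prod 𝓘(ℝ, E')) X (M × N) ∞)
    (ι : F ≃L[ℝ] E × E') {J : ℕ} (c : Fin 2 → M) (t : Fin J → Fin 2) {q : Fin J → N}
    {C : Fin J → Set N} {D : Fin 2 → Set N} (hC : ∀ a, IsCompact (C a)) (hD : ∀ s, IsCompact (D s))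
    (hCs : ∀ a, C a ⊆ (chartAt E' (q a)).source)
    (hCC : ∀ a b, a ≠ b → c (t a) = c (t b) → Disjoint (C a) (C b))
    (hCD : ∀ a, Disjoint (C a) (D (t a))) :
    ∃ (W : Fin J → Set N) (WD : Fin 2 → Set N), (∀ a, IsOpen (W a)) ∧ (∀ s, IsOpen (WD s)) ∧
      (∀ a, C a ⊆ W a) ∧ (∀ s, D s ⊆ WD s) ∧ ∀ ρ₁ > 0,
      ∃ (Ψ : Fam F X (Fin J → E × (E →L[ℝ] E))) (ρ : ℝ), 0 < ρ ∧
        (∀ v, ∀ p : M, ∀ q : N, (∀ s, dist p (c s) < ρ₁ → q ∈ WD s) →
          Ψ.toFun v (Θ.symm (p, q)) = Θ.symm (p, q)) ∧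
        ∀ᶠ v in 𝓝 (0 : Fin J → E × (E →L[ℝ] E)), ∀ a,
          ∀ y ∈ closedBall (chartAt E (c (t a)) (c (t a))) ρ, ∀ q ∈ W a,
            Ψ.toFun v (Θ.symm ((chartAt E (c (t a))).symm y, q)) =
              Θ.symm ((chartAt E (c (t a))).symm
                (y + ((v a).1 + (v a).2 (y - chartAt E (c (t a)) (c (t a))))), q) := by
  classical
  have hcl : ∀ a : Fin J, IsClosed
      (D (t a) ∪ ⋃ b : {b : Fin J // b ≠ a ∧ c (t b) = c (t a)}, C b.1) := fun a =>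
    (hD (t a)).isClosed.union (isClosed_iUnion_of_finite fun b => (hC b.1).isClosed)
  have hdj : ∀ a : Fin J, Disjoint (C a)
      (D (t a) ∪ ⋃ b : {b : Fin J // b ≠ a ∧ c (t b) = c (t a)}, C b.1) := by
    intro a
    rw [Set.disjoint_union_right]
    refine ⟨hCD a, ?_⟩
    rw [Set.disjoint_iUnion_right]
    intro b
    exact hCC a b.1 b.2.1.symm b.2.2.symm
  have hloc := fun a : Fin J => exists_localFam3 Θ ι
    (IsManifold.chart_mem_maximalAtlas (I := 𝓘(ℝ, E)) (n := ∞) (c (t a)))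
    (mem_chart_target E (c (t a))) (q := q a) (hC a) (hcl a) (hdj a) (hCs a)
  choose W₁ W₂ hW₁ hW₂ hCW₁ hKW₂ hfam using hloc
  refine ⟨fun a => W₁ a ∩ ⋂ b : {b : Fin J // b ≠ a ∧ c (t b) = c (t a)}, W₂ b.1,
    fun s => ⋂ a : {a : Fin J // t a = s}, W₂ a.1, ?_, ?_, ?_, ?_, ?_⟩
  · intro a
    exact (hW₁ a).inter (isOpen_iInter_of_finite fun b => hW₂ b.1)
  · intro s
    exact isOpen_iInter_of_finite fun a => hW₂ a.1
  · intro a x hx
    refine ⟨hCW₁ a hx, ?_⟩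
    rw [Set.mem_iInter]
    intro b
    apply hKW₂ b.1
    right
    rw [Set.mem_iUnion]
    exact ⟨⟨a, b.2.1.symm, b.2.2.symm⟩, hx⟩
  · intro s x hx
    rw [Set.mem_iInter]
    rintro ⟨a, rfl⟩
    exact hKW₂ a (Or.inl hx)
  intro ρ₁ hρ₁
  obtain ⟨r, hr, hrρ, hsep⟩ := exists_rad c hρ₁
  have hO : ∀ a : Fin J, ball (c (t a)) r ∈
      𝓝 ((chartAt E (c (t a))).symm (chartAt E (c (t a)) (c (t a)))) := by
    intro a
    rw [(chartAt E (c (t a))).left_inv (mem_chart_source E (c (t a)))]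
    exact ball_mem_nhds _ hr
  choose Ψ ρ hρ hball hfix hev using fun a => hfam a _ (hO a)
  obtain ⟨Φ, hΦ1, hΦ2⟩ := FamB_comp Θ Ψ (fun a => ball (c (t a)) r) W₂ hfix Finset.univ
  obtain ⟨ρ₀, hρ₀, hρa⟩ : ∃ ρ₀ : ℝ, 0 < ρ₀ ∧ ∀ a, ρ₀ ≤ ρ a := by
    rcases isEmpty_or_nonempty (Fin J) with hJ | hJ
    · exact ⟨1, one_pos, fun a => (hJ.false a).elim⟩
    · obtain ⟨a₀, ha₀⟩ := Finite.exists_min ρ
      exact ⟨ρ a₀, hρ a₀, ha₀⟩
  refine ⟨Φ, ρ₀, hρ₀, ?_, ?_⟩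
  · intro v p q hq
    refine hΦ1 v p q fun a _ => ?_
    by_cases hp : p ∈ ball (c (t a)) r
    · right
      have h1 := hq (t a) ((mem_ball.1 hp).trans_le hrρ)
      rw [Set.mem_iInter] at h1
      exact h1 ⟨a, rfl⟩
    · exact Or.inl hp
  · rw [Filter.eventually_all]
    intro a
    have hpr : Tendsto (fun v : Fin J → E × (E →L[ℝ] E) => v a) (𝓝 0) (𝓝 0) := by
      have := (continuous_apply (A := fun _ : Fin J => E × (E →L[ℝ] E)) a).tendsto 0
      exact this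
    filter_upwards [hpr.eventually (hev a)] with v hv y hy
    obtain ⟨h1, h2, h3, h4⟩ := hv y (closedBall_subset_closedBall (hρa a) hy)
    rintro q ⟨hq1, hq2⟩
    rw [Set.mem_iInter] at hq2
    refine hΦ2 a (Finset.mem_univ a) v _ _ q (fun b _ hb => ?_) (h4 q hq1)
    by_cases hcc : c (t b) = c (t a)
    · exact Or.inr (hq2 ⟨b, hb, hcc⟩)
    · left
      refine ⟨fun h5 => ?_, fun h5 => ?_⟩
      · exact hsep _ _ hcc _ (mem_ball.1 h5) (mem_ball.1 h2)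
      · exact hsep _ _ hcc _ (mem_ball.1 h5) (mem_ball.1 h3)

end FAN
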