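import Pool.Agent.PRH.FixVec

/-!
# Module Fix (size 3): a fixed vector of the base contradicts hyperbolicity (skew version of FixVec)

PROOF (compare `fix_vec`, Pool/Agent/PRH/FixVec.lean). Let `κ = pchart Θ ι e e'`, `x = Θ.symm (p₀, q₀) ∈ κ.source`,
`G x = x`. `exists_chart_conj` gives `L, L'`, `L * L' = 1 = L' * L`, and `T = L * D G x * L'` is the derivative of
`u ↦ κ (G (κ.symm u))` at `κ x`. Let `pr : F →L[ℝ] E`, `pr u = (ι u).1`. By `hloc`, for `u` near `κ x`: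
`pr (κ (G (κ.symm u))) = e ((Θ (G (κ.symm u))).1) = e (H (e.symm (pr u)))`
(`κ.symm u = Θ.symm (e.symm (ι u).1, e'.symm (ι u).2)`, which tends to `(p₀, q₀)`). Both sides are differentiable at `κ x`:
`pr ∘L T = Dv ∘L pr` (uniqueness of the derivative; `pr (κ x) = e p₀`).
`T - 1` is injective: `T u = u` implies `D G x (L' u) = L' u` (as `L' * L = 1`), so `L' u = 0` by `isHyp_fix` and
`u = L (L' u) = 0`. `F` is finite dimensional, so `T - 1` is surjective (`LinearMap.injective_iff_surjective`), hence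
`(Dv - 1) ∘ pr = pr ∘ (T - 1)` is surjective onto `E`, `Dv - 1` is surjective, hence injective (`E` finite dimensional):
`Dv v = v` gives `v = 0`.
-/

set_option autoImplicit false

open Set Filter Topology Manifold ContDiff Metric OmSt PRH

namespace FAN

variable {E : Type*} [NormedAddCommGroup E] [NormedSpace ℝ E] [FiniteDimensional ℝ E]
  {E' : Type*} [NormedAddCommGroup E'] [NormedSpace ℝ E']
  {F : Type*} [NormedAddCommGroup F] [NormedSpace ℝ F] [FiniteDimensional ℝ F]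
  {M : Type*} [TopologicalSpace M] [ChartedSpace E M] [IsManifold 𝓘(ℝ, E) ∞ M]
  {N : Type*} [TopologicalSpace N] [ChartedSpace E' N] [IsManifold 𝓘(ℝ, E') ∞ N]
  {X : Type*} [TopologicalSpace X] [ChartedSpace F X] [IsManifold 𝓘(ℝ, F) ∞ X]

theorem fix_skew (Θ : Diffeomorph 𝓘(ℝ, F) (𝓘(ℝ, E).prod 𝓘(ℝ, E')) X (M × N) ∞)
    (ι : F ≃L[ℝ] E × E') {e : OpenPartialHomeomorph M E}
    (he : e ∈ IsManifold.maximalAtlas 𝓘(ℝ, E) ∞ M) {e' : OpenPartialHomeomorph N E'}
    (he' : e' ∈ IsManifold.maximalAtlas 𝓘(ℝ, E') ∞ N) {p₀ : M} {q₀ : N} (hp : p₀ ∈ e.source)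
    (hq : q₀ ∈ e'.source) {G : X → X}
    (hG : MDifferentiableAt 𝓘(ℝ, F) 𝓘(ℝ, F) G (Θ.symm (p₀, q₀)))
    (hGx : G (Θ.symm (p₀, q₀)) = Θ.symm (p₀, q₀)) {H : M → M}
    (hloc : ∀ᶠ z : M × N in 𝓝 (p₀, q₀), (Θ (G (Θ.symm z))).1 = H z.1) {Dv : E →L[ℝ] E}
    (hD : HasFDerivAt (fun u => e (H (e.symm u))) Dv (e p₀))
    (hhyp : IsHyp (D G (Θ.symm (p₀, q₀)) : F →L[ℝ] F)) {v : E} (hv : Dv v = v) : v = 0 := by
  set κ := pchart Θ ι e e' with hκ
  have hκm : κ ∈ IsManifold.maximalAtlas 𝓘(ℝ, F) ∞ X := pchart_mem_maximalAtlas Θ ι he he'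
  set x := Θ.symm (p₀, q₀) with hx
  have hΘx : Θ x = (p₀, q₀) := Θ.apply_symm_apply _
  have hxs : x ∈ κ.source := by
    rw [hκ, mem_pchart_source, hΘx]
    exact ⟨hp, hq⟩
  obtain ⟨L, L', h1, h2, h3⟩ := exists_chart_conj hκm hxs
  have h4 := h3 G hG hGx
  have hκx : κ x = ι.symm (e p₀, e' q₀) := by rw [hκ, pchart_apply, hΘx]
  rw [hκx] at h4
  set pr : F →L[ℝ] E := (ContinuousLinearMap.fst ℝ E E').comp (ι : F →L[ℝ] E × E') with hpr
  have hprι : ∀ z : E × E', pr (ι.symm z) = z.1 := by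
    intro z
    change (ι (ι.symm z)).1 = z.1
    rw [ι.apply_symm_apply]
  set u₀ : F := ι.symm (e p₀, e' q₀) with hu₀
  set T : F →L[ℝ] F := L * D G x * L' with hT
  have h5 : HasFDerivAt (fun z => pr (κ (G (κ.symm z)))) (pr.comp T) u₀ :=
    pr.hasFDerivAt.comp u₀ h4
  have h6 : (fun z => pr (κ (G (κ.symm z)))) =ᶠ[𝓝 u₀] (fun z => e (H (e.symm (pr z)))) := by
    have hc : Tendsto (fun z => (e.symm (ι z).1, e'.symm (ι z).2)) (𝓝 u₀) (𝓝 (p₀, q₀)) := by
      have ht : Tendsto ι (𝓝 u₀) (𝓝 (e p₀, e' q₀)) := by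
        have h0 := ι.continuous.tendsto u₀
        rwa [hu₀, ι.apply_symm_apply] at h0
      have hc1 : Tendsto e.symm (𝓝 (e p₀)) (𝓝 p₀) := by
        have h0 : Tendsto e.symm (𝓝 (e p₀)) (𝓝 (e.symm (e p₀))) :=
          e.continuousAt_symm (e.map_source hp)
        rwa [e.left_inv hp] at h0
      have hc2 : Tendsto e'.symm (𝓝 (e' q₀)) (𝓝 q₀) := by
        have h0 : Tendsto e'.symm (𝓝 (e' q₀)) (𝓝 (e'.symm (e' q₀))) :=
          e'.continuousAt_symm (e'.map_source hq)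
        rwa [e'.left_inv hq] at h0
      exact (hc1.comp ((continuous_fst.tendsto _).comp ht)).prodMk_nhds
        (hc2.comp ((continuous_snd.tendsto _).comp ht))
    filter_upwards [hc.eventually hloc] with z hz
    rw [hκ, pchart_symm_apply, pchart_apply, hprι]
    simp only
    rw [hz]
    rfl
  have h7 : HasFDerivAt (fun z => e (H (e.symm (pr z)))) (Dv.comp pr) u₀ := by
    have h0 : pr u₀ = e p₀ := hprι _
    have hD' : HasFDerivAt (fun u => e (H (e.symm u))) Dv (pr u₀) := by rwa [h0]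
    exact HasFDerivAt.comp u₀ (g := fun u => e (H (e.symm u))) hD' pr.hasFDerivAt
  have h8 : pr.comp T = Dv.comp pr := (h5.congr_of_eventuallyEq h6.symm).unique h7
  have h8' : ∀ u, pr (T u) = Dv (pr u) := fun u => congrArg (fun S : F →L[ℝ] E => S u) h8
  -- `T - 1` is injective
  have hTinj : ∀ u, T u = u → u = 0 := by
    intro u hu
    have h9 : L ((D G x : F →L[ℝ] F) (L' u)) = u := hu
    have h11 : (D G x : F →L[ℝ] F) (L' u) = L' u := by
      have h0 : (L' * L) ((D G x : F →L[ℝ] F) (L' u)) = (D G x : F →L[ℝ] F) (L' u) := by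
        rw [h2]; rfl
      rw [← h0]
      change L' (L ((D G x : F →L[ℝ] F) (L' u))) = L' u
      rw [h9]
    have h12 : L' u = 0 := isHyp_fix hhyp h11
    have h0 : (L * L') u = u := by rw [h1]; rfl
    rw [← h0]
    change L (L' u) = 0
    rw [h12, map_zero]
  have hinj : Function.Injective ((T - 1 : F →L[ℝ] F) : F →ₗ[ℝ] F) := by
    rw [injective_iff_map_eq_zero]
    intro u hu
    refine hTinj u ?_
    have h0 : T u - u = 0 := hu
    exact sub_eq_zero.1 h0
  have hsurj := LinearMap.injective_iff_surjective.1 hinj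
  have hsurj2 : Function.Surjective ((Dv - 1 : E →L[ℝ] E) : E →ₗ[ℝ] E) := by
    intro y
    obtain ⟨u, hu⟩ := hsurj (ι.symm (y, 0))
    refine ⟨pr u, ?_⟩
    change Dv (pr u) - pr u = y
    have h0 : T u - u = ι.symm (y, 0) := hu
    rw [← h8', ← map_sub, h0, hprι]
  have hinj2 := LinearMap.injective_iff_surjective.2 hsurj2
  apply hinj2
  change Dv v - v = Dv 0 - 0
  rw [hv, map_zero, sub_self, sub_zero]

end FAN
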