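import Pool.Agent.PRH.OrbChain

/-!
# Module Orb (size 3): orbits along a schedule, skew products

Purely topological (compare `orbit_chain`, Pool/Agent/PRH/OrbChain.lean).

`orb_fst`: `φ : M × N → M × N` continuous, and near the points `φ^[i] z₀` (`i < n`) the first coordinate of `φ z` is
`G i z.1`. Then near `z₀` the first coordinate of `φ^[n] z` is `comps G n z.1`. Induction on `n`:
`φ^[n + 1] z = φ (φ^[n] z)` (`Function.iterate_succ_apply'`), `φ^[n]` is continuous at `z₀`.

`orb_skew`: put `φ = Θ ∘ f' ∘ Θ.symm` (continuous), so `φ^[n] z = Θ (f'^[n] (Θ.symm z))`. The points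
`z_i = (P j, y (TT τ j))` for `i = TT τ j` and `z_i = (g^[i'] (α j (P j)), y (TT τ j + i'))` for `i = TT τ j + i'`,
`0 < i' < τ j` form the orbit of `z₀ = (P 0, y 0)`: `φ (P j, y (TT τ j)) = Θ (f (Θ.symm (α j (P j), y (TT τ j))))`
(value of `htrig` at the point) `= (g (α j (P j)), y (TT τ j + 1))` by `hy`, and so on; after the last step of the block
`g^[τ j] (α j (P j)) = P (j + 1)`, `TT τ j + τ j = TT τ (j + 1)`. Near these points the first coordinate of `φ z` is
`g (α j z.1)` (`htrig`, `hf`), resp. `g z.1` (`hfree`, `hf`). One convenient way: induction on `K` as in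
`orbit_chain`; for one block (`segment`) show by induction on `t ≤ τ`, `t ≥ 1`, that near `(P, y₀)`
`(φ^[t] z).1 = g^[t] (α z.1)` and `φ^[t] (P, y₀) = (g^[t] (α P), y_t)`; then compose the blocks
(`φ^[TT τ (K + 1)] = φ^[τ K] ∘ φ^[TT τ K]`, `φ^[TT τ K]` is continuous at `(P 0, y 0)` with the value
`(P K, y (TT τ K))`). The continuity of `comps` at `P 0`: as in `orbit_chain`.
-/

set_option autoImplicit false

open Set Filter Topology PRH

namespace FAN

variable {M N X : Type*} [TopologicalSpace M] [TopologicalSpace N] [TopologicalSpace X]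

theorem orb_fst {φ : M × N → M × N} (hφ : Continuous φ) {G : ℕ → M → M} {z₀ : M × N} (n : ℕ)
    (h : ∀ i < n, ∀ᶠ z in 𝓝 (φ^[i] z₀), (φ z).1 = G i z.1) :
    ∀ᶠ z in 𝓝 z₀, (φ^[n] z).1 = comps G n z.1 := by
  induction n with
  | zero => exact Eventually.of_forall fun z => rfl
  | succ n ih =>
    have h1 := ih fun i hi => h i (Nat.lt_succ_of_lt hi)
    have h2 := (hφ.iterate n).continuousAt.eventually (h n (Nat.lt_succ_self n))
    filter_upwards [h1, h2] with z hz1 hz2
    rw [Function.iterate_succ_apply', hz2, hz1]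
    rfl

theorem orb_skew (Θ : X ≃ₜ M × N) {g : M → M} (hg : Continuous g) {f f' : X → X}
    (hf' : Continuous f') (hf : ∀ z : M × N, (Θ (f (Θ.symm z))).1 = g z.1) {α : ℕ → M → M}
    {P : ℕ → M} {y : ℕ → N} {τ : ℕ → ℕ} {K : ℕ} (hτ : ∀ j < K, 0 < τ j)
    (hα : ∀ j < K, ContinuousAt (α j) (P j)) (hP : ∀ j < K, g^[τ j] (α j (P j)) = P (j + 1))
    (htrig : ∀ j < K, ∀ᶠ z : M × N in 𝓝 (P j, y (TT τ j)),
      f' (Θ.symm z) = f (Θ.symm (α j z.1, z.2)))
    (hfree : ∀ j < K, ∀ i, 0 < i → i < τ j →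
      ∀ᶠ z : M × N in 𝓝 (g^[i] (α j (P j)), y (TT τ j + i)), f' (Θ.symm z) = f (Θ.symm z))
    (hy : ∀ j < K, ∀ i < τ j, f (Θ.symm (g^[i] (α j (P j)), y (TT τ j + i))) =
      Θ.symm (g^[i + 1] (α j (P j)), y (TT τ j + i + 1))) :
    ContinuousAt (comps (fun j => g^[τ j] ∘ α j) K) (P 0) ∧
    comps (fun j => g^[τ j] ∘ α j) K (P 0) = P K ∧
    f'^[TT τ K] (Θ.symm (P 0, y 0)) = Θ.symm (P K, y (TT τ K)) ∧
    ∀ᶠ z : M × N in 𝓝 (P 0, y 0), (Θ (f'^[TT τ K] (Θ.symm z))).1 =
      comps (fun j => g^[τ j] ∘ α j) K z.1 := by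
  induction K with
  | zero =>
    refine ⟨continuousAt_id, rfl, ?_, ?_⟩
    · have h0 : TT τ 0 = 0 := by simp [TT]
      rw [h0]
      rfl
    · have h0 : TT τ 0 = 0 := by simp [TT]
      rw [h0]
      refine Eventually.of_forall fun z => ?_
      change (Θ (Θ.symm z)).1 = z.1
      rw [Θ.apply_symm_apply]
  | succ K ih =>
    obtain ⟨i1, i2, i3, i4⟩ := ih (fun j hj => hτ j (Nat.lt_succ_of_lt hj))
      (fun j hj => hα j (Nat.lt_succ_of_lt hj)) (fun j hj => hP j (Nat.lt_succ_of_lt hj))
      (fun j hj => htrig j (Nat.lt_succ_of_lt hj)) (fun j hj => hfree j (Nat.lt_succ_of_lt hj))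
      (fun j hj => hy j (Nat.lt_succ_of_lt hj))
    have hT : TT τ (K + 1) = TT τ K + τ K := by simp [TT, Finset.sum_range_succ]
    have hKK := Nat.lt_succ_self K
    -- one block
    have hblock : ∀ t, t < τ K → (f'^[t + 1] (Θ.symm (P K, y (TT τ K))) =
        Θ.symm (g^[t + 1] (α K (P K)), y (TT τ K + (t + 1)))) ∧
        ∀ᶠ z : M × N in 𝓝 (P K, y (TT τ K)), (Θ (f'^[t + 1] (Θ.symm z))).1 =
          g^[t + 1] (α K z.1) := by
      intro t
      induction t with
      | zero =>
        intro ht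
        have h1 := htrig K hKK
        have h2 := h1.self_of_nhds
        refine ⟨?_, ?_⟩
        · change f' (Θ.symm (P K, y (TT τ K))) = _
          rw [h2]
          exact hy K hKK 0 ht
        · filter_upwards [h1] with z hz
          change (Θ (f' (Θ.symm z))).1 = g (α K z.1)
          rw [hz, hf]
      | succ t iht =>
        intro ht
        obtain ⟨j1, j2⟩ := iht (by omega)
        have h1 := hfree K hKK (t + 1) (Nat.succ_pos t) ht
        have h2 := h1.self_of_nhds
        refine ⟨?_, ?_⟩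
        · rw [Function.iterate_succ_apply', j1, h2]
          exact hy K hKK (t + 1) ht
        · have hc : Tendsto (fun z : M × N => Θ (f'^[t + 1] (Θ.symm z)))
              (𝓝 (P K, y (TT τ K))) (𝓝 (g^[t + 1] (α K (P K)), y (TT τ K + (t + 1)))) := by
            have h3 : Continuous (fun z : M × N => Θ (f'^[t + 1] (Θ.symm z))) :=
              Θ.continuous.comp ((hf'.iterate _).comp Θ.symm.continuous)
            have h4 := h3.tendsto (P K, y (TT τ K))
            rw [j1, Θ.apply_symm_apply] at h4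
            exact h4
          filter_upwards [j2, hc.eventually h1] with z hz1 hz2
          rw [Θ.symm_apply_apply] at hz2
          rw [Function.iterate_succ_apply', hz2]
          have h5 := hf (Θ (f'^[t + 1] (Θ.symm z)))
          rw [Θ.symm_apply_apply] at h5
          rw [h5, hz1]
          exact (Function.iterate_succ_apply' g (t + 1) _).symm
    obtain ⟨t, ht⟩ := Nat.exists_eq_succ_of_ne_zero (hτ K hKK).ne'
    have hb := hblock t (by omega)
    rw [Nat.succ_eq_add_one] at ht
    rw [← ht] at hb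
    obtain ⟨b1, b2⟩ := hb
    have hα' : ContinuousAt (α K) (comps (fun j => g^[τ j] ∘ α j) K (P 0)) := by
      rw [i2]; exact hα K hKK
    refine ⟨?_, ?_, ?_, ?_⟩
    · have : ContinuousAt (g^[τ K] ∘ α K) (comps (fun j => g^[τ j] ∘ α j) K (P 0)) :=
        ContinuousAt.comp (hg.iterate (τ K)).continuousAt hα'
      exact ContinuousAt.comp this i1
    · change g^[τ K] (α K (comps (fun j => g^[τ j] ∘ α j) K (P 0))) = P (K + 1)
      rw [i2]
      exact hP K hKK
    · rw [hT, Nat.add_comm (TT τ K), Function.iterate_add_apply, i3, b1, hP K hKK,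
        Nat.add_comm (τ K)]
    · have hc : Tendsto (fun z : M × N => Θ (f'^[TT τ K] (Θ.symm z)))
          (𝓝 (P 0, y 0)) (𝓝 (P K, y (TT τ K))) := by
        have h3 : Continuous (fun z : M × N => Θ (f'^[TT τ K] (Θ.symm z))) :=
          Θ.continuous.comp ((hf'.iterate _).comp Θ.symm.continuous)
        have h4 := h3.tendsto (P 0, y 0)
        rw [i3, Θ.apply_symm_apply] at h4
        exact h4
      filter_upwards [i4, hc.eventually b2] with z hz1 hz2
      rw [Θ.symm_apply_apply, hz1] at hz2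
      rw [hT, Nat.add_comm (TT τ K), Function.iterate_add_apply, hz2]
      rfl

end FAN
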