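import Pool.Agent.PRH.SymSeq

/-!
# Module Pso (size 2): the periodic pseudo-orbit of a sequence of segments

PROOF. `T l = TT ν l`, `n = TT ν k > 0`. For `i : ℤ` let `i' = (i % n).toNat < n` and let `l` be the unique number
`l < k` with `T l ≤ i' < T (l + 1)` (`Nat.findGreatest`, or `∃ l < k, ..` by induction on `k`, then `choose`); put
`x i = g^[i' - T l] (V l)`. (A convenient way: first define `z : ℕ → M` on `[0, n)` by such a choice, using that for
`j < n` there are `l < k`, `i < ν l` with `j = T l + i`, unique.) Periodicity: `(i + n) % n = i % n`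
(`Int.add_emod_right`). For `l < k`, `i < ν l`: `T l + i < n`, so `x (T l + i) = g^[i] (V l)`. Last statement: let
`i' = T l + j`, `j < ν l`; if `j + 1 < ν l` then `(i + 1) % n = i' + 1` and `x (i + 1) = g (x i)`; if `j + 1 = ν l` then
`g (x i) = g^[ν l] (V l)` and `x (i + 1) = V (l + 1)` if `l + 1 < k`, `x (i + 1) = V 0` if `l + 1 = k` (then
`(i + 1) % n = 0`); in both cases the index is `(l + 1) % k`.
-/

set_option autoImplicit false

open Set Filter Topology PRH

namespace FAN

theorem exists_pso {M : Type*} (g : M → M) (ν : ℕ → ℕ) (V : ℕ → M) {k : ℕ} (hk : 0 < k)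
    (hν : ∀ i, 0 < ν i) : ∃ x : ℤ → M, (∀ i, x (i + TT ν k) = x i) ∧
      (∀ l < k, ∀ i < ν l, x ((TT ν l : ℤ) + i) = g^[i] (V l)) ∧
      ∀ i : ℤ, g (x i) = x (i + 1) ∨
        ∃ l < k, g (x i) = g^[ν l] (V l) ∧ x (i + 1) = V ((l + 1) % k) := by
  classical
  set z : ℕ → M := fun j => g^[j - TT ν (Nat.findGreatest (fun l => TT ν l ≤ j) (k - 1))]
    (V (Nat.findGreatest (fun l => TT ν l ≤ j) (k - 1))) with hz
  have hT0 : TT ν 0 = 0 := by simp [TT]
  have hTle : ∀ {l : ℕ}, l < k → TT ν l + ν l ≤ TT ν k := by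
    intro l hl
    rw [← SymSeq_succ]
    exact SymSeq_mono ν hl
  have hz1 : ∀ l < k, ∀ i < ν l, z (TT ν l + i) = g^[i] (V l) := by
    intro l hl i hi
    have h1 : Nat.findGreatest (fun l' => TT ν l' ≤ TT ν l + i) (k - 1) = l := by
      rw [Nat.findGreatest_eq_iff]
      refine ⟨by omega, fun _ => by omega, fun l' hl' _ => ?_⟩
      have h2 : TT ν (l + 1) ≤ TT ν l' := SymSeq_mono ν hl'
      rw [SymSeq_succ] at h2
      omega
    rw [hz]
    simp only
    rw [h1, Nat.add_sub_cancel_left]
  have hn : 0 < TT ν k := by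
    have := hTle hk
    have := hν 0
    omega
  have hdec : ∀ r < TT ν k, ∃ l < k, ∃ j < ν l, r = TT ν l + j := by
    intro r hr
    set l := Nat.findGreatest (fun l => TT ν l ≤ r) (k - 1) with hl
    have h1 : l ≤ k - 1 := Nat.findGreatest_le _
    have h2 : TT ν l ≤ r := Nat.findGreatest_spec (P := fun l => TT ν l ≤ r) (m := 0)
      (Nat.zero_le _) (by rw [hT0]; exact Nat.zero_le _)
    have h3 : r < TT ν (l + 1) := by
      by_contra h4
      rw [not_lt] at h4
      by_cases h5 : l + 1 ≤ k - 1
      · have h6 : l + 1 ≤ l := Nat.le_findGreatest h5 h4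
        omega
      · have h6 : l + 1 = k := by omega
        rw [h6] at h4
        omega
    rw [SymSeq_succ] at h3
    exact ⟨l, by omega, r - TT ν l, by omega, by omega⟩
  set x : ℤ → M := fun i => z (i % (TT ν k : ℤ)).toNat with hx
  have hxq : ∀ (q : ℤ) (s : ℕ), s < TT ν k → x (q * TT ν k + s) = z s := by
    intro q s hs
    rw [hx]
    simp only
    have h1 : (q * (TT ν k : ℤ) + s) % (TT ν k : ℤ) = s := by
      rw [add_comm, Int.add_mul_emod_self_right]
      exact Int.emod_eq_of_lt (by omega) (by exact_mod_cast hs)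
    rw [h1, Int.toNat_natCast]
  refine ⟨x, fun i => ?_, fun l hl i hi => ?_, fun i => ?_⟩
  · rw [hx]
    simp only
    rw [Int.add_emod_right]
  · have h1 := hxq 0 (TT ν l + i) (by have := hTle hl; omega)
    rw [hz1 l hl i hi, zero_mul, zero_add] at h1
    rw [← h1]
    push_cast
    rfl
  · set q := i / (TT ν k : ℤ) with hq
    obtain ⟨r, hr⟩ : ∃ r : ℕ, (r : ℤ) = i % (TT ν k : ℤ) :=
      ⟨(i % (TT ν k : ℤ)).toNat, Int.toNat_of_nonneg (Int.emod_nonneg _ (by omega))⟩
    have hrn : r < TT ν k := by
      have := Int.emod_lt_of_pos i (b := (TT ν k : ℤ)) (by exact_mod_cast hn)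
      omega
    have hi : i = q * TT ν k + r := by
      rw [hr, hq, mul_comm]
      exact (Int.mul_ediv_add_emod i _).symm
    obtain ⟨l, hl, j, hj, hlj⟩ := hdec r hrn
    have hxi : x i = g^[j] (V l) := by
      rw [hi, hxq q r hrn, hlj, hz1 l hl j hj]
    by_cases hj1 : j + 1 < ν l
    · left
      have h1 : i + 1 = q * TT ν k + ((r + 1 : ℕ) : ℤ) := by
        rw [hi]
        push_cast
        ring
      have h2 : r + 1 < TT ν k := by
        have := hTle hl
        omega
      rw [h1, hxq q _ h2, hlj, add_assoc, hz1 l hl _ hj1, hxi, Function.iterate_succ_apply']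
    · right
      have hjl : j + 1 = ν l := by omega
      refine ⟨l, hl, ?_, ?_⟩
      · rw [hxi, ← hjl, Function.iterate_succ_apply']
      · by_cases hlk : l + 1 < k
        · have h1 : i + 1 = q * TT ν k + ((r + 1 : ℕ) : ℤ) := by
            rw [hi]
            push_cast
            ring
          have h3 : r + 1 = TT ν (l + 1) + 0 := by
            rw [SymSeq_succ]
            omega
          have h2 : r + 1 < TT ν k := by
            have := hTle hlk
            have := hν (l + 1)
            omega
          rw [h1, hxq q _ h2, h3, hz1 _ hlk 0 (hν _), Nat.mod_eq_of_lt hlk]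
          rfl
        · have hlk' : l + 1 = k := by omega
          have h3 : r + 1 = TT ν k := by
            rw [← hlk', SymSeq_succ]
            omega
          have h1 : i + 1 = (q + 1) * TT ν k + ((0 : ℕ) : ℤ) := by
            have : (TT ν k : ℤ) = r + 1 := by exact_mod_cast h3.symm
            rw [hi, add_mul, one_mul, this]
            push_cast
            ring
          rw [h1, hxq (q + 1) 0 hn, hlk', Nat.mod_self]
          have h4 := hz1 0 hk 0 (hν 0)
          rw [hT0, Nat.zero_add] at h4
          rw [h4]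
          rfl

end FAN
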