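import Pool.Agent.PRH.AffStep
import Pool.Agent.PRH.ChainDeriv
import Pool.Agent.FAN.Ctl
import Pool.Agent.FAN.FamB
import Pool.Agent.FAN.Orb
import Pool.Agent.FAN.Fix
import Pool.Agent.FAN.Pso

/-!
# Module Core (size 4): the core of the perturbation argument (skew version of StarCore)

PROOF: follow `star_core` (Pool/Agent/PRH/StarCore.lean, 120 lines) with the changes below; there `iter g m`
becomes `g` (`m = 1`; `zi_nat`, `lcoc_X g hr γ`).

1. `exists_famB` with `q a = q (t a)`, `C a = C a (t a)`: `W, WD`. `Control` (`hctl`) for `t, W, WD` gives `ρ'`.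
`exists_famB` continued with `ρ₁ = ρ' / 2`: `Ψ, ρ`. By `Fam.eventually_mem` there is `δ > 0` such that for `‖v‖ < δ`
`pert f (Ψ.toFun v) ∈ 𝒩` and the affine formulas hold.
2. `norm_prm_lt` with `δ`, `ρ`: `ε'` (the chart values of `P j` are in the OPEN ball of radius `ρ`, as in `star_core`); `ε = min ε' (ρ' / 2)`.
3. Let `V, n, ℓ, K, a, w` be given; `p b, v b, f', P j, α j, ν j = n (t (a j)) (t (a (j + 1)))` as in `star_core`
(`p b = g^[n (ℓ b).1 (t b)] (V (ℓ b).1)`). `exists_pso` with `V l = V (t (a l))`, `ν`, `k = K + 1`: the periodic sequence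
`x : ℤ → M`; `dist (g (x i)) (x (i + 1)) < ρ'`: it is `0`, or the distance of `g^[ν l] (V (t (a l))) = P (l + 1)` (for
`l ≤ K`, by `ha`) and `V (t (a ((l + 1) % (K + 1))))`, both of which are `ε`-close to `c (t (a (l + 1)))` (for `l = K` use
`a (K + 1) = a 0`), so `< 2 ε ≤ ρ'`.
`hctl` gives `y : ℤ → N`; use `fun i : ℕ => y i`.
4. `orb_skew` with `Θ.toHomeomorph`, `f`, `f'`, `K + 1`. `htrig j`: `x (TT ν j) = V (t (a j))` is `ρ'`-close to
`c (t (a j))`, so `y (TT ν j) ∈ W (a j)`; near `(P j, y (TT ν j))` the second coordinate is in the open set `W (a j)` and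
the first one in the chart domain, with chart value in the ball of radius `ρ`, so
`Ψ v (Θ.symm z) = Θ.symm (α j z.1, z.2)`, and `f' = f ∘ Ψ v` (`pert_apply`). `hfree j i`: the point is
`(x (TT ν j + i), y (TT ν j + i))`; for every `s`: either `dist (x ..) (c s) < ρ'`, then `y .. ∈ WD s` and near the point the
second coordinate is in `WD s`; or `dist (x ..) (c s) ≥ ρ' > ρ' / 2` and near the point the first coordinate has distance
`> ρ' / 2` from `c s`. So near the point (`s : Fin 2`: finitely many conditions) `Ψ v (Θ.symm z) = Θ.symm z` and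
`f' (Θ.symm z) = f (Θ.symm z)`. `hy`: `f (Θ.symm (p, q)) = Θ.symm (g p, aa (p, q))` (from `hf`) and `y (i + 1) = aa (x i, y i)`.
5. With `n₁ = TT ν (K + 1) > 0`: `y n₁ = y 0`, `P (K + 1) = P 0`, so `f'^[n₁]` fixes `Θ.symm (P 0, y 0)`; `Stab.isHyp`;
`chain_deriv` exactly as in `star_core`; `fix_skew` with `e' = chartAt E' (y 0)` (`mem_chart_source`): `w = 0`.
-/

set_option autoImplicit false

open Set Filter Topology Manifold ContDiff Metric OmSt PRH

namespace FAN

variable {E : Type*} [NormedAddCommGroup E] [NormedSpace ℝ E] [FiniteDimensional ℝ E]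
  {E' : Type*} [NormedAddCommGroup E'] [NormedSpace ℝ E'] [FiniteDimensional ℝ E']
  {F : Type*} [NormedAddCommGroup F] [NormedSpace ℝ F] [FiniteDimensional ℝ F]
  {M : Type*} [MetricSpace M] [CompactSpace M] [ChartedSpace E M] [IsManifold 𝓘(ℝ, E) ∞ M]
  {N : Type*} [TopologicalSpace N] [T2Space N] [ChartedSpace E' N] [IsManifold 𝓘(ℝ, E') ∞ N]
  {X : Type*} [TopologicalSpace X] [T2Space X] [CompactSpace X] [ChartedSpace F X]
  [IsManifold 𝓘(ℝ, F) ∞ X] {r : ℕ∞}

theorem skew_core (hr : 1 ≤ r) (Θ : Diffeomorph 𝓘(ℝ, F) (𝓘(ℝ, E).prod 𝓘(ℝ, E')) X (M × N) ∞)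
    (ι : F ≃L[ℝ] E × E') {g : Dyn E M r} {f : Dyn F X r} {aa : M × N → N}
    (hf : ∀ z : M × N, Θ (f (Θ.symm z)) = (g z.1, aa z)) {𝒩 : Set (Dyn F X r)} (h𝒩 : Stab 𝒩)
    (hf𝒩 : f ∈ 𝒩) (γ : RMetric E M) {J L₀ : ℕ} (hL₀ : 0 < L₀) (c : Fin 2 → M)
    {q : Fin 2 → N} {C : Fin J → Fin 2 → Set N} {D : Fin 2 → Set N}
    (hC : ∀ a s, IsCompact (C a s)) (hD : ∀ s, IsCompact (D s))
    (hCs : ∀ a s, C a s ⊆ (chartAt E' (q s)).source)
    (hCC : ∀ a b s s', a ≠ b → c s = c s' → Disjoint (C a s) (C b s'))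
    (hCD : ∀ a s, Disjoint (C a s) (D s)) (hctl : Control g aa L₀ c C D) (t : Fin J → Fin 2) :
    ∃ ε > 0, ∀ (V : Fin 2 → M) (n : Fin 2 → Fin 2 → ℕ), (∀ i, dist (V i) (c i) < ε) →
      (∀ i j, L₀ ≤ n i j ∧ dist (zi g.toEquiv (n i j) (V i)) (c j) < ε) →
      ∀ ℓ : Fin J → Letter E, (∀ b, (ℓ b).2.1 = t b) → (∀ b, ‖(ℓ b).2.2‖ < ε) →
      ∀ (K : ℕ) (a : ℕ → Fin J), (∀ j ≤ K, (ℓ (a (j + 1))).1 = (ℓ (a j)).2.1) →
        a (K + 1) = a 0 → ∀ w : E,
        prods (fun j => (lcoc g hr γ).X c V n (ℓ (a j)).2.1 (ℓ (a (j + 1))).2.1 *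
          (1 + (ℓ (a j)).2.2)) (K + 1) w = w → w = 0 := by
  classical
  obtain ⟨W, WD, hWo, hWDo, hCW, hDWD, hfam⟩ := exists_famB Θ ι c t (q := fun a => q (t a))
    (C := fun a => C a (t a)) (D := D) (fun a => hC a (t a)) hD (fun a => hCs a (t a))
    (fun a b hab hcc => hCC a b (t a) (t b) hab hcc) (fun a => hCD a (t a))
  obtain ⟨ρ', hρ', hct⟩ := hctl t W WD hWo hWDo hCW hDWD
  obtain ⟨Ψ, ρ, hρ, hΨD, hΨev⟩ := hfam (ρ' / 2) (half_pos hρ')
  have hev := (Ψ.eventually_mem f h𝒩.isOpen hf𝒩).and hΨev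
  obtain ⟨δ, hδ, hδs⟩ := Metric.eventually_nhds_iff.1 hev
  obtain ⟨ε₀, hε₀, hε1, hε2⟩ := norm_prm_lt (E := E) c hδ hρ
  refine ⟨min ε₀ (ρ' / 2), lt_min hε₀ (half_pos hρ'),
    fun V n hV hn ℓ hℓt hℓε K a ha haK w hw => ?_⟩
  simp only [hℓt] at hw ha
  have hzi : ∀ (k : ℕ) (x : M), zi g.toEquiv k x = g^[k] x := fun k x => zi_nat _ _ _
  have hl0 : min ε₀ (ρ' / 2) ≤ ε₀ := min_le_left _ _
  have hl1 : min ε₀ (ρ' / 2) ≤ ρ' / 2 := min_le_right _ _
  -- the points of arrival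
  set p : Fin J → M := fun b => g^[n (ℓ b).1 (t b)] (V (ℓ b).1) with hpdef
  have hp : ∀ b, dist (p b) (c (t b)) < min ε₀ (ρ' / 2) := by
    intro b
    have h1 := (hn (ℓ b).1 (t b)).2
    rwa [hzi] at h1
  set v : Fin J → E × (E →L[ℝ] E) := fun b => prm (c (t b)) (V (t b)) (p b) (ℓ b).2.2 with hvdef
  have hvδ : ‖v‖ < δ :=
    (pi_norm_lt_iff hδ).2 fun b => hε2 (t b) _ _ _ ((hV _).trans_le hl0) ((hp b).trans_le hl0)
      ((hℓε b).trans_le hl0)
  obtain ⟨hf'𝒩, hΨv⟩ := hδs (y := v) (by rwa [dist_zero_right])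
  set f' : Dyn F X r := pert f (Ψ.toFun v) with hf'
  have hfΘ : ∀ z : M × N, f (Θ.symm z) = Θ.symm (g z.1, aa z) := by
    intro z
    rw [← hf z, Θ.symm_apply_apply]
  have hVs : ∀ i, V i ∈ (chartAt E (c i)).source := fun i => (hε1 i _ ((hV i).trans_le hl0)).1
  have hps : ∀ b, p b ∈ (chartAt E (c (t b))).source :=
    fun b => (hε1 _ _ ((hp b).trans_le hl0)).1
  -- the schedule
  set ν : ℕ → ℕ := fun j => n (t (a j)) (t (a (j + 1))) with hν
  have hν0 : ∀ j, 0 < ν j := fun j => lt_of_lt_of_le hL₀ (hn _ _).1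
  set P : ℕ → M := fun j => p (a j) with hPdef
  have hPV : ∀ j < K + 1, g^[ν j] (V (t (a j))) = P (j + 1) := by
    intro j hj
    simp only [hPdef, hpdef, hν]
    rw [ha j (by omega)]
  obtain ⟨x, hxper, hxseg, hxstep⟩ := exists_pso (g : M → M) ν (fun l => V (t (a l)))
    (Nat.succ_pos K) hν0
  have hxdist : ∀ i, dist (g (x i)) (x (i + 1)) < ρ' := by
    intro i
    rcases hxstep i with h1 | ⟨l, hl, h1, h2⟩
    · rw [h1, dist_self]
      exact hρ'
    · have e1 : a ((l + 1) % (K + 1)) = a (l + 1) := by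
        rcases Nat.lt_or_ge (l + 1) (K + 1) with h3 | h3
        · rw [Nat.mod_eq_of_lt h3]
        · have h4 : l + 1 = K + 1 := by omega
          rw [h4, Nat.mod_self, haK]
      have h5 : g^[ν l] (V (t (a l))) = P (l + 1) := hPV l hl
      have h6 := hp (a (l + 1))
      have h7 := hV (t (a (l + 1)))
      rw [h1, h2, h5, e1]
      calc dist (P (l + 1)) (V (t (a (l + 1)))) ≤ dist (P (l + 1)) (c (t (a (l + 1)))) +
            dist (V (t (a (l + 1)))) (c (t (a (l + 1)))) := dist_triangle_right _ _ _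
        _ < ρ' := by linarith
  obtain ⟨y, hy1, hy2, hy3⟩ := hct x a ν (K + 1) (Nat.succ_pos K) (fun i => (hn _ _).1)
    hxper hxdist
  have hxs : ∀ j < K + 1, ∀ i < ν j, x ((TT ν j + i : ℕ) : ℤ) = g^[i] (V (t (a j))) := by
    intro j hj i hi
    have h1 := hxseg j hj i hi
    push_cast
    exact h1
  set α : ℕ → M → M := fun j => alf (c (t (a j))) (v (a j)) with hα
  have hαP : ∀ j, α j (P j) = V (t (a j)) := fun j => alf_prm _ _ (hVs _)
  have hPs : ∀ j < K + 1, g^[ν j] (α j (P j)) = P (j + 1) := by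
    intro j hj
    rw [hαP]
    exact hPV j hj
  have hαc : ∀ j, ContinuousAt (α j) (P j) := fun j => alf_cont _ (hVs _) (hps _)
  have hyW : ∀ j < K + 1, y (TT ν j : ℤ) ∈ W (a j) := by
    intro j hj
    apply (hy3 j hj).1
    have h1 := hxs j hj 0 (hν0 j)
    rw [Nat.add_zero] at h1
    rw [h1]
    change dist (V (t (a j))) (c (t (a j))) < ρ'
    have h2 := hV (t (a j))
    linarith
  have horb := orb_skew Θ.toHomeomorph (g := g) g.continuous (f := f) (f' := f') f'.continuous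
    (fun z => by
      change (Θ (f (Θ.symm z))).1 = g z.1
      rw [hf z]) (α := α) (P := P) (y := fun i : ℕ => y i) (τ := ν) (K := K + 1)
    (fun j _ => hν0 j) (fun j _ => hαc j) hPs (fun j hj => by
      have h1 := hyW j hj
      have h2 := hε1 (t (a j)) (P j) ((hp (a j)).trans_le hl0)
      have h3 : ∀ᶠ z : M × N in 𝓝 (P j, y (TT ν j : ℤ)),
          z.1 ∈ (chartAt E (c (t (a j)))).source :=
        continuousAt_fst.eventually ((chartAt E (c (t (a j)))).open_source.mem_nhds h2.1)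
      have h4 : ∀ᶠ z : M × N in 𝓝 (P j, y (TT ν j : ℤ)), chartAt E (c (t (a j))) z.1 ∈
          ball (chartAt E (c (t (a j))) (c (t (a j)))) ρ :=
        (ContinuousAt.comp (x := (P j, y (TT ν j : ℤ)))
          ((chartAt E (c (t (a j)))).continuousAt h2.1) continuousAt_fst).eventually
          (isOpen_ball.mem_nhds h2.2)
      have h5 : ∀ᶠ z : M × N in 𝓝 (P j, y (TT ν j : ℤ)), z.2 ∈ W (a j) :=
        continuousAt_snd.eventually ((hWo (a j)).mem_nhds h1)
      filter_upwards [h3, h4, h5] with z hz3 hz4 hz5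
      change f' (Θ.symm z) = f (Θ.symm (α j z.1, z.2))
      have h6 := hΨv (a j) _ (ball_subset_closedBall hz4) z.2 hz5
      rw [(chartAt E (c (t (a j)))).left_inv hz3] at h6
      have h7 : Ψ.toFun v (Θ.symm z) = Θ.symm (α j z.1, z.2) := h6
      rw [hf', pert_apply, h7]) (fun j hj i hi hi' => by
      have hx1 : x ((TT ν j + i : ℕ) : ℤ) = g^[i] (α j (P j)) := by
        rw [hαP]
        exact hxs j hj i hi'
      have hTs : TT ν (j + 1) = TT ν j + ν j := by simp [TT, Finset.sum_range_succ]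
      have h1 : ∀ᶠ z : M × N in 𝓝 (g^[i] (α j (P j)), y ((TT ν j + i : ℕ) : ℤ)),
          ∀ s, dist z.1 (c s) < ρ' / 2 → z.2 ∈ WD s := by
        refine Filter.eventually_all.2 fun s => ?_
        by_cases hs : dist (g^[i] (α j (P j))) (c s) < ρ'
        · have h2 : y ((TT ν j + i : ℕ) : ℤ) ∈ WD s := by
            apply (hy3 j hj).2 _ _ _ s
            · rw [hx1]
              exact hs
            · push_cast
              have : (0 : ℤ) < i := by exact_mod_cast hi
              linarith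
            · rw [hTs]
              push_cast
              have : (i : ℤ) < ν j := by exact_mod_cast hi'
              linarith
          have h3 : ∀ᶠ z : M × N in 𝓝 (g^[i] (α j (P j)), y ((TT ν j + i : ℕ) : ℤ)),
              z.2 ∈ WD s := continuousAt_snd.eventually ((hWDo s).mem_nhds h2)
          filter_upwards [h3] with z hz _
          exact hz
        · have h2 : ρ' / 2 < dist (g^[i] (α j (P j))) (c s) := by
            rw [not_lt] at hs
            linarith
          have h3 : ∀ᶠ z : M × N in 𝓝 (g^[i] (α j (P j)), y ((TT ν j + i : ℕ) : ℤ)),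
              ρ' / 2 < dist z.1 (c s) := by
            have h4 : ContinuousAt (fun z : M × N => dist z.1 (c s))
                (g^[i] (α j (P j)), y ((TT ν j + i : ℕ) : ℤ)) :=
              (continuous_fst.dist continuous_const).continuousAt
            exact h4.eventually (lt_mem_nhds h2)
          filter_upwards [h3] with z hz hz'
          exact absurd hz' (not_lt.2 hz.le)
      filter_upwards [h1] with z hz
      change f' (Θ.symm z) = f (Θ.symm z)
      rw [hf', pert_apply]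
      congr 1
      exact hΨD v z.1 z.2 hz) (fun j hj i hi => by
      have hx1 : x ((TT ν j + i : ℕ) : ℤ) = g^[i] (α j (P j)) := by
        rw [hαP]
        exact hxs j hj i hi
      change f (Θ.symm (g^[i] (α j (P j)), y ((TT ν j + i : ℕ) : ℤ))) =
        Θ.symm (g^[i + 1] (α j (P j)), y ((TT ν j + i + 1 : ℕ) : ℤ))
      rw [hfΘ]
      simp only
      have h1 := hy1 ((TT ν j + i : ℕ) : ℤ)
      rw [hx1] at h1
      rw [← h1, Function.iterate_succ_apply']
      congr 2)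
  obtain ⟨-, hval, hfx, hloc⟩ := horb
  have hP0 : P (K + 1) = P 0 := by
    simp only [hPdef, haK]
  set n₁ := TT ν (K + 1) with hn₁
  have hn₁0 : 0 < n₁ := by
    rw [hn₁, TT, Finset.sum_range_succ]
    exact Nat.add_pos_right _ (hν0 K)
  have hyn : y ((n₁ : ℕ) : ℤ) = y ((0 : ℕ) : ℤ) := by
    have h1 := hy2 0
    rw [zero_add] at h1
    rw [h1]
    rfl
  have hfix : f'^[n₁] (Θ.symm (P 0, y ((0 : ℕ) : ℤ))) = Θ.symm (P 0, y ((0 : ℕ) : ℤ)) := by
    have h1 : f'^[n₁] (Θ.symm (P 0, y ((0 : ℕ) : ℤ))) =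
        Θ.symm (P (K + 1), y ((n₁ : ℕ) : ℤ)) := hfx
    rw [h1, hP0, hyn]
  have hhyp : IsHyp (OmSt.D f'^[n₁] (Θ.symm (P 0, y ((0 : ℕ) : ℤ))) : F →L[ℝ] F) :=
    h𝒩.isHyp hr hf'𝒩 hn₁0 hfix
  have hderiv := chain_deriv (h := fun j => g^[ν j] ∘ α j) (P := P)
    (ch := fun j => chartAt E (c (t (a j))))
    (Dv := fun j => (lcoc g hr γ).X c V n (t (a j)) (t (a (j + 1))) *
      (1 + (ℓ (a j)).2.2)) (K := K + 1) (fun j _ => hps _) hPs
    (fun j _ => ContinuousAt.comp (g.continuous.iterate _).continuousAt (hαc j)) (fun j hj => by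
      have hV' : g^[ν j] (V (t (a j))) ∈ (chartAt E (c (t (a (j + 1))))).source := by
        rw [hPV j hj]
        exact hps _
      have h2 := hasFDerivAt_alf g hr (ν j) (c := c (t (a j))) (c' := c (t (a (j + 1))))
        (V := V (t (a j))) (p := P j) (ℓ (a j)).2.2 (hVs _) (hps _) hV'
      have h3 := lcoc_X g hr γ (c := c) (V := V) (n := n) (t (a j)) (t (a (j + 1)))
        (hVs _) hV'
      rw [h3]
      exact h2)
  have hch : chartAt E (c (t (a (K + 1)))) = chartAt E (c (t (a 0))) := by rw [haK]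
  simp only [hch] at hderiv
  exact fix_skew Θ ι (e := chartAt E (c (t (a 0)))) (IsManifold.chart_mem_maximalAtlas _)
    (e' := chartAt E' (y ((0 : ℕ) : ℤ))) (IsManifold.chart_mem_maximalAtlas _) (p₀ := P 0)
    (q₀ := y ((0 : ℕ) : ℤ)) (hps _) (mem_chart_source E' _)
    (G := f'^[n₁]) (mdiff_iterate (Dyn.mdiff f' hr) n₁ _) hfix
    (H := comps (fun j => g^[ν j] ∘ α j) (K + 1)) hloc hderiv
    hhyp hw

end FAN
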