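import Pool.Agent.FAN.Defs

/-!
# Module Cst (size 3): the torus covering

PROOF. `contπ`: `hπ.locdiff.contMDiff.continuous`; `openπ`: `IsLocalDiffeomorph.isOpenMap`.
`disc`: `π` is injective on a neighbourhood of `0` (`hπ.locdiff 0`: the local inverse; or
`IsLocalDiffeomorph.isLocalHomeomorph`, `IsLocalHomeomorph`), which contains a ball of radius `ρ`; if `l ∈ Λ`, `‖l‖ < ρ`
then `π l = π 0` (`fib`), so `l = 0`. `v`: if `Λ` had no nonzero element, `π` would be injective, hence a
homeomorphism `E' ≃ₜ N` (continuous, open, bijective), and `E'` would be compact; but a nontrivial real normed space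
is not compact (`NoncompactSpace`). `lift`: the open sets `π '' ball 0 n`, `n : ℕ`, increase and cover the compact
space `N`, so one of them is everything. `θR`: `θ` is continuous on the compact space `M × N`. `R` is the maximum of
the constants (and `‖v‖`). `κ = 1 / (2 * K)`: `K * κ = 1 / 2`.
`eq`, `inj`: with `aa z = (Θ (f (Θ.symm z))).2`: `hf`; if `aa (x, y) = aa (x, y')` then
`Θ (f (Θ.symm (x, y))) = Θ (f (Θ.symm (x, y')))` (the first coordinates are `g x`; write `y = π w`, `y' = π w'`), so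
`(x, y) = (x, y')`.
-/

set_option autoImplicit false

open Set Filter Topology Manifold ContDiff Metric OmSt PRH

namespace FAN

variable {E : Type*} [NormedAddCommGroup E] [NormedSpace ℝ E]
  {E' : Type*} [NormedAddCommGroup E'] [NormedSpace ℝ E'] [FiniteDimensional ℝ E'] [Nontrivial E']
  {F : Type*} [NormedAddCommGroup F] [NormedSpace ℝ F]
  {M : Type*} [TopologicalSpace M] [CompactSpace M] [ChartedSpace E M]
  {N : Type*} [TopologicalSpace N] [T2Space N] [CompactSpace N] [ChartedSpace E' N]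
  {X : Type*} [TopologicalSpace X] [ChartedSpace F X] {r : ℕ∞}

theorem TorusCov.continuous {π : E' → N} {Λ : AddSubgroup E'} (hπ : TorusCov π Λ) : Continuous π := by
  exact hπ.locdiff.contMDiff.continuous

theorem TorusCov.isOpenMap {π : E' → N} {Λ : AddSubgroup E'} (hπ : TorusCov π Λ) : IsOpenMap π := by
  exact hπ.locdiff.isOpenMap

theorem exists_fdata {A : E' ≃L[ℝ] E'} {K : ℝ} (hK : 0 < K)
    (hA : Dich (fun _ : ℤ => (A : E' →L[ℝ] E')) K) {π : E' → N} {Λ : AddSubgroup E'}
    (hπ : TorusCov π Λ) {β : M → N} (hβ : Continuous β) {θ : M × N → E'} (hθ : Continuous θ)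
    (hLip : ∀ x w w', ‖θ (x, π w) - θ (x, π w')‖ ≤ ‖w - w'‖ / (2 * K))
    (Θ : Diffeomorph 𝓘(ℝ, F) (𝓘(ℝ, E).prod 𝓘(ℝ, E')) X (M × N) ∞) {g : Dyn E M r} {f : Dyn F X r}
    (hf : ∀ x w b, π b = β x → Θ (f (Θ.symm (x, π w))) = (g x, π (b + A w + θ (x, π w)))) :
    ∃ (R ρ : ℝ) (v : E'),
      FData A π Λ β θ (fun z => (Θ (f (Θ.symm z))).2) K (1 / (2 * K)) R ρ v := by
  classical
  have hc : Continuous π := hπ.continuous
  have ho : IsOpenMap π := hπ.isOpenMap
  -- discreteness
  obtain ⟨ρ, hρ0, hρ⟩ : ∃ ρ : ℝ, 0 < ρ ∧ ∀ l ∈ Λ, ‖l‖ < ρ → l = 0 := by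
    obtain ⟨e, he0, he⟩ := hπ.locdiff.isLocalHomeomorph 0
    obtain ⟨ρ, hρ0, hρ⟩ := Metric.isOpen_iff.1 e.open_source 0 he0
    refine ⟨ρ, hρ0, fun l hl hlρ => ?_⟩
    have h1 : l ∈ e.source := hρ (by simpa [Metric.mem_ball, dist_zero_right] using hlρ)
    have h2 : π l = π 0 := (hπ.fib l 0).2 (by simpa using hl)
    refine e.injOn h1 he0 ?_
    rw [← he]
    exact h2
  -- a nonzero element
  obtain ⟨v, hvΛ, hv0⟩ : ∃ v ∈ Λ, v ≠ 0 := by
    by_contra hcon
    push Not at hcon
    have hinj : Function.Injective π := by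
      intro a b hab
      have := hcon _ ((hπ.fib a b).1 hab)
      exact sub_eq_zero.1 this
    let h : E' ≃ₜ N := Equiv.toHomeomorphOfContinuousOpen (Equiv.ofBijective π ⟨hinj, hπ.surj⟩) hc ho
    haveI : CompactSpace E' := h.symm.compactSpace
    haveI : NoncompactSpace E' := NormedSpace.noncompactSpace ℝ E'
    exact noncompact_univ E' isCompact_univ
  -- lifts
  obtain ⟨n, hn⟩ : ∃ n : ℕ, ∀ y : N, ∃ b : E', π b = y ∧ ‖b‖ < n := by
    have hU : ∀ n : ℕ, IsOpen (π '' ball (0 : E') n) := fun n => ho _ isOpen_ball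
    have hcov : (univ : Set N) ⊆ ⋃ n : ℕ, π '' ball (0 : E') n := by
      intro y _
      obtain ⟨b, rfl⟩ := hπ.surj y
      obtain ⟨n, hn⟩ := exists_nat_gt ‖b‖
      exact mem_iUnion.2 ⟨n, b, by simpa [Metric.mem_ball, dist_zero_right] using hn, rfl⟩
    have hdir : Directed (· ⊆ ·) (fun n : ℕ => π '' ball (0 : E') n) := by
      refine Monotone.directed_le ?_
      intro m n hmn
      exact image_mono (ball_subset_ball (by exact_mod_cast hmn))
    obtain ⟨n, hn⟩ := (isCompact_univ : IsCompact (univ : Set N)).elim_directed_cover _ hU hcov hdir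
    refine ⟨n, fun y => ?_⟩
    obtain ⟨b, hb, rfl⟩ := hn (mem_univ y)
    exact ⟨b, rfl, by simpa [Metric.mem_ball, dist_zero_right] using hb⟩
  -- bound of θ
  obtain ⟨B, hB⟩ : ∃ B : ℝ, ∀ z, ‖θ z‖ ≤ B := by
    obtain ⟨B, hB⟩ := (isCompact_range hθ).isBounded.exists_norm_le
    exact ⟨B, fun z => hB _ (mem_range_self z)⟩
  refine ⟨max (max (n : ℝ) B) ‖v‖, ρ, v, ?_⟩
  exact
    { K0 := hK.le
      dich := hA
      κ0 := by positivity
      κK := by
        have : K * (1 / (2 * K)) = 1 / 2 := by field_simp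
        rw [this]
      contπ := hc
      openπ := ho
      fib := hπ.fib
      ρ0 := hρ0
      disc := hρ
      vΛ := hvΛ
      v0 := hv0
      vR := le_max_right _ _
      lift := fun y => by
        obtain ⟨b, hb, hbn⟩ := hn y
        exact ⟨b, hb, hbn.trans_le ((le_max_left _ _).trans (le_max_left _ _))⟩
      θR := fun z => (hB z).trans ((le_max_right _ _).trans (le_max_left _ _))
      contβ := hβ
      contθ := hθ
      eq := fun x w b hb => by
        simp only [hf x w b hb]
      lip := fun x w w' => by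
        have := hLip x w w'
        rw [div_eq_inv_mul] at this
        rw [one_div]
        exact this
      inj := fun x y y' h => by
        obtain ⟨w, rfl⟩ := hπ.surj y
        obtain ⟨w', rfl⟩ := hπ.surj y'
        obtain ⟨b, hb⟩ := hπ.surj (β x)
        have h1 : Θ (f (Θ.symm (x, π w))) = Θ (f (Θ.symm (x, π w'))) := by
          refine Prod.ext ?_ h
          rw [hf x w b hb, hf x w' b hb]
        have h2 := f.injective (Θ.injective h1)
        have h3 := Θ.symm.injective h2
        exact (Prod.mk.inj h3).2 }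

end FAN
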