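import Pool.Agent.FAN.Cst
import Pool.Agent.PCE.DerivBound

/-!
# Module Cvb (size 4): the derivative of the covering is bounded below

PROOF. `exists_bound_of_local` (Pool/Agent/PCE/DerivBound.lean) on the compact space `N` with
`Q C y := ∀ w, π w = y → ∀ η, ‖η‖ ≤ C * rnorm γ y (mfderiv π w η)`.
Let `b : N`, `π w₀ = b` (`hπ.surj`). `exists_comparison γ b` (Pool/Agent/OmSt2/RM2.lean) gives `C₁ > 0` with
`‖Dc b y ζ‖ ≤ C₁ * rnorm γ y ζ` for `y` near `b`, all `ζ`. The map `ψ = chartAt E' b ∘ π : E' → E'` is `C^∞` near `w₀`, and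
for `w` near `w₀`: `fderiv ℝ ψ w = Dc b (π w) ∘L mfderiv π w` (chain rule; `Dc b y` is the derivative of the chart at
`b`), which is continuous in `w` and invertible at `w₀` (`mfderiv π w₀` is invertible because `π` is a local
diffeomorphism: `IsLocalDiffeomorphAt.mfderivToContinuousLinearEquiv` or the derivative of the local inverse; `Dc b b`
is invertible: `Dc'_Dc`). So there are `c₀ > 0` and a neighbourhood `U` of `w₀` with `c₀ ‖η‖ ≤ ‖fderiv ℝ ψ w η‖` for
`w ∈ U` (`(‖L⁻¹‖)⁻¹ ‖η‖ ≤ ‖L η‖` and `‖fderiv ℝ ψ w - L‖ ≤ c₀`). ALTERNATIVE for this step: let `σ` be the local inverse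
of `π` near `b` with `σ b = w₀`, a `C^∞` map near `b`; then `σ (π w) = w` near `w₀`, so
`η = mfderiv σ (π w) (mfderiv π w η)`, and `mfderiv σ y` is bounded near `b` in the chart (`chA_continuousAt` is stated for
globally defined maps).
`π '' U` is a neighbourhood of `b` (`hπ.isOpenMap`). Let `y ∈ π '' U` be near `b`, `y = π w'`, `w' ∈ U`, and `π w = y`. Then
`w = w' + l`, `l ∈ Λ`, and `π (u + l) = π u` for all `u` (`fib`), so `mfderiv π w = mfderiv π w'` (chain rule with the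
translation), and `‖η‖ ≤ c₀⁻¹ ‖Dc b y (mfderiv π w η)‖ ≤ c₀⁻¹ C₁ rnorm γ y (mfderiv π w η)`.
-/

set_option autoImplicit false

open Set Filter Topology Manifold ContDiff Metric OmSt PRH

namespace FAN

variable {E' : Type*} [NormedAddCommGroup E'] [NormedSpace ℝ E'] [FiniteDimensional ℝ E']
  [Nontrivial E']
  {N : Type*} [MetricSpace N] [CompactSpace N] [ChartedSpace E' N] [IsManifold 𝓘(ℝ, E') ∞ N]

/-- the derivative of `π` does not change under translations by lattice vectors -/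
theorem TorusCov.mfderiv_eq {π : E' → N} {Λ : AddSubgroup E'} (hπ : TorusCov π Λ) {w w' : E'}
    (h : π w = π w') : (mfderiv 𝓘(ℝ, E') 𝓘(ℝ, E') π w : E' →L[ℝ] E') =
      (mfderiv 𝓘(ℝ, E') 𝓘(ℝ, E') π w' : E' →L[ℝ] E') := by
  have hl : w - w' ∈ Λ := (hπ.fib w w').1 h
  have hτ : ∀ u : E', π (u + (w - w')) = π u := fun u => by
    refine (hπ.fib _ _).2 ?_
    have e : u + (w - w') - u = w - w' := by abel
    rw [e]
    exact hl
  have hcomp : (π ∘ fun u : E' => u + (w - w')) = π := funext hτ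
  have e1 : w' + (w - w') = w := by abel
  have hd : MDifferentiableAt 𝓘(ℝ, E') 𝓘(ℝ, E') π w :=
    (hπ.locdiff.contMDiff w).mdifferentiableAt (by simp)
  have h1 : HasMFDerivAt 𝓘(ℝ, E') 𝓘(ℝ, E') π w (mfderiv 𝓘(ℝ, E') 𝓘(ℝ, E') π w) :=
    hd.hasMFDerivAt
  have h2 : HasMFDerivAt 𝓘(ℝ, E') 𝓘(ℝ, E') (fun u : E' => u + (w - w')) w'
      (ContinuousLinearMap.id ℝ E') := by
    rw [hasMFDerivAt_iff_hasFDerivAt]
    exact (hasFDerivAt_id w').add_const (w - w')
  have h1' : HasMFDerivAt 𝓘(ℝ, E') 𝓘(ℝ, E') π ((fun u : E' => u + (w - w')) w')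
      (mfderiv 𝓘(ℝ, E') 𝓘(ℝ, E') π w : E' →L[ℝ] E') := by
    have h3 := h1
    rw [← e1] at h3
    exact (by
      show HasMFDerivAt 𝓘(ℝ, E') 𝓘(ℝ, E') π (w' + (w - w')) _
      rw [e1]
      exact h1)
  have h4 := HasMFDerivAt.comp w' h1' h2
  rw [hcomp] at h4
  have h5 := h4.mfderiv
  rw [h5]
  rfl

private theorem Dc_self (b w : E') : (Dc b w : E' →L[ℝ] E') = ContinuousLinearMap.id ℝ E' := by
  unfold Dc
  have e : ((chartAt E' b : OpenPartialHomeomorph E' E') : E' → E') = id := by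
    simp [chartAt_self_eq]
  rw [e, mfderiv_id]
  rfl

theorem exists_cov_bound {π : E' → N} {Λ : AddSubgroup E'} (hπ : TorusCov π Λ) (γ : RMetric E' N) :
    ∃ C > 0, ∀ w η : E', ‖η‖ ≤ C * rnorm γ (π w) (mfderiv 𝓘(ℝ, E') 𝓘(ℝ, E') π w η) := by
  have key : ∃ C > 0, ∀ y : N, ∀ w : E', π w = y → ∀ η : E',
      ‖η‖ ≤ C * rnorm γ (π w) (mfderiv 𝓘(ℝ, E') 𝓘(ℝ, E') π w η) := by
    refine exists_bound_of_local (X := N) (fun C y => ∀ w : E', π w = y → ∀ η : E',
      ‖η‖ ≤ C * rnorm γ (π w) (mfderiv 𝓘(ℝ, E') 𝓘(ℝ, E') π w η)) ?_ ?_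
    · intro C C' y hCC h w hw η
      exact (h w hw η).trans (mul_le_mul_of_nonneg_right hCC (rnorm_nonneg' γ _ _))
    · intro b
      obtain ⟨w₀, rfl⟩ := hπ.surj b
      obtain ⟨C₁, hC₁, h1⟩ := exists_comparison γ (π w₀)
      have hπ1 : ContMDiff 𝓘(ℝ, E') 𝓘(ℝ, E') 1 π := hπ.locdiff.contMDiff.of_le (by simp)
      have hcont := chA_continuousAt (E := E') (E' := E') π hπ1 w₀
      -- injectivity at `w₀`
      have hinj : ∃ c > 0, ∀ η : E', c * ‖η‖ ≤ ‖chA (E := E') (E' := E') π w₀ w₀ η‖ := by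
        have hne : (∞ : WithTop ℕ∞) ≠ 0 := by simp
        let L : E' ≃L[ℝ] E' := hπ.locdiff.mfderivToContinuousLinearEquiv hne w₀
        have hL : ∀ η : E', L η = (mfderiv 𝓘(ℝ, E') 𝓘(ℝ, E') π w₀ : E' →L[ℝ] E') η := fun η => rfl
        let K : E' →L[ℝ] E' := (L.symm : E' →L[ℝ] E') ∘L (Dc' (π w₀) (π w₀) : E' →L[ℝ] E')
        have hK : ∀ η : E', K (chA (E := E') (E' := E') π w₀ w₀ η) = η := by
          intro η
          have h2 := chA_apply (E := E') (E' := E') π (b := w₀) (y := w₀)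
            (mem_chart_source E' w₀) η
          rw [Dc_self] at h2
          have h3 : chA (E := E') (E' := E') π w₀ w₀ η =
              (Dc (π w₀) (π w₀) : E' →L[ℝ] E')
                ((mfderiv 𝓘(ℝ, E') 𝓘(ℝ, E') π w₀ : E' →L[ℝ] E') η) := h2
          rw [h3]
          change L.symm ((Dc' (π w₀) (π w₀) : E' →L[ℝ] E') ((Dc (π w₀) (π w₀) : E' →L[ℝ] E')
                ((mfderiv 𝓘(ℝ, E') 𝓘(ℝ, E') π w₀ : E' →L[ℝ] E') η))) = η
          rw [Dc'_Dc (mem_chart_source E' (π w₀)), ← hL]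
          exact L.symm_apply_apply η
        refine ⟨(‖K‖ + 1)⁻¹, by positivity, fun η => ?_⟩
        have h4 : ‖η‖ ≤ ‖K‖ * ‖chA (E := E') (E' := E') π w₀ w₀ η‖ := by
          have h5 := K.le_opNorm (chA (E := E') (E' := E') π w₀ w₀ η)
          rwa [hK] at h5
        rw [inv_mul_le_iff₀ (by positivity)]
        nlinarith [norm_nonneg (chA (E := E') (E' := E') π w₀ w₀ η), norm_nonneg K]
      obtain ⟨c, hc, hcl⟩ := hinj
      have hU : ∀ᶠ w in 𝓝 w₀, ‖chA (E := E') (E' := E') π w₀ w - chA (E := E') (E' := E') π w₀ w₀‖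
          < c / 2 := by
        have h6 := Metric.continuousAt_iff'.1 hcont (c / 2) (by positivity)
        simpa [dist_eq_norm] using h6
      have hV : π '' {w | ‖chA (E := E') (E' := E') π w₀ w - chA (E := E') (E' := E') π w₀ w₀‖
          < c / 2} ∈ 𝓝 (π w₀) := hπ.isOpenMap.image_mem_nhds hU
      refine ⟨2 / c * C₁, by positivity, ?_⟩
      filter_upwards [h1, hV] with y hy hyV
      obtain ⟨w', hw', rfl⟩ := hyV
      have hw'' : ‖chA (E := E') (E' := E') π w₀ w' - chA (E := E') (E' := E') π w₀ w₀‖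
          < c / 2 := hw'
      -- the bound at `w'`
      have hb : ∀ η : E', ‖η‖ ≤ 2 / c * ‖chA (E := E') (E' := E') π w₀ w' η‖ := by
        intro η
        have h7 := hcl η
        have h8 : ‖chA (E := E') (E' := E') π w₀ w₀ η‖ ≤
            ‖chA (E := E') (E' := E') π w₀ w' η‖ + c / 2 * ‖η‖ := by
          have h9 : chA (E := E') (E' := E') π w₀ w₀ η = chA (E := E') (E' := E') π w₀ w' η -
              (chA (E := E') (E' := E') π w₀ w' - chA (E := E') (E' := E') π w₀ w₀) η := by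
            simp
          rw [h9]
          refine (norm_sub_le _ _).trans ?_
          have h10 := (chA (E := E') (E' := E') π w₀ w' -
            chA (E := E') (E' := E') π w₀ w₀).le_opNorm η
          have h11 := mul_le_mul_of_nonneg_right hw''.le (norm_nonneg η)
          linarith
        have h12 : c / 2 * ‖η‖ ≤ ‖chA (E := E') (E' := E') π w₀ w' η‖ := by linarith
        have h13 : ‖η‖ = 2 / c * (c / 2 * ‖η‖) := by
          field_simp
        rw [h13]
        exact mul_le_mul_of_nonneg_left h12 (by positivity)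
      intro w hw η
      have e1 := hπ.mfderiv_eq hw
      have h14 := hb η
      have h2 := chA_apply (E := E') (E' := E') π (b := w₀) (y := w')
        (by simp : w' ∈ (chartAt E' w₀).source) η
      rw [Dc_self] at h2
      have h3 : chA (E := E') (E' := E') π w₀ w' η =
          (Dc (π w₀) (π w') : E' →L[ℝ] E')
            ((mfderiv 𝓘(ℝ, E') 𝓘(ℝ, E') π w' : E' →L[ℝ] E') η) := h2
      rw [h3] at h14
      have h15 := (hy ((mfderiv 𝓘(ℝ, E') 𝓘(ℝ, E') π w' : E' →L[ℝ] E') η)).1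
      have h16 : rnorm γ (π w) (mfderiv 𝓘(ℝ, E') 𝓘(ℝ, E') π w η) =
          rnorm γ (π w') ((mfderiv 𝓘(ℝ, E') 𝓘(ℝ, E') π w' : E' →L[ℝ] E') η) := by
        have h17 : (mfderiv 𝓘(ℝ, E') 𝓘(ℝ, E') π w : E' →L[ℝ] E') η =
          (mfderiv 𝓘(ℝ, E') 𝓘(ℝ, E') π w' : E' →L[ℝ] E') η :=
          congrArg (fun L : E' →L[ℝ] E' => L η) e1
        have h18 : ∀ (y y' : N) (v v' : E'), y = y' → v = v' → rnorm γ y v = rnorm γ y' v' := by
          rintro y y' v v' rfl rfl
          rfl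
        exact h18 _ _ _ _ hw h17
      rw [h16]
      calc ‖η‖ ≤ 2 / c * ‖(Dc (π w₀) (π w') : E' →L[ℝ] E')
            ((mfderiv 𝓘(ℝ, E') 𝓘(ℝ, E') π w' : E' →L[ℝ] E') η)‖ := h14
        _ ≤ 2 / c * (C₁ * rnorm γ (π w') ((mfderiv 𝓘(ℝ, E') 𝓘(ℝ, E') π w' : E' →L[ℝ] E') η)) :=
            mul_le_mul_of_nonneg_left h15 (by positivity)
        _ = 2 / c * C₁ * rnorm γ (π w') ((mfderiv 𝓘(ℝ, E') 𝓘(ℝ, E') π w' : E' →L[ℝ] E') η) := by
            ring
  obtain ⟨C, hC, h⟩ := key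
  exact ⟨C, hC, fun w η => h (π w) w rfl η⟩

end FAN
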