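import Pool.Agent.PRH.Main

/-!
# Squad FAN (MP_4a0782_an): skew products over arbitrary diffeomorphisms with hyperbolic toral fibres

THEOREM. Let `f (x, y) = (g x, β x + A y + θ (x, y))` on `M × N`, `N = E' / Λ` a torus, `g` an arbitrary `C^r`
diffeomorphism of `M`, `β : M → N` continuous, `A` hyperbolic, `θ : M × N → E'` continuous with small Lipschitz
constant in the fibre direction. If `f` is `Ω`-stable (in the space of all `C^r` diffeomorphisms), then `f`
satisfies Axiom A.

IDEA. The fibre orbits over a sequence `x : ℤ → M` of base points are coded by sequences `ω : ℤ → Bool`: fix a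
vector `v ≠ 0` of the lattice `Λ`, lifts `b i ∈ E'` of `β (x i)`, and let `w` be the unique bounded solution of
`w (i + 1) = b i + ω i v + A (w i) + θ (x i, π (w i))`; then `y i = π (w i)` is an orbit of the fibre maps. For
sparse codes (`YL L`, `L` large) the code is determined by `y 0` (`Inj`), `y 0` depends continuously on all the data
(`Cont`), so the fibre orbits can be used as in PRH (products with a horseshoe) to trigger perturbations of the
base dynamics at scheduled times (`Ctl`, `FamB`, `Orb`, `Core`). This gives `LCoc.Star` for the derivative cocycle of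
`g`, hence (`Star.noBdd`) no bounded vectors over the `ω`-limit sets of `g`; in the fibre direction `f` is
hyperbolic (`Ver`); so no bounded vectors for `f` over `ω`-limit sets, and `main_metric3` applies.
-/

set_option autoImplicit false

open Set Filter Topology Metric OmSt PRH

namespace FAN

section manifolds

open scoped Manifold ContDiff

variable {E' : Type*} [NormedAddCommGroup E'] [NormedSpace ℝ E']
  {N : Type*} [TopologicalSpace N] [ChartedSpace E' N]

/-- `N` is the torus `E' / Λ` and `π : E' → N` is the projection: `π` is a surjective local diffeomorphism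
whose fibres are the cosets of `Λ`. -/
structure TorusCov (π : E' → N) (Λ : AddSubgroup E') : Prop where
  locdiff : IsLocalDiffeomorph 𝓘(ℝ, E') 𝓘(ℝ, E') ∞ π
  surj : Function.Surjective π
  fib : ∀ v w, π v = π w ↔ v - w ∈ Λ

end manifolds

variable {E' : Type*} [NormedAddCommGroup E'] [NormedSpace ℝ E'] {M N : Type*}

/-- The topological data of the fibre maps `aa (x, ·) : N → N`: in the coordinates of the covering `π : E' → N`
they are `w ↦ b + A w + θ (x, π w)`, `b` any lift of `β x`. All constants are `≤ R`. -/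
structure FData [TopologicalSpace M] [TopologicalSpace N] (A : E' ≃L[ℝ] E') (π : E' → N) (Λ : AddSubgroup E')
    (β : M → N) (θ : M × N → E') (aa : M × N → N) (K κ R ρ : ℝ) (v : E') : Prop where
  K0 : 0 ≤ K
  dich : Dich (fun _ : ℤ => (A : E' →L[ℝ] E')) K
  κ0 : 0 ≤ κ
  κK : K * κ ≤ 1 / 2
  contπ : Continuous π
  openπ : IsOpenMap π
  fib : ∀ v w, π v = π w ↔ v - w ∈ Λ
  ρ0 : 0 < ρ
  disc : ∀ l ∈ Λ, ‖l‖ < ρ → l = 0
  vΛ : v ∈ Λ
  v0 : v ≠ 0
  vR : ‖v‖ ≤ R
  lift : ∀ y : N, ∃ b : E', π b = y ∧ ‖b‖ < R
  θR : ∀ z, ‖θ z‖ ≤ R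
  contβ : Continuous β
  contθ : Continuous θ
  eq : ∀ x w b, π b = β x → aa (x, π w) = π (b + A w + θ (x, π w))
  lip : ∀ x w w', ‖θ (x, π w) - θ (x, π w')‖ ≤ κ * ‖w - w'‖
  inj : ∀ x y y', aa (x, y) = aa (x, y') → y = y'

/-- bounded solutions of `w (i + 1) = b i + A (w i) + θ (x i, π (w i))` -/
def IsSol (A : E' ≃L[ℝ] E') (π : E' → N) (θ : M × N → E') (x : ℤ → M) (b w : ℤ → E') : Prop :=
  (∃ C, ∀ i, ‖w i‖ ≤ C) ∧ ∀ i, w (i + 1) = b i + A (w i) + θ (x i, π (w i))

/-- the translations with the code `ω` -/
def cd (b : ℤ → E') (ω : ℤ → Bool) (v : E') (i : ℤ) : E' := b i + if ω i = true then v else 0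

end FAN
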