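import Pool.Agent.FAN.Cst
import Pool.Agent.PRH.NBProd

/-!
# Module Vera (size 3): the fibre maps in the covering are differentiable

`lift_deriv`: let `x : M`, `w : E'`, `π b = β x`, `Fm u = b + A u + θ (x, π u)`. `Fm` is differentiable at `w`: `Fm` is
continuous and `π ∘ Fm = (snd ∘ Θ ∘ f ∘ Θ.symm) ∘ (fun u => (x, π u))` is `C^1` (`hf`); with the local inverse `σ` of the
local diffeomorphism `π` at `Fm w` (`hπ.locdiff (Fm w)`), `Fm = σ ∘ (π ∘ Fm)` near `w`. And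
`Fm u - Fm u' - A (u - u') = θ (x, π u) - θ (x, π u')`, so `u ↦ Fm u - A u` is Lipschitz with the constant
`1 / (2 * K)` and `‖fderiv ℝ Fm w - A‖ ≤ 1 / (2 * K)` (`norm_fderiv_le_of_lipschitz`).
(`IsLocalDiffeomorphAt`: `hπ.locdiff w₀` is a `PartialDiffeomorph` `Φ` with `w₀ ∈ Φ.source`, `π = Φ` on the source;
`Φ.symm` is `C^∞` on the open target, and `Φ.symm (π u) = u` on the source.)
-/

set_option autoImplicit false

open Set Filter Topology Manifold ContDiff Metric OmSt PRH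

namespace FAN

variable {E : Type*} [NormedAddCommGroup E] [NormedSpace ℝ E] [FiniteDimensional ℝ E]
  {E' : Type*} [NormedAddCommGroup E'] [NormedSpace ℝ E'] [FiniteDimensional ℝ E'] [Nontrivial E']
  {F : Type*} [NormedAddCommGroup F] [NormedSpace ℝ F] [FiniteDimensional ℝ F]
  {M : Type*} [MetricSpace M] [CompactSpace M] [ChartedSpace E M] [IsManifold 𝓘(ℝ, E) ∞ M]
  {N : Type*} [MetricSpace N] [CompactSpace N] [ChartedSpace E' N] [IsManifold 𝓘(ℝ, E') ∞ N]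
  {X : Type*} [MetricSpace X] [CompactSpace X] [ChartedSpace F X] [IsManifold 𝓘(ℝ, F) ∞ X]
  {r : ℕ∞}

theorem lift_deriv (hr : 1 ≤ r) {A : E' ≃L[ℝ] E'} {K : ℝ} (hK : 0 < K) {π : E' → N}
    {Λ : AddSubgroup E'} (hπ : TorusCov π Λ) {β : M → N} {θ : M × N → E'} (hθ : Continuous θ)
    (hLip : ∀ x w w', ‖θ (x, π w) - θ (x, π w')‖ ≤ ‖w - w'‖ / (2 * K))
    (Θ : Diffeomorph 𝓘(ℝ, F) (𝓘(ℝ, E).prod 𝓘(ℝ, E')) X (M × N) ∞) {g : Dyn E M r} {f : Dyn F X r}
    (hf : ∀ x w b, π b = β x → Θ (f (Θ.symm (x, π w))) = (g x, π (b + A w + θ (x, π w))))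
    {x : M} {b : E'} (hb : π b = β x) (w : E') :
    ∃ B : E' →L[ℝ] E', HasFDerivAt (fun u => b + A u + θ (x, π u)) B w ∧
      ‖B - (A : E' →L[ℝ] E')‖ ≤ 1 / (2 * K) := by
  obtain ⟨Fm, hFm⟩ : ∃ Fm : E' → E', Fm = fun u => b + A u + θ (x, π u) := ⟨_, rfl⟩
  have hπc : Continuous π := hπ.locdiff.contMDiff.continuous
  have hFc : Continuous Fm := by
    rw [hFm]
    exact (continuous_const.add A.continuous).add (hθ.comp (continuous_const.prodMk hπc))
  have hG : ContMDiff 𝓘(ℝ, E') 𝓘(ℝ, E') 1 (fun u => π (Fm u)) := by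
    have e : (fun u => π (Fm u)) = fun u => (Θ (f (Θ.symm (x, π u)))).2 := by
      funext u
      rw [hf x u b hb, hFm]
    rw [e]
    have h1 : ContMDiff 𝓘(ℝ, E') (𝓘(ℝ, E).prod 𝓘(ℝ, E')) 1 (fun u : E' => ((x, π u) : M × N)) :=
      contMDiff_const.prodMk (hπ.locdiff.contMDiff.of_le (by simp))
    have h2 : ContMDiff (𝓘(ℝ, E).prod 𝓘(ℝ, E')) 𝓘(ℝ, F) 1 Θ.symm := Θ.symm.contMDiff.of_le (by simp)
    have h3 : ContMDiff 𝓘(ℝ, F) (𝓘(ℝ, E).prod 𝓘(ℝ, E')) 1 Θ := Θ.contMDiff.of_le (by simp)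
    exact contMDiff_snd.comp (h3.comp ((Dyn.contMDiff_one f hr).comp (h2.comp h1)))
  have hloc := hπ.locdiff (Fm w)
  have hev : Fm =ᶠ[𝓝 w] fun u => hloc.localInverse (π (Fm u)) := by
    have h1 := hloc.localInverse_eventuallyEq_left
    have h2 := hFc.continuousAt.eventually h1
    filter_upwards [h2] with u hu
    simpa using hu.symm
  have hFd : DifferentiableAt ℝ Fm w := by
    have h1 : ContMDiffAt 𝓘(ℝ, E') 𝓘(ℝ, E') 1 (fun u => hloc.localInverse (π (Fm u))) w :=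
      ContMDiffAt.comp (g := hloc.localInverse) w (hloc.localInverse_contMDiffAt.of_le (by simp))
        (hG.contMDiffAt)
    have h2 : ContMDiffAt 𝓘(ℝ, E') 𝓘(ℝ, E') 1 Fm w := h1.congr_of_eventuallyEq hev
    exact (contMDiffAt_iff_contDiffAt.1 h2).differentiableAt (by simp)
  refine ⟨fderiv ℝ Fm w, by rw [← hFm]; exact hFd.hasFDerivAt, ?_⟩
  have hL : LipschitzWith (Real.toNNReal (1 / (2 * K))) (fun u => Fm u - A u) := by
    apply LipschitzWith.of_dist_le_mul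
    intro u u'
    rw [dist_eq_norm, dist_eq_norm, Real.coe_toNNReal _ (by positivity)]
    have e : (Fm u - A u) - (Fm u' - A u') = θ (x, π u) - θ (x, π u') := by
      rw [hFm]; simp only; abel
    rw [e]
    calc ‖θ (x, π u) - θ (x, π u')‖ ≤ ‖u - u'‖ / (2 * K) := hLip x u u'
      _ = 1 / (2 * K) * ‖u - u'‖ := by ring
  have h5 := norm_fderiv_le_of_lipschitz ℝ (x₀ := w) hL
  rw [Real.coe_toNNReal _ (by positivity)] at h5
  have h6 : fderiv ℝ (fun u => Fm u - A u) w = fderiv ℝ Fm w - (A : E' →L[ℝ] E') :=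
    (hFd.hasFDerivAt.sub A.hasFDerivAt).fderiv
  rwa [h6] at h5

end FAN
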