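import Pool.Agent.FAN.Cvb
import Pool.Agent.FAN.Vera
import Pool.Agent.PRH.NBProd

/-!
# Module Ver (size 4): bounded vertical vectors vanish

NOTATION. `D` = `mfderiv`, `p₁ = fst ∘ Θ`, `p₂ = snd ∘ Θ`, `z i = zi f.toEquiv i z`, `v i = D (zi f.toEquiv i) z v` (tangent
vector at `z i`), `(x i, y i) = Θ (z i)`; `x (i + 1) = g (x i)`, `v (i + 1) = D f (z i) (v i)` (`D_zi_add`,
`zi_one`). Choose `w i : E'` with `π (w i) = y i` (`hπ.surj`).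

`lift_deriv`: Module Vera.

`vert_zero`. Step 1: `D p₁ (z i) (v i) = 0` for all `i`: `p₁ ∘ zi f i = zi g i ∘ p₁` (`NBProd_zi`) and the chain rule
(see `NBProd_factor`, Pool/Agent/PRH/NBProd.lean). Step 2: `ζ i = D p₂ (z i) (v i)`; `D π (w i)` is invertible (local
diffeomorphism), `η i` = the vector with `D π (w i) (η i) = ζ i`. Step 3: choose the lift `b i` of `β (x i)` with
`b i + A (w i) + θ (x i, π (w i)) = w (i + 1)`: any lift `b`, `π (b + A (w i) + θ ..) = y (i + 1) = π (w (i + 1))`,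
correct `b` by an element of `Λ` (`fib`). Then with `Fm i u = b i + A u + θ (x i, π u)`: `Fm i (w i) = w (i + 1)` and
`η (i + 1) = fderiv ℝ (Fm i) (w i) (η i)`: indeed `v i = D (Θ.symm) (0, ζ i)` is the derivative at `w i` of
`j i : u ↦ Θ.symm (x i, π u)` in the direction `η i` (as `D Θ (z i) (v i) = (0, ζ i)`), and
`p₂ ∘ f ∘ j i = π ∘ Fm i` (`hf`), so `ζ (i + 1) = D p₂ (D f (v i)) = D π (w (i + 1)) (fderiv (Fm i) (w i) (η i))`, and `D π` is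
injective. Step 4: `‖η i‖ ≤ C₁ rnorm γN (y i) (ζ i) ≤ C₁ C₂ rnorm γX (z i) (v i) ≤ C₁ C₂ K'` (`exists_cov_bound`,
`exists_deriv_bound` for `p₂`; `lcoc_nn`: `nn z v i = rnorm γX (z i) (v i)`). Step 5: `Dich.perturb` (`K * (1 / (2 * K)) = 1 / 2`)
for the sequence `fderiv ℝ (Fm i) (w i)`: the bounded solution `η` of the homogeneous equation is `0`. So `ζ 0 = 0`,
`D Θ z v = 0`, `v = 0` (see the end of `NB_prod`).
-/

set_option autoImplicit false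

open Set Filter Topology Manifold ContDiff Metric OmSt PRH

namespace FAN

variable {E : Type*} [NormedAddCommGroup E] [NormedSpace ℝ E] [FiniteDimensional ℝ E]
  {E' : Type*} [NormedAddCommGroup E'] [NormedSpace ℝ E'] [FiniteDimensional ℝ E'] [Nontrivial E']
  {F : Type*} [NormedAddCommGroup F] [NormedSpace ℝ F] [FiniteDimensional ℝ F]
  {M : Type*} [MetricSpace M] [CompactSpace M] [ChartedSpace E M] [IsManifold 𝓘(ℝ, E) ∞ M]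
  {N : Type*} [MetricSpace N] [CompactSpace N] [ChartedSpace E' N] [IsManifold 𝓘(ℝ, E') ∞ N]
  {X : Type*} [MetricSpace X] [CompactSpace X] [ChartedSpace F X] [IsManifold 𝓘(ℝ, F) ∞ X]
  {r : ℕ∞}

section ver_aux

variable {E₁ : Type*} [NormedAddCommGroup E₁] [NormedSpace ℝ E₁]
  {E₂ : Type*} [NormedAddCommGroup E₂] [NormedSpace ℝ E₂]
  {E₃ : Type*} [NormedAddCommGroup E₃] [NormedSpace ℝ E₃]
  {M₁ : Type*} [TopologicalSpace M₁] [ChartedSpace E₁ M₁]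
  {M₂ : Type*} [TopologicalSpace M₂] [ChartedSpace E₂ M₂]
  {M₃ : Type*} [TopologicalSpace M₃] [ChartedSpace E₃ M₃]

/-- the derivative as a map of the model spaces -/
private noncomputable def Dm (p : M₁ → M₂) (x : M₁) : E₁ →L[ℝ] E₂ :=
  mfderiv 𝓘(ℝ, E₁) 𝓘(ℝ, E₂) p x

private theorem Dm_comp {q : M₂ → M₃} {p : M₁ → M₂} {x : M₁}
    (hq : MDifferentiableAt 𝓘(ℝ, E₂) 𝓘(ℝ, E₃) q (p x))
    (hp : MDifferentiableAt 𝓘(ℝ, E₁) 𝓘(ℝ, E₂) p x) (v : E₁) :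
    (Dm (q ∘ p) x : E₁ →L[ℝ] E₃) v = (Dm q (p x) : E₂ →L[ℝ] E₃) ((Dm p x : E₁ →L[ℝ] E₂) v) := by
  have h1 : mfderiv 𝓘(ℝ, E₁) 𝓘(ℝ, E₃) (q ∘ p) x = (mfderiv 𝓘(ℝ, E₂) 𝓘(ℝ, E₃) q (p x)).comp
      (mfderiv 𝓘(ℝ, E₁) 𝓘(ℝ, E₂) p x) := mfderiv_comp x hq hp
  exact congrArg (fun L : E₁ →L[ℝ] E₃ => L v) h1

end ver_aux

/-- a vector killed by the derivatives of both coordinates vanishes -/
private theorem ver_ker (Θ : Diffeomorph 𝓘(ℝ, F) (𝓘(ℝ, E).prod 𝓘(ℝ, E')) X (M × N) ∞) {z : X}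
    {v : F} (h1 : (Dm (Prod.fst ∘ Θ : X → M) z : F →L[ℝ] E) v = 0)
    (h2 : (Dm (Prod.snd ∘ Θ : X → N) z : F →L[ℝ] E') v = 0) : v = 0 := by
  have hΘ : ContMDiff 𝓘(ℝ, F) (𝓘(ℝ, E).prod 𝓘(ℝ, E')) 1 Θ := Θ.contMDiff.of_le (by simp)
  have hΘd : MDifferentiableAt 𝓘(ℝ, F) (𝓘(ℝ, E).prod 𝓘(ℝ, E')) Θ z :=
    (hΘ z).mdifferentiableAt one_ne_zero
  have e1 : mfderiv 𝓘(ℝ, F) 𝓘(ℝ, E) (Prod.fst ∘ Θ) z =
      (mfderiv (𝓘(ℝ, E).prod 𝓘(ℝ, E')) 𝓘(ℝ, E) Prod.fst (Θ z)).comp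
        (mfderiv 𝓘(ℝ, F) (𝓘(ℝ, E).prod 𝓘(ℝ, E')) Θ z) :=
    mfderiv_comp z mdifferentiableAt_fst hΘd
  have e2 : mfderiv 𝓘(ℝ, F) 𝓘(ℝ, E') (Prod.snd ∘ Θ) z =
      (mfderiv (𝓘(ℝ, E).prod 𝓘(ℝ, E')) 𝓘(ℝ, E') Prod.snd (Θ z)).comp
        (mfderiv 𝓘(ℝ, F) (𝓘(ℝ, E).prod 𝓘(ℝ, E')) Θ z) :=
    mfderiv_comp z mdifferentiableAt_snd hΘd
  unfold Dm at h1 h2
  rw [e1, mfderiv_fst] at h1
  rw [e2, mfderiv_snd] at h2
  have h3 : (mfderiv 𝓘(ℝ, F) (𝓘(ℝ, E).prod 𝓘(ℝ, E')) Θ z : F →L[ℝ] E × E') v = 0 :=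
    Prod.ext h1 h2
  have hΘs : MDifferentiableAt (𝓘(ℝ, E).prod 𝓘(ℝ, E')) 𝓘(ℝ, F) Θ.symm (Θ z) :=
    ((Θ.symm.contMDiff.of_le (by simp) : ContMDiff (𝓘(ℝ, E).prod 𝓘(ℝ, E')) 𝓘(ℝ, F) 1 Θ.symm)
      (Θ z)).mdifferentiableAt one_ne_zero
  have e3 : mfderiv 𝓘(ℝ, F) 𝓘(ℝ, F) (Θ.symm ∘ Θ) z =
      (mfderiv (𝓘(ℝ, E).prod 𝓘(ℝ, E')) 𝓘(ℝ, F) Θ.symm (Θ z)).comp
        (mfderiv 𝓘(ℝ, F) (𝓘(ℝ, E).prod 𝓘(ℝ, E')) Θ z) :=
    mfderiv_comp z hΘs hΘd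
  have e4 : (Θ.symm ∘ Θ : X → X) = id := by
    funext y
    simp
  rw [e4, mfderiv_id] at e3
  have e5 : (ContinuousLinearMap.id ℝ F) v =
      (mfderiv (𝓘(ℝ, E).prod 𝓘(ℝ, E')) 𝓘(ℝ, F) Θ.symm (Θ z) : E × E' →L[ℝ] F)
        ((mfderiv 𝓘(ℝ, F) (𝓘(ℝ, E).prod 𝓘(ℝ, E')) Θ z : F →L[ℝ] E × E') v) :=
    congrArg (fun L : F →L[ℝ] F => L v) e3
  rw [h3, map_zero] at e5
  exact e5

/-- the images of vertical vectors are vertical -/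
private theorem ver_p1 (hr : 1 ≤ r) {f : Dyn F X r} {g : Dyn E M r} {p : X → M}
    (hp : ContMDiff 𝓘(ℝ, F) 𝓘(ℝ, E) 1 p) (hpf : ∀ x, p (f x) = g (p x)) {z : X} {v : F}
    (h0 : (Dm p z : F →L[ℝ] E) v = 0) (i : ℤ) :
    (Dm p (zi f.toEquiv i z) : F →L[ℝ] E) ((D (zi f.toEquiv i) z : F →L[ℝ] F) v) = 0 := by
  have hfun : (p ∘ zi f.toEquiv i) = (zi g.toEquiv i ∘ p) := by
    funext y
    exact NBProd_zi hpf i y
  have hpd : ∀ y, MDifferentiableAt 𝓘(ℝ, F) 𝓘(ℝ, E) p y := fun y =>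
    (hp y).mdifferentiableAt one_ne_zero
  have hfd : MDifferentiableAt 𝓘(ℝ, F) 𝓘(ℝ, F) (zi f.toEquiv i) z :=
    (contMDiff_zi f hr i z).mdifferentiableAt one_ne_zero
  have hgd : MDifferentiableAt 𝓘(ℝ, E) 𝓘(ℝ, E) (zi g.toEquiv i) (p z) :=
    (contMDiff_zi g hr i (p z)).mdifferentiableAt one_ne_zero
  have e1 : (Dm (p ∘ zi f.toEquiv i) z : F →L[ℝ] E) v =
      (Dm p (zi f.toEquiv i z) : F →L[ℝ] E) ((Dm (zi f.toEquiv i) z : F →L[ℝ] F) v) :=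
    Dm_comp (hpd _) hfd v
  have e2 : (Dm (zi g.toEquiv i ∘ p) z : F →L[ℝ] E) v =
      (Dm (zi g.toEquiv i) (p z) : E →L[ℝ] E) ((Dm p z : F →L[ℝ] E) v) :=
    Dm_comp hgd (hpd z) v
  rw [hfun, e2, h0, map_zero] at e1
  exact e1.symm

private theorem ver_pi {π : E' → N} {Λ : AddSubgroup E'} (hπ : TorusCov π Λ) (w : E') :
    Function.Bijective (Dm π w : E' →L[ℝ] E') :=
  (hπ.locdiff.mfderivToContinuousLinearEquiv (by simp) w).bijective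

private theorem ver_step (hr : 1 ≤ r) {A : E' ≃L[ℝ] E'} {K : ℝ} (hK : 0 < K) {π : E' → N}
    {Λ : AddSubgroup E'} (hπ : TorusCov π Λ) {β : M → N} {θ : M × N → E'} (hθ : Continuous θ)
    (hLip : ∀ x w w', ‖θ (x, π w) - θ (x, π w')‖ ≤ ‖w - w'‖ / (2 * K))
    (Θ : Diffeomorph 𝓘(ℝ, F) (𝓘(ℝ, E).prod 𝓘(ℝ, E')) X (M × N) ∞) {g : Dyn E M r} {f : Dyn F X r}
    (hf : ∀ x w b, π b = β x → Θ (f (Θ.symm (x, π w))) = (g x, π (b + A w + θ (x, π w))))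
    {x : X} {w w' : E'} (hw : π w = (Θ x).2) (hw' : π w' = (Θ (f x)).2) {v : F} {η η' : E'}
    (h1 : (Dm (Prod.fst ∘ Θ : X → M) x : F →L[ℝ] E) v = 0)
    (h2 : (Dm π w : E' →L[ℝ] E') η = (Dm (Prod.snd ∘ Θ : X → N) x : F →L[ℝ] E') v)
    (h3 : (Dm π w' : E' →L[ℝ] E') η' =
      (Dm (Prod.snd ∘ Θ : X → N) (f x) : F →L[ℝ] E') ((D f x : F →L[ℝ] F) v)) :
    ∃ B : E' →L[ℝ] E', ‖B - (A : E' →L[ℝ] E')‖ ≤ 1 / (2 * K) ∧ η' = B η := by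
  obtain ⟨b₀, hb₀⟩ := hπ.surj (β (Θ x).1)
  have hx : Θ.symm ((Θ x).1, π w) = x := by
    rw [hw, Prod.mk.eta]
    exact Θ.symm_apply_apply x
  have e1 : π (b₀ + A w + θ ((Θ x).1, π w)) = π w' := by
    have := hf (Θ x).1 w b₀ hb₀
    rw [hx] at this
    rw [hw', this]
  have e2 := (hπ.fib _ _).1 e1
  set l : E' := b₀ + A w + θ ((Θ x).1, π w) - w' with hl
  have hb : π (b₀ - l) = β (Θ x).1 := by
    rw [← hb₀]
    refine (hπ.fib _ _).2 ?_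
    have : b₀ - l - b₀ = -l := by abel
    rw [this]
    exact Λ.neg_mem e2
  obtain ⟨B, hB, hBA⟩ := lift_deriv hr hK hπ hθ hLip Θ hf hb w
  refine ⟨B, hBA, ?_⟩
  have hFw : b₀ - l + A w + θ ((Θ x).1, π w) = w' := by rw [hl]; abel
  have hπd : ∀ u, MDifferentiableAt 𝓘(ℝ, E') 𝓘(ℝ, E') π u := fun u =>
    (hπ.locdiff u).mdifferentiableAt (by simp)
  have hΘ : ContMDiff 𝓘(ℝ, F) (𝓘(ℝ, E).prod 𝓘(ℝ, E')) 1 Θ := Θ.contMDiff.of_le (by simp)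
  have hΘs : ContMDiff (𝓘(ℝ, E).prod 𝓘(ℝ, E')) 𝓘(ℝ, F) 1 Θ.symm :=
    Θ.symm.contMDiff.of_le (by simp)
  have hπc : ContMDiff 𝓘(ℝ, E') 𝓘(ℝ, E') 1 π := hπ.locdiff.contMDiff.of_le (by simp)
  set j : E' → X := fun u => Θ.symm ((Θ x).1, π u) with hj
  have hjc : ContMDiff 𝓘(ℝ, E') 𝓘(ℝ, F) 1 j := hΘs.comp (contMDiff_const.prodMk hπc)
  have hjd : MDifferentiableAt 𝓘(ℝ, E') 𝓘(ℝ, F) j w := (hjc w).mdifferentiableAt one_ne_zero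
  have hp1 : ∀ y, MDifferentiableAt 𝓘(ℝ, F) 𝓘(ℝ, E) (Prod.fst ∘ Θ : X → M) y := fun y =>
    ((contMDiff_fst.comp hΘ) y).mdifferentiableAt one_ne_zero
  have hp2 : ∀ y, MDifferentiableAt 𝓘(ℝ, F) 𝓘(ℝ, E') (Prod.snd ∘ Θ : X → N) y := fun y =>
    ((contMDiff_snd.comp hΘ) y).mdifferentiableAt one_ne_zero
  have hjw : j w = x := hx
  have f1 : (Prod.fst ∘ Θ : X → M) ∘ j = fun _ => (Θ x).1 := by
    funext u
    simp [hj]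
  have f2 : (Prod.snd ∘ Θ : X → N) ∘ j = π := by
    funext u
    simp [hj]
  have g1 : (Dm (Prod.fst ∘ Θ : X → M) x : F →L[ℝ] E) ((Dm j w : E' →L[ℝ] F) η) = 0 := by
    have := Dm_comp (hp1 (j w)) hjd η
    rw [f1, hjw] at this
    rw [← this]
    unfold Dm
    rw [mfderiv_const]
    rfl
  have g2 : (Dm (Prod.snd ∘ Θ : X → N) x : F →L[ℝ] E') ((Dm j w : E' →L[ℝ] F) η) =
      (Dm π w : E' →L[ℝ] E') η := by
    have := Dm_comp (hp2 (j w)) hjd η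
    rw [f2, hjw] at this
    exact this.symm
  have g3 : (Dm j w : E' →L[ℝ] F) η = v := by
    have : (Dm j w : E' →L[ℝ] F) η - v = 0 := by
      refine ver_ker Θ (z := x) ?_ ?_
      · rw [map_sub, g1, h1, sub_zero]
      · rw [map_sub, g2, h2, sub_self]
    exact sub_eq_zero.1 this
  -- the derivative of `p₂ ∘ f ∘ j = π ∘ Fm`
  have hfd : MDifferentiableAt 𝓘(ℝ, F) 𝓘(ℝ, F) f x := Dyn.mdiff f hr x
  have f3 : (Prod.snd ∘ Θ : X → N) ∘ (f ∘ j) =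
      π ∘ (fun u => b₀ - l + A u + θ ((Θ x).1, π u)) := by
    funext u
    have := hf (Θ x).1 u (b₀ - l) hb
    change (Θ (f (Θ.symm ((Θ x).1, π u)))).2 = _
    rw [this]
    rfl
  have hFd : MDifferentiableAt 𝓘(ℝ, E') 𝓘(ℝ, E') (fun u => b₀ - l + A u + θ ((Θ x).1, π u)) w :=
    hB.differentiableAt.mdifferentiableAt
  have g4 := Dm_comp (q := (Prod.snd ∘ Θ : X → N)) (p := f ∘ j) (x := w) (hp2 _)
    (MDifferentiableAt.comp w (by rw [hjw]; exact hfd) hjd) η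
  have g5 := Dm_comp (q := (f : X → X)) (p := j) (x := w) (by rw [hjw]; exact hfd) hjd η
  have g6 := Dm_comp (q := π) (p := fun u => b₀ - l + A u + θ ((Θ x).1, π u)) (x := w) (hπd _)
    hFd η
  have g7 : (Dm (fun u => b₀ - l + A u + θ ((Θ x).1, π u)) w : E' →L[ℝ] E') = B := by
    unfold Dm
    rw [mfderiv_eq_fderiv]
    exact hB.fderiv
  rw [f3, g6, g7, g5, hFw, Function.comp_apply, hjw, g3] at g4
  refine (ver_pi hπ w').1 ?_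
  rw [h3]
  exact g4.symm

theorem vert_zero (hr : 1 ≤ r) {A : E' ≃L[ℝ] E'} {K : ℝ} (hK : 0 < K)
    (hA : Dich (fun _ : ℤ => (A : E' →L[ℝ] E')) K) {π : E' → N} {Λ : AddSubgroup E'}
    (hπ : TorusCov π Λ) {β : M → N} {θ : M × N → E'} (hθ : Continuous θ)
    (hLip : ∀ x w w', ‖θ (x, π w) - θ (x, π w')‖ ≤ ‖w - w'‖ / (2 * K))
    (Θ : Diffeomorph 𝓘(ℝ, F) (𝓘(ℝ, E).prod 𝓘(ℝ, E')) X (M × N) ∞) {g : Dyn E M r} {f : Dyn F X r}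
    (hf : ∀ x w b, π b = β x → Θ (f (Θ.symm (x, π w))) = (g x, π (b + A w + θ (x, π w))))
    (γX : RMetric F X) {z : X} {v : F} {K' : ℝ} (hv : ∀ i : ℤ, (lcoc f hr γX).nn z v i ≤ K')
    (h0 : (mfderiv 𝓘(ℝ, F) 𝓘(ℝ, E) (Prod.fst ∘ Θ) z : F →L[ℝ] E) v = 0) : v = 0 := by
  obtain ⟨γN⟩ := exists_rmetric (E := E') (M := N)
  have hΘ : ContMDiff 𝓘(ℝ, F) (𝓘(ℝ, E).prod 𝓘(ℝ, E')) 1 Θ := Θ.contMDiff.of_le (by simp)
  have hp1 : ContMDiff 𝓘(ℝ, F) 𝓘(ℝ, E) 1 (Prod.fst ∘ Θ : X → M) := contMDiff_fst.comp hΘ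
  have hp2 : ContMDiff 𝓘(ℝ, F) 𝓘(ℝ, E') 1 (Prod.snd ∘ Θ : X → N) := contMDiff_snd.comp hΘ
  have hpf : ∀ x, (Prod.fst ∘ Θ : X → M) (f x) = g ((Prod.fst ∘ Θ : X → M) x) := by
    intro x
    obtain ⟨b, hb⟩ := hπ.surj (β (Θ x).1)
    obtain ⟨w, hw⟩ := hπ.surj (Θ x).2
    have h := hf (Θ x).1 w b hb
    have hx : Θ.symm ((Θ x).1, π w) = x := by
      rw [hw, Prod.mk.eta]
      exact Θ.symm_apply_apply x
    rw [hx] at h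
    simp only [Function.comp_apply, h]
  have s1 := ver_p1 hr hp1 hpf (z := z) (v := v) h0
  obtain ⟨C₁, hC₁, hb1⟩ := exists_cov_bound hπ γN
  obtain ⟨C₂, hC₂, hb2⟩ := exists_deriv_bound (E := F) (E' := E') (Prod.snd ∘ Θ : X → N) hp2 γX γN
  choose w hw using fun i : ℤ => hπ.surj (Θ (zi f.toEquiv i z)).2
  choose η hη using fun i : ℤ => (ver_pi hπ (w i)).2
    ((Dm (Prod.snd ∘ Θ : X → N) (zi f.toEquiv i z) : F →L[ℝ] E')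
      ((D (zi f.toEquiv i) z : F →L[ℝ] F) v))
  have hB : ∀ i : ℤ, ∃ B : E' →L[ℝ] E', ‖B - (A : E' →L[ℝ] E')‖ ≤ 1 / (2 * K) ∧
      η (i + 1) = B (η i) := by
    intro i
    have hz1 : zi f.toEquiv (i + 1) z = f (zi f.toEquiv i z) := zi_succ_apply f i z
    refine ver_step hr hK hπ hθ hLip Θ hf (x := zi f.toEquiv i z) (w := w i) (w' := w (i + 1))
      (hw i) (by rw [hw (i + 1), hz1]) (s1 i) (hη i) ?_
    rw [hη (i + 1)]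
    have e1 : (D (zi f.toEquiv (i + 1)) z : F →L[ℝ] F) v =
        (D f (zi f.toEquiv i z) : F →L[ℝ] F) ((D (zi f.toEquiv i) z : F →L[ℝ] F) v) := by
      rw [add_comm i 1, D_zi_add f hr 1 i z]
      have e2 : zi f.toEquiv 1 = f := funext fun y => zi_one_apply f y
      rw [e2]
      rfl
    rw [e1, hz1]
  choose B hBA hBη using hB
  have hdich : Dich B (2 * K) := hA.perturb hK.le (ε := 1 / (2 * K)) (by positivity)
    (by field_simp; norm_num) hBA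
  have hηb : ∀ i, ‖η i‖ ≤ C₁ * (C₂ * K') := by
    intro i
    refine (hb1 (w i) (η i)).trans (mul_le_mul_of_nonneg_left ?_ hC₁.le)
    have e1 : rnorm γN (π (w i)) (mfderiv 𝓘(ℝ, E') 𝓘(ℝ, E') π (w i) (η i)) =
        rnorm γN ((Prod.snd ∘ Θ : X → N) (zi f.toEquiv i z))
          ((Dm (Prod.snd ∘ Θ : X → N) (zi f.toEquiv i z) : F →L[ℝ] E')
            ((D (zi f.toEquiv i) z : F →L[ℝ] F) v)) := by
      rw [← hη i]
      have : π (w i) = (Prod.snd ∘ Θ : X → N) (zi f.toEquiv i z) := hw i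
      rw [← this]
      rfl
    rw [e1]
    refine (hb2 (zi f.toEquiv i z) ((D (zi f.toEquiv i) z : F →L[ℝ] F) v)).trans
      (mul_le_mul_of_nonneg_left ?_ hC₂.le)
    exact hv i
  have hη0 := hdich.unique η _ hηb hBη 0
  have h2 := hη 0
  rw [hη0, map_zero] at h2
  have hz0 : zi f.toEquiv 0 z = z := zi_zero f.toEquiv z
  have hD0 : (D (zi f.toEquiv 0) z : F →L[ℝ] F) = 1 := by
    rw [bridge_zi_zero]
    exact D_id z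
  rw [hz0, hD0] at h2
  exact ver_ker Θ h0 h2.symm

end FAN
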