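import Pool.Agent.FAN.Star
import Pool.Agent.FAN.Ver

/-!
# The main theorem, metric version (module Main, owner helper16)
-/

set_option autoImplicit false

open Set Filter Topology Manifold ContDiff Metric OmSt PRH

namespace FAN

variable {E : Type*} [NormedAddCommGroup E] [NormedSpace ℝ E] [FiniteDimensional ℝ E]
  {E' : Type*} [NormedAddCommGroup E'] [NormedSpace ℝ E'] [FiniteDimensional ℝ E'] [Nontrivial E']
  {F : Type*} [NormedAddCommGroup F] [NormedSpace ℝ F] [FiniteDimensional ℝ F]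
  {M : Type*} [MetricSpace M] [CompactSpace M] [ChartedSpace E M] [IsManifold 𝓘(ℝ, E) ∞ M]
  {N : Type*} [MetricSpace N] [CompactSpace N] [ChartedSpace E' N] [IsManifold 𝓘(ℝ, E') ∞ N]
  {X : Type*} [MetricSpace X] [CompactSpace X] [ChartedSpace F X] [IsManifold 𝓘(ℝ, F) ∞ X]
  {r : ℕ∞}

theorem main_fan (hr : 1 ≤ r) {A : E' ≃L[ℝ] E'} {K : ℝ} (hK : 0 < K)
    (hA : Dich (fun _ : ℤ => (A : E' →L[ℝ] E')) K) {π : E' → N} {Λ : AddSubgroup E'}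
    (hπ : TorusCov π Λ) {β : M → N} (hβ : Continuous β) {θ : M × N → E'} (hθ : Continuous θ)
    (hLip : ∀ x w w', ‖θ (x, π w) - θ (x, π w')‖ ≤ ‖w - w'‖ / (2 * K))
    (Θ : Diffeomorph 𝓘(ℝ, F) (𝓘(ℝ, E).prod 𝓘(ℝ, E')) X (M × N) ∞) {g : Dyn E M r} {f : Dyn F X r}
    (hf : ∀ x w b, π b = β x → Θ (f (Θ.symm (x, π w))) = (g x, π (b + A w + θ (x, π w))))
    (hstab : OmegaStable f) : AxiomA f := by
  obtain ⟨γM⟩ := exists_rmetric (E := E) (M := M)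
  obtain ⟨γX⟩ := exists_rmetric (E := F) (M := X)
  obtain ⟨R, ρ, v₀, hF⟩ := exists_fdata hK hA hπ hβ hθ hLip Θ hf
  have hf1 : ∀ z : M × N, Θ (f (Θ.symm z)) = (g z.1, (fun z => (Θ (f (Θ.symm z))).2) z) := by
    rintro ⟨x, y⟩
    obtain ⟨w, rfl⟩ := hπ.surj y
    obtain ⟨b, hb⟩ := hπ.surj (β x)
    rw [Prod.ext_iff]
    refine ⟨?_, rfl⟩
    rw [hf x w b hb]
  have hpf : ∀ x : X, (Prod.fst ∘ Θ) (f x) = g ((Prod.fst ∘ Θ) x) := by
    intro x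
    have h1 := hf1 (Θ x)
    rw [Θ.symm_apply_apply] at h1
    change (Θ (f x)).1 = g (Θ x).1
    rw [h1]
  refine (main_metric3 hr f hstab).2 fun x hx _ => ?_
  obtain ⟨ι⟩ := exists_iota Θ x
  have hS := star_skew hr Θ ι hf1 hstab γM hF
  have h1 : closure (range fun n : ℕ => f^[n] x) = omegaL f x :=
    closure_orbit_eq (f := f.toHomeomorph) hx
  rw [h1]
  refine isHyperbolicSet_of_NB f hr γX (mem_omegaL_self (f := f.toHomeomorph) hx) ?_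
  intro z hz v K' hv
  have hΘ : ContMDiff 𝓘(ℝ, F) (𝓘(ℝ, E).prod 𝓘(ℝ, E')) 1 Θ := Θ.contMDiff.of_le (by simp)
  have h2 : (mfderiv 𝓘(ℝ, F) 𝓘(ℝ, E) (Prod.fst ∘ Θ) z : F →L[ℝ] E) v = 0 :=
    NBProd_factor hr (f := f) (g := g) (contMDiff_fst.comp hΘ) hpf γM γX
      (x := x) hS.noBdd hz hv
  exact vert_zero hr hK hA hπ hθ hLip Θ hf γX hv h2

end FAN
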