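import Pool.Agent.FAN.Defs

/-!
# Module Sol (size 2): bounded solutions

`exists_sol`: `Dich.newton` (Pool/Agent/OmSt/Dich.lean) for the sequence `fun _ => A`, with
`F n u = b n + A u + θ (x n, π u)`, `y = 0`, `η = κ` (`K * κ ≤ 1 / 2`), `e = R' + R`
(`F n 0 - 0 = b n + θ (x n, π 0)`), radius `2 * K * (R' + R)`; the Lipschitz condition
`F n u - F n u' - A (u - u') = θ (x n, π u) - θ (x n, π u')` is `FData.lip`.
`sol_unique`: `Dich.newton_unique` with `y = 0` and the radius `max C C'` of the two bounds.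
`sol_bound`: from `exists_sol` and `sol_unique`. `IsSol.shift`: direct (`i + 1 + k = i + k + 1`).
`sol_periodic`: `fun i => w (i + n)` is a bounded solution for the same data; `sol_unique`.
-/

set_option autoImplicit false

open Set Filter Topology Metric OmSt PRH

namespace FAN

variable {E' : Type*} [NormedAddCommGroup E'] [NormedSpace ℝ E'] {M N : Type*}
  {A : E' ≃L[ℝ] E'} {π : E' → N} {Λ : AddSubgroup E'} {β : M → N} {θ : M × N → E'}
  {aa : M × N → N} {K κ R ρ : ℝ} {v : E'}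

theorem IsSol.shift {x : ℤ → M} {b w : ℤ → E'} (h : IsSol A π θ x b w) (k : ℤ) :
    IsSol A π θ (fun i => x (i + k)) (fun i => b (i + k)) (fun i => w (i + k)) := by
  obtain ⟨⟨C, hC⟩, he⟩ := h
  refine ⟨⟨C, fun i => hC _⟩, fun i => ?_⟩
  have h1 := he (i + k)
  rw [show i + k + 1 = i + 1 + k by ring] at h1
  exact h1

theorem norm_cd_le {b : ℤ → E'} {R R' : ℝ} {v : E'} (hb : ∀ i, ‖b i‖ ≤ R) (hv : ‖v‖ ≤ R')
    (ω : ℤ → Bool) (i : ℤ) : ‖cd b ω v i‖ ≤ R + R' := by
  unfold cd
  refine (norm_add_le _ _).trans (add_le_add (hb i) ?_)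
  split_ifs
  · exact hv
  · rw [norm_zero]
    exact (norm_nonneg _).trans hv

variable [TopologicalSpace M] [TopologicalSpace N]

theorem FData.exists_sol [CompleteSpace E'] (h : FData A π Λ β θ aa K κ R ρ v) {R' : ℝ} (x : ℤ → M)
    {b : ℤ → E'} (hb : ∀ i, ‖b i‖ ≤ R') :
    ∃ w : ℤ → E', (∀ i, ‖w i‖ ≤ 2 * K * (R' + R)) ∧
      ∀ i, w (i + 1) = b i + A (w i) + θ (x i, π (w i)) := by
  have h0 : ∀ n, ‖b n + A 0 + θ (x n, π 0)‖ ≤ R' + R := by
    intro n
    rw [map_zero, add_zero]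
    exact (norm_add_le _ _).trans (add_le_add (hb n) (h.θR _))
  obtain ⟨z, hz1, hz2⟩ := h.dich.newton h.K0 (F := fun n u => b n + A u + θ (x n, π u))
    (y := fun _ => 0) (ρ := 2 * K * (R' + R)) (η := κ) (e := R' + R) h.κ0 h.κK
    (fun n u _ u' _ => by
      have e1 : b n + A u + θ (x n, π u) - (b n + A u' + θ (x n, π u')) -
          (A : E' →L[ℝ] E') (u - u') = θ (x n, π u) - θ (x n, π u') := by
        rw [map_sub]
        change b n + A u + θ (x n, π u) - (b n + A u' + θ (x n, π u')) - (A u - A u') = _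
        abel
      rw [e1]
      exact h.lip _ _ _)
    (fun n => by simpa using h0 n) le_rfl
  exact ⟨z, fun n => by simpa using hz1 n, hz2⟩

theorem FData.sol_unique (h : FData A π Λ β θ aa K κ R ρ v) {x : ℤ → M} {b w w' : ℤ → E'}
    (hw : IsSol A π θ x b w) (hw' : IsSol A π θ x b w') : w = w' := by
  obtain ⟨⟨C, hC⟩, he⟩ := hw
  obtain ⟨⟨C', hC'⟩, he'⟩ := hw'
  exact h.dich.newton_unique h.K0 (F := fun n u => b n + A u + θ (x n, π u))
    (y := fun _ => 0) (ρ := max C C') (η := κ) h.κ0 h.κK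
    (fun n u _ u' _ => by
      have e1 : b n + A u + θ (x n, π u) - (b n + A u' + θ (x n, π u')) -
          (A : E' →L[ℝ] E') (u - u') = θ (x n, π u) - θ (x n, π u') := by
        rw [map_sub]
        change b n + A u + θ (x n, π u) - (b n + A u' + θ (x n, π u')) - (A u - A u') = _
        abel
      rw [e1]
      exact h.lip _ _ _)
    (fun n => by simpa using (hC n).trans (le_max_left _ _))
    (fun n => by simpa using (hC' n).trans (le_max_right _ _)) he he'

theorem FData.sol_bound [CompleteSpace E'] (h : FData A π Λ β θ aa K κ R ρ v) {R' : ℝ} {x : ℤ → M}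
    {b w : ℤ → E'} (hb : ∀ i, ‖b i‖ ≤ R') (hw : IsSol A π θ x b w) :
    ∀ i, ‖w i‖ ≤ 2 * K * (R' + R) := by
  obtain ⟨w', h1, h2⟩ := h.exists_sol x hb
  have e := h.sol_unique hw ⟨⟨_, h1⟩, h2⟩
  rw [e]
  exact h1

theorem FData.sol_periodic (h : FData A π Λ β θ aa K κ R ρ v) {x : ℤ → M} {b w : ℤ → E'} {n : ℤ}
    (hx : ∀ i, x (i + n) = x i) (hb : ∀ i, b (i + n) = b i) (hw : IsSol A π θ x b w) :
    ∀ i, w (i + n) = w i := by
  have h1 := hw.shift n
  have ex : (fun i => x (i + n)) = x := funext hx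
  have eb : (fun i => b (i + n)) = b := funext hb
  rw [ex, eb] at h1
  have e := h.sol_unique h1 hw
  intro i
  exact congrFun e i

end FAN
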