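import Pool.Agent.PRH.StarFin
import Pool.Agent.FAN.Core

/-!
# Module Star (size 2): `Ω`-stability implies `Star` for the base

PROOF: copy the proof of `star_of_omegaStable` (Pool/Agent/PRH/StarFin.lean) with `m = 1` and `lcoc g hr γ`;
`hπ.schedule` is replaced by `h.exists_ctrl g.toHomeomorph (Uo := fun q => (chartAt E' q).source) .. J` and `star_core`
by `skew_core`. (The theorem `StarFin_ne` is available.)
-/

set_option autoImplicit false

open Set Filter Topology Manifold ContDiff Metric OmSt PRH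

namespace FAN

variable {E : Type*} [NormedAddCommGroup E] [NormedSpace ℝ E] [FiniteDimensional ℝ E]
  {E' : Type*} [NormedAddCommGroup E'] [NormedSpace ℝ E'] [FiniteDimensional ℝ E']
  {F : Type*} [NormedAddCommGroup F] [NormedSpace ℝ F] [FiniteDimensional ℝ F]
  {M : Type*} [MetricSpace M] [CompactSpace M] [ChartedSpace E M] [IsManifold 𝓘(ℝ, E) ∞ M]
  {N : Type*} [TopologicalSpace N] [T2Space N] [ChartedSpace E' N] [IsManifold 𝓘(ℝ, E') ∞ N]
  {X : Type*} [TopologicalSpace X] [T2Space X] [CompactSpace X] [ChartedSpace F X]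
  [IsManifold 𝓘(ℝ, F) ∞ X] {r : ℕ∞}

theorem star_skew (hr : 1 ≤ r) (Θ : Diffeomorph 𝓘(ℝ, F) (𝓘(ℝ, E).prod 𝓘(ℝ, E')) X (M × N) ∞)
    (ι : F ≃L[ℝ] E × E') {g : Dyn E M r} {f : Dyn F X r} {aa : M × N → N}
    (hf : ∀ z : M × N, Θ (f (Θ.symm z)) = (g z.1, aa z)) (hstab : OmegaStable f)
    (γ : RMetric E M) {A : E' ≃L[ℝ] E'} {π : E' → N} {Λ : AddSubgroup E'} {β : M → N}
    {θ : M × N → E'} {K κ R ρ : ℝ} {v : E'} (h : FData A π Λ β θ aa K κ R ρ v) :
    (lcoc g hr γ).Star := by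
  obtain ⟨𝒩, hN, hfN, hconj⟩ := hstab
  have hS : Stab 𝒩 := ⟨hN, fun g₁ hg₁ g' hg' =>
    ((hconj g₁ hg₁).symm (Dyn.isOpenMap f) f.continuous).trans (Dyn.isOpenMap f) f.continuous
      (hconj g' hg')⟩
  intro J
  rcases Nat.eq_zero_or_pos J with rfl | hJ
  · refine ⟨0, fun c => ⟨1, one_pos, ?_⟩⟩
    intro V n _ _ T hT v _
    obtain ⟨𝓛, hc, _, hw⟩ := hT
    have h0 : 𝓛 = ∅ := by
      rw [← Set.encard_eq_zero]
      simpa using hc
    exact absurd hw (StarFin_ne h0)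
  · obtain ⟨L₀, hL₀, hctl0⟩ := h.exists_ctrl g.toHomeomorph
      (Uo := fun q => (chartAt E' q).source)
      (fun q => (chartAt E' q).open_source.mem_nhds (mem_chart_source E' q)) J
    refine ⟨L₀, fun c => ?_⟩
    obtain ⟨q, C, D, hC, hD, hCs, hCC, hCD, hctl⟩ := hctl0 c
    have key := fun t : Fin J → Fin 2 =>
      skew_core hr Θ ι hf hS hfN γ hL₀ c hC hD hCs hCC hCD hctl t
    choose ε hε hkey using key
    obtain ⟨t0, ht0⟩ := Finite.exists_min ε
    refine ⟨ε t0, hε t0, ?_⟩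
    intro V n hV hn T hT v hv
    obtain ⟨𝓛, hcard, hnorm, hw⟩ := hT
    by_contra hv0
    have hne : 𝓛.Nonempty := by
      rw [Set.nonempty_iff_ne_empty]
      exact fun h0 => StarFin_ne h0 hw
    have hfin : 𝓛.Finite := Set.finite_of_encard_le_coe hcard
    have : Fintype 𝓛 := hfin.fintype
    have : Nonempty 𝓛 := hne.to_subtype
    have hc2 : Fintype.card 𝓛 ≤ Fintype.card (Fin J) := by
      rw [Fintype.card_fin]
      have h1 : 𝓛.encard = Fintype.card 𝓛 := by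
        rw [Set.encard_eq_coe_toFinset_card, Set.toFinset_card]
      rw [h1] at hcard
      exact_mod_cast hcard
    obtain ⟨e⟩ := Function.Embedding.nonempty_of_card_le hc2
    have hsig : ∀ x : Letter E, ∃ b : Fin J, x ∈ 𝓛 →
        ((Function.invFun e b : 𝓛) : Letter E) = x := by
      intro x
      by_cases hx : x ∈ 𝓛
      · exact ⟨e ⟨x, hx⟩, fun _ => by rw [Function.leftInverse_invFun e.injective ⟨x, hx⟩]⟩
      · exact ⟨⟨0, hJ⟩, fun h => absurd h hx⟩
    choose σ hσ using hsig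
    obtain ⟨K, ℓ, hmem, hchain, hK, hT⟩ := hw.exists_seq
    obtain ⟨w, hw0, hw1⟩ := fix_prods (X := (lcoc g hr γ).X c V n) hK
      (v := v) hv0 (by rw [← hT]; exact hv)
    apply hw0
    set ℓ' : Fin J → Letter E := fun b => ((Function.invFun e b : 𝓛) : Letter E) with hℓ'
    have hσ' : ∀ k, ℓ' (σ (ℓ k)) = ℓ k := fun k => hσ _ (hmem k)
    refine hkey (fun b => (ℓ' b).2.1) V n
      (fun i => (hV i).trans_le (ht0 _)) (fun i j => ⟨(hn i j).1, ((hn i j).2).trans_le (ht0 _)⟩)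
      ℓ' (fun b => rfl) (fun b => (hnorm _ (Function.invFun e b : 𝓛).2).trans_le (ht0 _))
      K (fun k => σ (ℓ k)) ?_ ?_ w ?_
    · intro j hj
      change (ℓ' (σ (ℓ (j + 1)))).1 = (ℓ' (σ (ℓ j))).2.1
      rw [hσ', hσ']
      exact hchain j hj
    · change σ (ℓ (K + 1)) = σ (ℓ 0)
      rw [hK]
    · simp only [hσ']
      exact hw1

end FAN
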